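import Pool.Agent.Helper37.WMC.Time

/-! The energy in one band. -/

set_option autoImplicit false

open Filter Topology Set MeasureTheory
open scoped ENNReal

namespace Pool.Agent.Helper37.WMC

open Pool.Agent.H295R2 Pool.Agent.Helper37.WMH

noncomputable section

lemma kT_sq {T : ℝ} (hT : 0 < T) {c : ℝ} (_ : 0 ≤ c) (t : ℝ) :
    ‖kT T ⟨c, t⟩‖ ^ 2 = T ^ 2 * (c ^ 2 + t ^ 2) / ((c + T) ^ 2 + t ^ 2) ^ 2 := by
  unfold kT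
  have h1 : ‖(⟨c, t⟩ : ℂ)‖ ^ 2 = c ^ 2 + t ^ 2 := by
    rw [← Complex.normSq_eq_norm_sq, Complex.normSq_mk]; ring
  have h2 : ‖(⟨c, t⟩ : ℂ) + T‖ ^ 2 = (c + T) ^ 2 + t ^ 2 := by
    rw [← Complex.normSq_eq_norm_sq, Complex.normSq_apply]
    simp
    ring
  rw [norm_div, norm_mul, norm_pow, div_pow, mul_pow, ← pow_mul, mul_comm 2 2, pow_mul ‖(⟨c, t⟩ : ℂ) + T‖, h1, h2,
    Complex.norm_real, Real.norm_of_nonneg hT.le]

lemma kT_near {T : ℝ} (hT : 0 < T) {c : ℝ} (hc : 0 ≤ c) (t : ℝ) : ‖kT T ⟨c, t⟩‖ ^ 2 ≤ (c ^ 2 + t ^ 2) / T ^ 2 := by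
  rw [kT_sq hT hc, div_le_div_iff₀ (by positivity) (by positivity)]
  have h1 : T ^ 2 ≤ (c + T) ^ 2 + t ^ 2 := by nlinarith [sq_nonneg t, mul_nonneg hc hT.le]
  have h2 : (T ^ 2) ^ 2 ≤ ((c + T) ^ 2 + t ^ 2) ^ 2 := by gcongr
  have h3 : 0 ≤ c ^ 2 + t ^ 2 := by positivity
  nlinarith [mul_le_mul_of_nonneg_left h2 h3]

lemma kT_far {T : ℝ} (hT : 0 < T) {c : ℝ} (hc : 0 ≤ c) (hc1 : c ≤ 1) {t : ℝ} (ht : 1 ≤ |t|) :
    ‖kT T ⟨c, t⟩‖ ^ 2 ≤ 2 * qw T |t| := by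
  rw [kT_sq hT hc]
  unfold qw
  rw [sq_abs]
  have ht2 : 1 ≤ t ^ 2 := by rw [← sq_abs]; nlinarith
  have h1 : T ^ 2 + t ^ 2 ≤ (c + T) ^ 2 + t ^ 2 := by nlinarith [mul_nonneg hc hT.le]
  calc T ^ 2 * (c ^ 2 + t ^ 2) / ((c + T) ^ 2 + t ^ 2) ^ 2 ≤ T ^ 2 * (2 * t ^ 2) / (T ^ 2 + t ^ 2) ^ 2 := by
        gcongr
        nlinarith
    _ = _ := by ring

lemma kT_low {T : ℝ} (hT : 1 ≤ T) {c : ℝ} (hc : 0 ≤ c) (hc1 : c ≤ 1) {t : ℝ} (h1 : T ≤ |t|) (h2 : |t| ≤ 2 * T) :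
    1 / 64 ≤ ‖kT T ⟨c, t⟩‖ ^ 2 := by
  rw [kT_sq (by linarith) hc, div_le_div_iff₀ (by norm_num) (by positivity)]
  have h3 : t ^ 2 = |t| ^ 2 := (sq_abs t).symm
  have h4 : (c + T) ^ 2 + t ^ 2 ≤ 8 * T ^ 2 := by
    rw [h3]
    nlinarith
  have h5 : T ^ 2 ≤ c ^ 2 + t ^ 2 := by rw [h3]; nlinarith [sq_nonneg c]
  have h6 : ((c + T) ^ 2 + t ^ 2) ^ 2 ≤ (8 * T ^ 2) ^ 2 := by gcongr
  have h7 : T ^ 2 * T ^ 2 ≤ T ^ 2 * (c ^ 2 + t ^ 2) := by gcongr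
  nlinarith

/-- the band on the line `Re s = 3/2` -/
lemma Ph_one : ∃ C : ℝ, 0 < C ∧ ∀ T : ℝ, 0 < T → Ph T 1 ≤ ENNReal.ofReal (C / T) := by
  obtain ⟨K, hK1, hK⟩ := zeta_bounds (a := 3 / 2) (by norm_num)
  have hpi := Real.pi_pos
  refine ⟨K ^ 2 * Real.pi, by positivity, fun T hT => ?_⟩
  have hpt : ∀ t : ℝ, ‖HH ⟨1 / 2 + 1, t⟩ * kT T ⟨1, t⟩‖ₑ ^ 2 ≤
      ENNReal.ofReal (K ^ 2 / T) * ENNReal.ofReal (T / (T ^ 2 + (t - 0) ^ 2)) := by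
    intro t
    rw [← ofReal_norm, ← ENNReal.ofReal_pow (norm_nonneg _), ← ENNReal.ofReal_mul (by positivity)]
    apply ENNReal.ofReal_le_ofReal
    have e : (1:ℝ) / 2 + 1 = 3 / 2 := by norm_num
    rw [norm_mul, mul_pow, kT_sq hT zero_le_one, e, sub_zero]
    have h1 : ‖HH ⟨3 / 2, t⟩‖ ^ 2 ≤ K ^ 2 / (1 + t ^ 2) := by
      unfold HH
      rw [norm_div, div_pow]
      have h2 : ‖(⟨3 / 2, t⟩ : ℂ)‖ ^ 2 = 9 / 4 + t ^ 2 := by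
        rw [← Complex.normSq_eq_norm_sq, Complex.normSq_mk]; ring
      rw [h2]
      have h3 := (hK ⟨3 / 2, t⟩ (le_refl _)).2
      gcongr
      norm_num
    calc ‖HH ⟨3 / 2, t⟩‖ ^ 2 * (T ^ 2 * (1 ^ 2 + t ^ 2) / ((1 + T) ^ 2 + t ^ 2) ^ 2)
        ≤ K ^ 2 / (1 + t ^ 2) * (T ^ 2 * (1 ^ 2 + t ^ 2) / (T ^ 2 + t ^ 2) ^ 2) := by
          gcongr
          linarith
      _ = K ^ 2 * T ^ 2 / (T ^ 2 + t ^ 2) ^ 2 := by field_simp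
      _ ≤ K ^ 2 * (T ^ 2 + t ^ 2) / (T ^ 2 + t ^ 2) ^ 2 := by
          gcongr
          nlinarith [sq_nonneg t]
      _ = K ^ 2 / T * (T / (T ^ 2 + t ^ 2)) := by field_simp
  unfold Ph
  calc ∫⁻ t : ℝ, ‖HH ⟨1 / 2 + 1, t⟩ * kT T ⟨1, t⟩‖ₑ ^ 2
      ≤ ∫⁻ t : ℝ, ENNReal.ofReal (K ^ 2 / T) * ENNReal.ofReal (T / (T ^ 2 + (t - 0) ^ 2)) := lintegral_mono hpt
    _ = ENNReal.ofReal (K ^ 2 / T) * ENNReal.ofReal Real.pi := by
        rw [lintegral_const_mul' _ _ ENNReal.ofReal_ne_top, pois_lint hT]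
    _ = _ := by
        rw [← ENNReal.ofReal_mul (by positivity)]; congr 1; ring

lemma HH_conj_norm {a t : ℝ} (ha : a ≠ 1) : ‖HH ⟨a, -t⟩‖ = ‖HH ⟨a, t⟩‖ := by
  have e : (⟨a, -t⟩ : ℂ) = (starRingEnd ℂ) ⟨a, t⟩ := by
    apply Complex.ext <;> simp
  rw [HH_eq (mk_ne_one ha), HH_eq (mk_ne_one ha), e, riemannZeta_conj, ← map_mul, norm_div, norm_div, norm_one,
    RCLike.norm_conj]

/-- low frequencies -/
lemma near_c (hR : RHS) {t₀ : ℝ} (ht₀ : 0 ≤ t₀) : ∃ B : ℝ, 0 ≤ B ∧ ∀ c : ℝ, 0 < c → c ≤ 1 / 4 →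
    ENNReal.ofReal c * ∫⁻ t in Icc (-t₀) t₀, ‖HH ⟨1 / 2 + c, t⟩‖ₑ ^ 2 ≤ ENNReal.ofReal B := by
  obtain ⟨C, hC0, hC⟩ := near_bound hR (T := t₀) (T' := t₀) (fun ρ _ h => h)
  set A : ℝ := ∑ ρ ∈ ZT t₀, ‖aa ρ‖ ^ 2 with hA
  set n : ℝ := ((ZT t₀).card : ℝ) with hn
  have hpi := Real.pi_pos
  have hA0 : 0 ≤ A := Finset.sum_nonneg fun _ _ => by positivity
  refine ⟨2 * C ^ 2 * (2 * t₀) + 2 * n * (A * Real.pi), by positivity, fun c hc hc4 => ?_⟩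
  have hpt : ∀ t ∈ Icc (-t₀) t₀, ENNReal.ofReal c * ‖HH ⟨1 / 2 + c, t⟩‖ₑ ^ 2 ≤
      ENNReal.ofReal (2 * C ^ 2) + ENNReal.ofReal (2 * n) *
        ∑ ρ ∈ ZT t₀, ENNReal.ofReal (‖aa ρ‖ ^ 2) * ENNReal.ofReal (c / (c ^ 2 + (t - ρ.im) ^ 2)) := by
    intro t ht
    have h1 := hC ⟨1 / 2 + c, t⟩ (by simp only; linarith) (by simp only; linarith) (abs_le.2 ht)
      (off_line hR (by linarith) t)
    have h2 : ‖QZ (ZT t₀) ⟨1 / 2 + c, t⟩‖ ^ 2 ≤ n * ∑ ρ ∈ ZT t₀, ‖aa ρ‖ ^ 2 / (c ^ 2 + (t - ρ.im) ^ 2) := by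
      unfold QZ
      calc ‖∑ ρ ∈ ZT t₀, aa ρ / (⟨1 / 2 + c, t⟩ - ρ)‖ ^ 2 ≤ (∑ ρ ∈ ZT t₀, ‖aa ρ / (⟨1 / 2 + c, t⟩ - ρ)‖) ^ 2 := by
            gcongr
            exact norm_sum_le _ _
        _ ≤ n * ∑ ρ ∈ ZT t₀, ‖aa ρ / (⟨1 / 2 + c, t⟩ - ρ)‖ ^ 2 := sq_sum_le_card_mul_sum_sq
        _ = _ := by
            congr 1
            refine Finset.sum_congr rfl fun ρ hρ => ?_
            rw [norm_div, div_pow]
            congr 1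
            rw [← Complex.normSq_eq_norm_sq, Complex.normSq_apply, Complex.sub_re, Complex.sub_im,
              (hR ρ (mem_ZT.1 hρ).1).1]
            ring
    have h3 : ‖HH ⟨1 / 2 + c, t⟩‖ ^ 2 ≤ 2 * C ^ 2 + 2 * (n * ∑ ρ ∈ ZT t₀, ‖aa ρ‖ ^ 2 / (c ^ 2 + (t - ρ.im) ^ 2)) := by
      have h4 : HH ⟨1 / 2 + c, t⟩ = hh (ZT t₀) ⟨1 / 2 + c, t⟩ + QZ (ZT t₀) ⟨1 / 2 + c, t⟩ := by
        unfold hh; ring
      have h5 : ‖HH ⟨1 / 2 + c, t⟩‖ ≤ C + ‖QZ (ZT t₀) ⟨1 / 2 + c, t⟩‖ := by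
        rw [h4]
        exact (norm_add_le _ _).trans (by linarith)
      calc ‖HH ⟨1 / 2 + c, t⟩‖ ^ 2 ≤ (C + ‖QZ (ZT t₀) ⟨1 / 2 + c, t⟩‖) ^ 2 := by gcongr
        _ ≤ 2 * C ^ 2 + 2 * ‖QZ (ZT t₀) ⟨1 / 2 + c, t⟩‖ ^ 2 := by
            nlinarith [sq_nonneg (C - ‖QZ (ZT t₀) ⟨1 / 2 + c, t⟩‖)]
        _ ≤ _ := by linarith
    have hsum : ∑ ρ ∈ ZT t₀, ENNReal.ofReal (‖aa ρ‖ ^ 2) * ENNReal.ofReal (c / (c ^ 2 + (t - ρ.im) ^ 2)) =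
        ENNReal.ofReal (∑ ρ ∈ ZT t₀, ‖aa ρ‖ ^ 2 * (c / (c ^ 2 + (t - ρ.im) ^ 2))) := by
      rw [ENNReal.ofReal_sum_of_nonneg (fun ρ _ => by positivity)]
      exact Finset.sum_congr rfl fun ρ _ => (ENNReal.ofReal_mul (by positivity)).symm
    have hs0 : 0 ≤ ∑ ρ ∈ ZT t₀, ‖aa ρ‖ ^ 2 * (c / (c ^ 2 + (t - ρ.im) ^ 2)) :=
      Finset.sum_nonneg fun _ _ => by positivity
    rw [hsum, ← ofReal_norm, ← ENNReal.ofReal_pow (norm_nonneg _), ← ENNReal.ofReal_mul hc.le,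
      ← ENNReal.ofReal_mul (by positivity), ← ENNReal.ofReal_add (by positivity) (by positivity)]
    apply ENNReal.ofReal_le_ofReal
    have h6 : c * ∑ ρ ∈ ZT t₀, ‖aa ρ‖ ^ 2 / (c ^ 2 + (t - ρ.im) ^ 2) =
        ∑ ρ ∈ ZT t₀, ‖aa ρ‖ ^ 2 * (c / (c ^ 2 + (t - ρ.im) ^ 2)) := by
      rw [Finset.mul_sum]
      exact Finset.sum_congr rfl fun ρ _ => by ring
    calc c * ‖HH ⟨1 / 2 + c, t⟩‖ ^ 2 ≤ c * (2 * C ^ 2 + 2 * (n * ∑ ρ ∈ ZT t₀, ‖aa ρ‖ ^ 2 / (c ^ 2 + (t - ρ.im) ^ 2))) := by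
          gcongr
      _ = c * (2 * C ^ 2) + 2 * n * (c * ∑ ρ ∈ ZT t₀, ‖aa ρ‖ ^ 2 / (c ^ 2 + (t - ρ.im) ^ 2)) := by ring
      _ ≤ _ := by
          rw [h6]
          have : c * (2 * C ^ 2) ≤ 1 * (2 * C ^ 2) := by gcongr; linarith
          linarith
  have hmeas : ∀ γ : ℝ, Measurable (fun t : ℝ => ENNReal.ofReal (c / (c ^ 2 + (t - γ) ^ 2))) := fun γ => by fun_prop
  calc ENNReal.ofReal c * ∫⁻ t in Icc (-t₀) t₀, ‖HH ⟨1 / 2 + c, t⟩‖ₑ ^ 2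
      = ∫⁻ t in Icc (-t₀) t₀, ENNReal.ofReal c * ‖HH ⟨1 / 2 + c, t⟩‖ₑ ^ 2 :=
        (lintegral_const_mul' _ _ ENNReal.ofReal_ne_top).symm
    _ ≤ ∫⁻ t in Icc (-t₀) t₀, (ENNReal.ofReal (2 * C ^ 2) + ENNReal.ofReal (2 * n) *
          ∑ ρ ∈ ZT t₀, ENNReal.ofReal (‖aa ρ‖ ^ 2) * ENNReal.ofReal (c / (c ^ 2 + (t - ρ.im) ^ 2))) :=
        setLIntegral_mono' measurableSet_Icc hpt
    _ = ENNReal.ofReal (2 * C ^ 2) * ENNReal.ofReal (2 * t₀) + ∫⁻ t in Icc (-t₀) t₀, ENNReal.ofReal (2 * n) *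
          ∑ ρ ∈ ZT t₀, ENNReal.ofReal (‖aa ρ‖ ^ 2) * ENNReal.ofReal (c / (c ^ 2 + (t - ρ.im) ^ 2)) := by
        rw [lintegral_add_left measurable_const, setLIntegral_const, Real.volume_Icc]
        congr 3; ring
    _ ≤ ENNReal.ofReal (2 * C ^ 2) * ENNReal.ofReal (2 * t₀) + ∫⁻ t, ENNReal.ofReal (2 * n) *
          ∑ ρ ∈ ZT t₀, ENNReal.ofReal (‖aa ρ‖ ^ 2) * ENNReal.ofReal (c / (c ^ 2 + (t - ρ.im) ^ 2)) := by
        gcongr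
        exact Measure.restrict_le_self
    _ = ENNReal.ofReal (2 * C ^ 2) * ENNReal.ofReal (2 * t₀) + ENNReal.ofReal (2 * n) *
          ∑ ρ ∈ ZT t₀, ENNReal.ofReal (‖aa ρ‖ ^ 2) * ENNReal.ofReal Real.pi := by
        rw [lintegral_const_mul' _ _ ENNReal.ofReal_ne_top, lintegral_finsetSum _ (fun ρ _ => (hmeas ρ.im).const_mul _)]
        congr 2
        refine Finset.sum_congr rfl fun ρ _ => ?_
        rw [lintegral_const_mul' _ _ ENNReal.ofReal_ne_top, pois_lint hc]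
    _ = _ := by
        have h7 : ∑ ρ ∈ ZT t₀, ENNReal.ofReal (‖aa ρ‖ ^ 2) * ENNReal.ofReal Real.pi = ENNReal.ofReal (A * Real.pi) := by
          rw [hA, Finset.sum_mul, ENNReal.ofReal_sum_of_nonneg (fun ρ _ => by positivity)]
          exact Finset.sum_congr rfl fun ρ _ => (ENNReal.ofReal_mul (by positivity)).symm
        rw [h7, ← ENNReal.ofReal_mul (by positivity), ← ENNReal.ofReal_mul (by positivity), ← ENNReal.ofReal_add (by positivity) (by positivity)]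

/-- the band for small `c` -/
theorem Ph_small (hR : RHS) : ∃ C : ℝ, 0 < C ∧ ∀ T : ℝ, Real.exp 1 ≤ T → ∀ c : ℝ, 0 < c →
    c ≤ 1 / Real.log T → c ≤ 1 / 4 →
    ENNReal.ofReal c * Ph T c ≤ ENNReal.ofReal C * (Sz T + ENNReal.ofReal (1 / T ^ 2)) := by
  obtain ⟨C, t₀, hC, ht₀, hfar⟩ := far_c0 hR
  obtain ⟨B, hB, hnear⟩ := near_c hR (t₀ := t₀) (by linarith)
  refine ⟨4 * C + B * (1 + t₀ ^ 2), by positivity, fun T hT c hc hcT hc4 => ?_⟩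
  have hT0 : 0 < T := (Real.exp_pos 1).trans_le hT
  set f : ℝ → ℝ≥0∞ := fun t => ‖HH ⟨1 / 2 + c, t⟩ * kT T ⟨c, t⟩‖ₑ ^ 2 with hf
  have hsym : ∀ t, f (-t) = f t := by
    intro t
    rw [hf]
    simp only
    rw [← ofReal_norm, ← ofReal_norm, ← ENNReal.ofReal_pow (norm_nonneg _), ← ENNReal.ofReal_pow (norm_nonneg _),
      norm_mul, norm_mul, mul_pow, mul_pow, kT_sq hT0 hc.le, kT_sq hT0 hc.le, HH_conj_norm (by linarith), neg_sq]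
  have hsplit : Ph T c ≤ (∫⁻ t in Iic (-t₀), f t) + (∫⁻ t in Icc (-t₀) t₀, f t) + ∫⁻ t in Ici t₀, f t := by
    unfold Ph
    rw [← setLIntegral_univ]
    have h1 : (univ : Set ℝ) ⊆ (Iic (-t₀) ∪ Icc (-t₀) t₀) ∪ Ici t₀ := by
      intro t _
      rcases le_total t (-t₀) with h | h
      · exact Or.inl (Or.inl h)
      · rcases le_total t t₀ with h' | h'
        · exact Or.inl (Or.inr ⟨h, h'⟩)
        · exact Or.inr h'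
    refine (lintegral_mono_set h1).trans ((lintegral_union_le _ _ _).trans ?_)
    gcongr
    exact lintegral_union_le _ _ _
  have hneg : ∫⁻ t in Iic (-t₀), f t = ∫⁻ t in Ici t₀, f t := by
    have h1 : MeasurePreserving (fun t : ℝ => -t) volume volume := Measure.measurePreserving_neg volume
    have h2 := h1.setLIntegral_comp_preimage_emb (MeasurableEquiv.neg ℝ).measurableEmbedding f (Iic (-t₀))
    rw [← h2]
    have h3 : (fun t : ℝ => -t) ⁻¹' Iic (-t₀) = Ici t₀ := by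
      ext t
      simp
    rw [h3]
    exact lintegral_congr fun t => hsym t
  have hfarf : ENNReal.ofReal c * ∫⁻ t in Ici t₀, f t ≤ ENNReal.ofReal (2 * C) * Sz T := by
    calc ENNReal.ofReal c * ∫⁻ t in Ici t₀, f t
        ≤ ENNReal.ofReal c * ∫⁻ t in Ici t₀, ENNReal.ofReal 2 * (‖HH ⟨1 / 2 + c, t⟩‖ₑ ^ 2 * ENNReal.ofReal (qw T t)) := by
          gcongr ENNReal.ofReal c * ?_
          refine setLIntegral_mono' measurableSet_Ici fun t ht => ?_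
          have ht0 : t₀ ≤ t := ht
          have h1 := kT_far hT0 hc.le (by linarith) (t := t) (by rw [abs_of_pos (by linarith)]; linarith)
          rw [abs_of_pos (by linarith)] at h1
          have h2 : ‖kT T ⟨c, t⟩‖ₑ ^ 2 ≤ ENNReal.ofReal 2 * ENNReal.ofReal (qw T t) := by
            rw [← ofReal_norm, ← ENNReal.ofReal_pow (norm_nonneg _), ← ENNReal.ofReal_mul (by norm_num)]
            exact ENNReal.ofReal_le_ofReal h1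
          rw [hf]
          simp only
          rw [enorm_mul, mul_pow]
          calc ‖HH ⟨1 / 2 + c, t⟩‖ₑ ^ 2 * ‖kT T ⟨c, t⟩‖ₑ ^ 2
              ≤ ‖HH ⟨1 / 2 + c, t⟩‖ₑ ^ 2 * (ENNReal.ofReal 2 * ENNReal.ofReal (qw T t)) := by gcongr
            _ = _ := by ring
      _ = ENNReal.ofReal 2 * (ENNReal.ofReal c * ∫⁻ t in Ici t₀, ‖HH ⟨1 / 2 + c, t⟩‖ₑ ^ 2 * ENNReal.ofReal (qw T t)) := by
          rw [lintegral_const_mul' _ _ ENNReal.ofReal_ne_top]; ring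
      _ ≤ ENNReal.ofReal 2 * (ENNReal.ofReal C * Sz T) := by
          gcongr ENNReal.ofReal 2 * ?_
          exact hfar T hT c hc hcT
      _ = _ := by rw [← mul_assoc, ← ENNReal.ofReal_mul (by norm_num)]
  have hnearf : ENNReal.ofReal c * ∫⁻ t in Icc (-t₀) t₀, f t ≤ ENNReal.ofReal (B * (1 + t₀ ^ 2)) * ENNReal.ofReal (1 / T ^ 2) := by
    calc ENNReal.ofReal c * ∫⁻ t in Icc (-t₀) t₀, f t
        ≤ ENNReal.ofReal c * ∫⁻ t in Icc (-t₀) t₀, ENNReal.ofReal ((1 + t₀ ^ 2) / T ^ 2) * ‖HH ⟨1 / 2 + c, t⟩‖ₑ ^ 2 := by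
          gcongr ENNReal.ofReal c * ?_
          refine setLIntegral_mono' measurableSet_Icc fun t ht => ?_
          have h1 := kT_near hT0 hc.le t
          have h2 : t ^ 2 ≤ t₀ ^ 2 := sq_le_sq' ht.1 ht.2
          have h3 : ‖kT T ⟨c, t⟩‖ₑ ^ 2 ≤ ENNReal.ofReal ((1 + t₀ ^ 2) / T ^ 2) := by
            rw [← ofReal_norm, ← ENNReal.ofReal_pow (norm_nonneg _)]
            apply ENNReal.ofReal_le_ofReal
            refine h1.trans ?_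
            gcongr
            nlinarith
          rw [hf]
          simp only
          rw [enorm_mul, mul_pow, mul_comm]
          gcongr
      _ = ENNReal.ofReal ((1 + t₀ ^ 2) / T ^ 2) * (ENNReal.ofReal c * ∫⁻ t in Icc (-t₀) t₀, ‖HH ⟨1 / 2 + c, t⟩‖ₑ ^ 2) := by
          rw [lintegral_const_mul' _ _ ENNReal.ofReal_ne_top]; ring
      _ ≤ ENNReal.ofReal ((1 + t₀ ^ 2) / T ^ 2) * ENNReal.ofReal B := by
          gcongr ENNReal.ofReal ((1 + t₀ ^ 2) / T ^ 2) * ?_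
          exact hnear c hc hc4
      _ = _ := by
          rw [← ENNReal.ofReal_mul (by positivity), ← ENNReal.ofReal_mul (by positivity)]
          congr 1; ring
  calc ENNReal.ofReal c * Ph T c
      ≤ ENNReal.ofReal c * ((∫⁻ t in Iic (-t₀), f t) + (∫⁻ t in Icc (-t₀) t₀, f t) + ∫⁻ t in Ici t₀, f t) := by gcongr
    _ = 2 * (ENNReal.ofReal c * ∫⁻ t in Ici t₀, f t) + ENNReal.ofReal c * ∫⁻ t in Icc (-t₀) t₀, f t := by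
        rw [hneg]; ring
    _ ≤ 2 * (ENNReal.ofReal (2 * C) * Sz T) + ENNReal.ofReal (B * (1 + t₀ ^ 2)) * ENNReal.ofReal (1 / T ^ 2) := by gcongr
    _ = ENNReal.ofReal (4 * C) * Sz T + ENNReal.ofReal (B * (1 + t₀ ^ 2)) * ENNReal.ofReal (1 / T ^ 2) := by
        rw [← mul_assoc]
        congr 2
        have : (2:ℝ≥0∞) = ENNReal.ofReal 2 := by norm_num
        rw [this, ← ENNReal.ofReal_mul (by norm_num)]
        congr 1; ring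
    _ ≤ ENNReal.ofReal (4 * C + B * (1 + t₀ ^ 2)) * Sz T + ENNReal.ofReal (4 * C + B * (1 + t₀ ^ 2)) * ENNReal.ofReal (1 / T ^ 2) := by
        gcongr
        · have : 0 ≤ B * (1 + t₀ ^ 2) := by positivity
          linarith
        · linarith
    _ = _ := (mul_add _ _ _).symm

end

end Pool.Agent.Helper37.WMC
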