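import Pool.Agent.Helper37.WMC.Split

/-! The inequality between two consecutive zeros. -/

set_option autoImplicit false

open Filter Topology Set Complex Metric

namespace Pool.Agent.Helper37.WMC

variable {g : ℂ → ℂ}

/-- the inequality with the error of a finite product -/
theorem between_fin (hg : Differentiable ℂ g) (h0 : g 0 ≠ 0) (he : ∀ z, g (-z) = g z) {K : ℝ} (hK : 0 ≤ K)
    (hgr : ∀ w, ‖g w‖ ≤ Real.exp (K * (1 + ‖w‖) ^ (3 / 2 : ℝ)))
    (hz : ∀ w, g w = 0 → w.re = 0 ∧ deriv g w ≠ 0) {a b : ℝ} (hab : a < b) (ha : g (a * I) = 0)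
    (hb : g (b * I) = 0) (hn : ∀ x : ℝ, a < x → x < b → g (x * I) ≠ 0) {l : ℝ} (hl0 : 0 ≤ l) (hl1 : l ≤ 1) {w : ℂ}
    {c : ℝ} (hw : w = c + ((1 - l) * a + l * b) * I) {R : ℝ} (hR : 0 < R)
    (hRw : ‖w‖ ≤ R / 2) (hRa : |a| ≤ R / 2) (hRb : |b| ≤ R / 2) :
    ‖deriv g (a * I)‖ ^ (1 - l) * ‖deriv g (b * I)‖ ^ l * (‖w - a * I‖ * ‖w - b * I‖ / (b - a)) *
      Real.exp (-(er K (Real.log ‖g 0‖) R * (‖w‖ ^ 2 + |a| ^ 2 + |b| ^ 2))) ≤ ‖g w‖ := by
  classical
  set Z : Finset ℂ := (fin_disc hg h0 R).toFinset with hZd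
  have hZ : ∀ u, u ∈ Z ↔ ‖u‖ ≤ R ∧ g u = 0 := by
    intro u
    rw [hZd]
    simp
  have hZ0 : ∀ u ∈ Z, u ≠ 0 := by
    intro u hu h
    have := ((hZ u).1 hu).2
    rw [h] at this
    exact h0 this
  have hbd : ∀ w ∈ closedBall (0 : ℂ) (2 * R), ‖g w‖ ≤ Real.exp (K * (1 + 2 * R) ^ (3 / 2 : ℝ)) := by
    intro w hw
    rw [mem_closedBall_zero_iff] at hw
    refine (hgr w).trans (Real.exp_le_exp.2 (mul_le_mul_of_nonneg_left ?_ hK))
    exact Real.rpow_le_rpow (by positivity) (by linarith) (by norm_num)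
  obtain ⟨G, hG, hGb, hgG, hGU⟩ := split_simple Z hg hR hbd hZ0 (fun u hu => ((hZ u).1 hu).1)
    (fun u hu => ((hZ u).1 hu).2) (fun u hu => (hz u ((hZ u).1 hu).2).2)
  have hGn : ∀ u ∈ ball (0 : ℂ) R, G u ≠ 0 := by
    intro u hu h
    rw [mem_ball_zero_iff] at hu
    exact hGU u ((hZ u).2 ⟨hu.le, by rw [hgG u, h, mul_zero]⟩) h
  have hG0 : G 0 = g 0 := by
    have := hgG 0
    simpa using this.symm
  -- evenness of the quotient
  have hPe : ∀ z : ℂ, ∏ u ∈ Z, (1 - -z / u) = ∏ u ∈ Z, (1 - z / u) := by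
    intro z
    refine Finset.prod_nbij' (fun u => -u) (fun u => -u) ?_ ?_ ?_ ?_ ?_
    · intro u hu
      rw [hZ] at hu ⊢
      rw [norm_neg, he]
      exact hu
    · intro u hu
      rw [hZ] at hu ⊢
      rw [norm_neg, he]
      exact hu
    · intro u _; exact neg_neg u
    · intro u _; exact neg_neg u
    · intro u _
      rw [div_neg, neg_div]
  have hGe : ∀ z, G (-z) = G z := by
    have hdense : Dense ({z : ℂ | ∏ u ∈ Z, (1 - z / u) = 0}ᶜ) := by
      have hfin : {z : ℂ | ∏ u ∈ Z, (1 - z / u) = 0}.Finite := by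
        refine (Finset.finite_toSet Z).subset fun z hz' => ?_
        have h1 : ∏ u ∈ Z, (1 - z / u) = 0 := hz'
        rw [Finset.prod_eq_zero_iff] at h1
        obtain ⟨u, hu, h2⟩ := h1
        have h3 : z / u = 1 := by linear_combination -h2
        rw [div_eq_one_iff_eq (hZ0 u hu)] at h3
        rw [h3]; exact hu
      exact hfin.countable.dense_compl ℝ
    have hc1 : Continuous (fun z => G (-z)) := hG.continuous.comp continuous_neg
    have := Continuous.ext_on hdense hc1 hG.continuous (fun z hz' => by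
      have h1 : ∏ u ∈ Z, (1 - z / u) ≠ 0 := hz'
      have h2 := he z
      rw [hgG z, hgG (-z), hPe z] at h2
      exact mul_left_cancel₀ h1 h2)
    exact fun z => congrFun this z
  have hlog : ∀ v : ℂ, ‖v‖ ≤ R / 2 → |Real.log ‖G v‖ - Real.log ‖g 0‖| ≤ er K (Real.log ‖g 0‖) R * ‖v‖ ^ 2 := by
    intro v hv
    have h1 := even_log_bound hG hGe hR hGn (M := K * (1 + 2 * R) ^ (3 / 2 : ℝ)) (fun w hw =>
      hGb w (closedBall_subset_closedBall (by linarith) (ball_subset_closedBall hw))) hv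
    rw [hG0] at h1
    exact h1
  set E := er K (Real.log ‖g 0‖) R with hE
  have hE0 : 0 ≤ E := by
    have h1 := hlog (R / 2 : ℝ) (by
      rw [Complex.norm_real, Real.norm_eq_abs, abs_of_pos (by positivity)])
    have h2 := (abs_nonneg _).trans h1
    rw [Complex.norm_real, Real.norm_eq_abs, abs_of_pos (show 0 < R / 2 by positivity)] at h2
    exact nonneg_of_mul_nonneg_left h2 (by positivity)
  have hg0 : 0 < ‖g 0‖ := norm_pos_iff.2 h0
  have hup : ∀ v : ℂ, ‖v‖ ≤ R / 2 → ‖G v‖ ≤ ‖g 0‖ * Real.exp (E * ‖v‖ ^ 2) := by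
    intro v hv
    have hvp : 0 < ‖G v‖ := norm_pos_iff.2 (hGn v (by rw [mem_ball_zero_iff]; linarith))
    have h1 := (abs_le.1 (hlog v hv)).2
    rw [← Real.log_le_log_iff hvp (by positivity), Real.log_mul hg0.ne' (Real.exp_pos _).ne', Real.log_exp]
    linarith
  have hlow : ∀ v : ℂ, ‖v‖ ≤ R / 2 → ‖g 0‖ * Real.exp (-(E * ‖v‖ ^ 2)) ≤ ‖G v‖ := by
    intro v hv
    have hvp : 0 < ‖G v‖ := norm_pos_iff.2 (hGn v (by rw [mem_ball_zero_iff]; linarith))
    have h1 := (abs_le.1 (hlog v hv)).1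
    rw [← Real.log_le_log_iff (by positivity) hvp, Real.log_mul hg0.ne' (Real.exp_pos _).ne', Real.log_exp]
    linarith
  -- the two zeros
  set A : ℂ := a * I with hAd
  set B : ℂ := b * I with hBd
  have hAn : ‖A‖ = |a| := by rw [hAd, norm_mul, norm_I, mul_one, Complex.norm_real, Real.norm_eq_abs]
  have hBn : ‖B‖ = |b| := by rw [hBd, norm_mul, norm_I, mul_one, Complex.norm_real, Real.norm_eq_abs]
  have hAZ : A ∈ Z := (hZ A).2 ⟨by rw [hAn]; linarith, ha⟩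
  have hBZ : B ∈ Z := (hZ B).2 ⟨by rw [hBn]; linarith, hb⟩
  have hA0 := hZ0 A hAZ
  have hB0 := hZ0 B hBZ
  have hAB : A ≠ B := by
    intro h
    have : (a : ℂ) = b := mul_right_cancel₀ I_ne_zero h
    have : a = b := by exact_mod_cast this
    linarith
  have hBZ' : B ∈ Z.erase A := Finset.mem_erase.2 ⟨hAB.symm, hBZ⟩
  set Z' : Finset ℂ := (Z.erase A).erase B with hZ'
  set Q : ℂ → ℂ := fun z => ∏ u ∈ Z', (1 - z / u) with hQ
  have hQd : Differentiable ℂ Q := by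
    intro z
    exact DifferentiableAt.fun_finsetProd fun u _ => by fun_prop
  have hP : ∀ z : ℂ, ∏ u ∈ Z, (1 - z / u) = (1 - z / A) * ((1 - z / B) * Q z) := by
    intro z
    rw [← Finset.mul_prod_erase Z _ hAZ, ← Finset.mul_prod_erase (Z.erase A) _ hBZ']
  have hgA : g = fun z => (1 - z / A) * ((1 - z / B) * Q z * G z) := by
    funext z
    rw [hgG z, hP z]; ring
  have hgB : g = fun z => (1 - z / B) * ((1 - z / A) * Q z * G z) := by
    funext z
    rw [hgG z, hP z]; ring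
  have hdA : deriv g A = -(1 / A) * ((1 - A / B) * Q A * G A) := by
    have hd : Differentiable ℂ (fun z => (1 - z / B) * Q z * G z) := by fun_prop
    have h1 := (fac_deriv (u := A) hd A).deriv
    rw [← hgA] at h1
    rw [h1, div_self hA0]
    ring
  have hdB : deriv g B = -(1 / B) * ((1 - B / A) * Q B * G B) := by
    have hd : Differentiable ℂ (fun z => (1 - z / A) * Q z * G z) := by fun_prop
    have h1 := (fac_deriv (u := B) hd B).deriv
    rw [← hgB] at h1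
    rw [h1, div_self hB0]
    ring
  have hap : 0 < |a| := by rw [← hAn]; exact norm_pos_iff.2 hA0
  have hbp : 0 < |b| := by rw [← hBn]; exact norm_pos_iff.2 hB0
  have hba : 0 < b - a := by linarith
  have nAB : ‖A - B‖ = b - a := by
    have : A - B = ((a - b : ℝ) : ℂ) * I := by rw [hAd, hBd]; push_cast; ring
    rw [this, norm_mul, norm_I, mul_one, Complex.norm_real, Real.norm_eq_abs, abs_of_neg (by linarith)]
    ring
  have hfac : ∀ z u : ℂ, u ≠ 0 → ‖1 - z / u‖ = ‖z - u‖ / ‖u‖ := by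
    intro z u hu
    rw [← norm_div, ← norm_neg (1 - z / u)]
    congr 1
    field_simp
    ring
  have ndA : ‖deriv g A‖ = (b - a) / (|a| * |b|) * (‖Q A‖ * ‖G A‖) := by
    rw [hdA, norm_mul, norm_neg, norm_mul, norm_mul, norm_div, norm_one, hfac A B hB0, nAB, hAn, hBn]
    field_simp
  have ndB : ‖deriv g B‖ = (b - a) / (|a| * |b|) * (‖Q B‖ * ‖G B‖) := by
    rw [hdB, norm_mul, norm_neg, norm_mul, norm_mul, norm_div, norm_one, hfac B A hA0, norm_sub_rev, nAB, hAn, hBn]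
    field_simp
  -- the geometric mean of the other factors
  have hQw : ‖Q A‖ ^ (1 - l) * ‖Q B‖ ^ l ≤ ‖Q w‖ := by
    rw [hQ]
    simp only [norm_prod]
    rw [← Real.finsetProd_rpow _ _ (fun u _ => norm_nonneg _), ← Real.finsetProd_rpow _ _ (fun u _ => norm_nonneg _),
      ← Finset.prod_mul_distrib]
    refine Finset.prod_le_prod (fun u _ => by positivity) fun u hu => ?_
    have hu1 := (Finset.mem_erase.1 hu)
    have hu2 := (Finset.mem_erase.1 hu1.2)
    have huZ := (hZ u).1 hu2.2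
    have hure := (hz u huZ.2).1
    have hui : u = (u.im : ℂ) * I := by
      apply Complex.ext
      · simp [hure]
      · simp
    have huim : u.im ≠ 0 := by
      intro h
      apply hZ0 u hu2.2
      rw [hui, h]; simp
    have hord : u.im ≤ a ∨ b ≤ u.im := by
      by_contra hc
      push Not at hc
      refine hn u.im hc.1 hc.2 ?_
      rw [← hui]; exact huZ.2
    have h1 := factor_le (c := c) hab huim hord hl0 hl1
    rw [← hui] at h1
    rw [hw]
    exact h1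
  -- assembly
  set N : ℝ := ‖w‖ ^ 2 + |a| ^ 2 + |b| ^ 2 with hN
  set Bd : ℝ := ‖g 0‖ * Real.exp (E * (|a| ^ 2 + |b| ^ 2)) with hBdd
  have hBdp : 0 < Bd := by positivity
  have hGA : ‖G A‖ ≤ Bd := by
    refine (hup A (by rw [hAn]; exact hRa)).trans ?_
    rw [hAn, hBdd]
    gcongr
    have : 0 ≤ |b| ^ 2 := by positivity
    linarith
  have hGB : ‖G B‖ ≤ Bd := by
    refine (hup B (by rw [hBn]; exact hRb)).trans ?_
    rw [hBn, hBdd]
    gcongr
    have : 0 ≤ |a| ^ 2 := by positivity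
    linarith
  set κ : ℝ := |a| * |b| / (b - a) with hκ
  have hκ0 : 0 < κ := by positivity
  have hq1 : κ / Bd * ‖deriv g A‖ ≤ ‖Q A‖ := by
    rw [ndA]
    have : κ / Bd * ((b - a) / (|a| * |b|) * (‖Q A‖ * ‖G A‖)) = ‖Q A‖ * (‖G A‖ / Bd) := by
      rw [hκ]; field_simp
    rw [this]
    exact mul_le_of_le_one_right (norm_nonneg _) ((div_le_one hBdp).2 hGA)
  have hq2 : κ / Bd * ‖deriv g B‖ ≤ ‖Q B‖ := by
    rw [ndB]
    have : κ / Bd * ((b - a) / (|a| * |b|) * (‖Q B‖ * ‖G B‖)) = ‖Q B‖ * (‖G B‖ / Bd) := by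
      rw [hκ]; field_simp
    rw [this]
    exact mul_le_of_le_one_right (norm_nonneg _) ((div_le_one hBdp).2 hGB)
  have hq3 := (geo_mono (div_nonneg hκ0.le hBdp.le) (norm_nonneg _) (norm_nonneg _) hl0 hl1 hq1 hq2).trans hQw
  have hgw : ‖g w‖ = ‖w - A‖ * ‖w - B‖ / (|a| * |b|) * (‖Q w‖ * ‖G w‖) := by
    rw [hgG w, hP w, norm_mul, norm_mul, norm_mul, hfac w A hA0, hfac w B hB0, hAn, hBn]
    field_simp
  have hGw := hlow w hRw
  rw [hgw]
  have e1 : Real.exp (-(E * N)) * Bd = ‖g 0‖ * Real.exp (-(E * ‖w‖ ^ 2)) := by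
    rw [hBdd, hN]
    have : -(E * ‖w‖ ^ 2) = -(E * (‖w‖ ^ 2 + |a| ^ 2 + |b| ^ 2)) + E * (|a| ^ 2 + |b| ^ 2) := by ring
    rw [this, Real.exp_add]
    ring
  set X : ℝ := ‖deriv g A‖ ^ (1 - l) * ‖deriv g B‖ ^ l with hX
  have hX0 : 0 ≤ X := by positivity
  calc X * (‖w - A‖ * ‖w - B‖ / (b - a)) * Real.exp (-(E * N))
      = ‖w - A‖ * ‖w - B‖ / (|a| * |b|) * ((κ / Bd * X) * (Real.exp (-(E * N)) * Bd)) := by
        rw [hκ]; field_simp
    _ ≤ ‖w - A‖ * ‖w - B‖ / (|a| * |b|) * (‖Q w‖ * ‖G w‖) := by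
        rw [e1]
        gcongr

/-- **The inequality between two consecutive zeros.** -/
theorem between (hg : Differentiable ℂ g) (h0 : g 0 ≠ 0) (he : ∀ z, g (-z) = g z) {K : ℝ} (hK : 0 ≤ K)
    (hgr : ∀ w, ‖g w‖ ≤ Real.exp (K * (1 + ‖w‖) ^ (3 / 2 : ℝ)))
    (hz : ∀ w, g w = 0 → w.re = 0 ∧ deriv g w ≠ 0) {a b : ℝ} (hab : a < b) (ha : g (a * I) = 0)
    (hb : g (b * I) = 0) (hn : ∀ x : ℝ, a < x → x < b → g (x * I) ≠ 0) {l : ℝ} (hl0 : 0 ≤ l) (hl1 : l ≤ 1) {w : ℂ}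
    {c : ℝ} (hw : w = c + ((1 - l) * a + l * b) * I) :
    ‖deriv g (a * I)‖ ^ (1 - l) * ‖deriv g (b * I)‖ ^ l * (‖w - a * I‖ * ‖w - b * I‖ / (b - a)) ≤ ‖g w‖ := by
  set X : ℝ := ‖deriv g (a * I)‖ ^ (1 - l) * ‖deriv g (b * I)‖ ^ l * (‖w - a * I‖ * ‖w - b * I‖ / (b - a)) with hX
  set N : ℝ := ‖w‖ ^ 2 + |a| ^ 2 + |b| ^ 2 with hN
  have h1 := er_tendsto K (Real.log ‖g 0‖)
  have h2 : Tendsto (fun n : ℕ => X * Real.exp (-(er K (Real.log ‖g 0‖) ((n : ℝ) + 1) * N))) atTop (𝓝 X) := by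
    have h3 := ((h1.mul_const N).neg.rexp).const_mul X
    simpa using h3
  refine le_of_tendsto h2 ?_
  filter_upwards [tendsto_natCast_atTop_atTop.eventually_ge_atTop (2 * (‖w‖ + |a| + |b|))] with n hn'
  have hw0 := norm_nonneg w
  have ha0 := abs_nonneg a
  have hb0 := abs_nonneg b
  exact between_fin hg h0 he hK hgr hz hab ha hb hn hl0 hl1 hw (R := (n : ℝ) + 1) (by positivity) (by linarith)
    (by linarith) (by linarith)

end Pool.Agent.Helper37.WMC
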