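import Pool.Agent.Helper37.WMC.Far
import Pool.Agent.Helper37.WMH.SmallInc

/-! Titchmarsh's necessary conditions are sufficient. -/

set_option autoImplicit false

open Filter Topology Set MeasureTheory
open scoped ENNReal

namespace Pool.Agent.Helper37.WMC

open Pool.Agent.H295R2 Pool.Agent.Helper37.WMH

noncomputable section

theorem Ab_of_sum (hR : RHS) (hs : Summable (fun ρ : NT => ‖aa ρ‖ ^ 2)) : AbP := by
  intro ε hε
  have hp := Real.pi_pos
  obtain ⟨J, hJ⟩ := far_small hR hs (show 0 < ε / 4 by positivity)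
  set T : ℝ := 2 ^ J with hT
  have hT0 : 0 ≤ T := by positivity
  refine ⟨T, hT0, ?_⟩
  obtain ⟨T', hTT, hg⟩ := gap hT0
  obtain ⟨C, hC0, hC⟩ := near_bound hR hg
  obtain ⟨D, hD0, hD⟩ := QZ_far hT0 hTT
  set G : ℝ → ℝ := fun t => (Icc (-T') T').indicator (fun _ => C ^ 2) t + 2 * D * (1 + t ^ 2)⁻¹ with hG
  have hG0 : ∀ t, 0 ≤ G t := by
    intro t
    have : 0 ≤ (Icc (-T') T').indicator (fun _ => C ^ 2) t := indicator_nonneg (fun _ _ => by positivity) _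
    rw [hG]; positivity
  have hGi : Integrable G := by
    refine Integrable.add ?_ (integrable_inv_one_add_sq.const_mul _)
    rw [integrable_indicator_iff measurableSet_Icc]
    exact integrableOn_const (by simp)
  set CG : ℝ := ∫ t, G t with hCG
  have hCG0 : 0 ≤ CG := integral_nonneg hG0
  set S : Set ℝ := {t : ℝ | (2:ℝ) ^ J ≤ |t|} with hS
  have hSm : MeasurableSet S := measurableSet_le measurable_const continuous_abs.measurable
  -- the pointwise bound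
  have hpt : ∀ c : ℝ, 0 < c → c ≤ 1 / 4 → ∀ t : ℝ, ‖hh (ZT T) ⟨1 / 2 + c, t⟩‖ₑ ^ 2 ≤
      ENNReal.ofReal (G t) + 2 * S.indicator (fun t => ‖HH ⟨1 / 2 + c, t⟩‖ₑ ^ 2) t := by
    intro c hc hc4 t
    have n1 : (1:ℝ) / 2 + c ≠ 1 / 2 := by linarith
    by_cases ht : |t| ≤ T'
    · have h2 := hC ⟨1 / 2 + c, t⟩ (by simp only; linarith) (by simp only; linarith) ht (off_line hR n1 t)
      have h3 : C ^ 2 ≤ G t := by
        rw [hG]
        simp only
        rw [indicator_of_mem (show t ∈ Icc (-T') T' from abs_le.1 ht)]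
        have : 0 ≤ 2 * D * (1 + t ^ 2)⁻¹ := by positivity
        linarith
      refine le_trans ?_ le_self_add
      rw [← ofReal_norm, ← ENNReal.ofReal_pow (norm_nonneg _)]
      apply ENNReal.ofReal_le_ofReal
      have h4 : ‖hh (ZT T) ⟨1 / 2 + c, t⟩‖ ^ 2 ≤ C ^ 2 := by gcongr
      linarith
    · push Not at ht
      have q1 := hD (1 / 2 + c) t ht.le
      have h4 : 2 * D * (1 + t ^ 2)⁻¹ ≤ G t := by
        rw [hG]
        simp only
        have : 0 ≤ (Icc (-T') T').indicator (fun _ => C ^ 2) t := indicator_nonneg (fun _ _ => by positivity) _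
        linarith
      have q2 : D / (1 + t ^ 2) = D * (1 + t ^ 2)⁻¹ := div_eq_mul_inv _ _
      rw [q2] at q1
      have h5 : ‖hh (ZT T) ⟨1 / 2 + c, t⟩‖ ≤ ‖HH ⟨1 / 2 + c, t⟩‖ + ‖QZ (ZT T) ⟨1 / 2 + c, t⟩‖ := by
        unfold hh; exact norm_sub_le _ _
      have h6 : ‖hh (ZT T) ⟨1 / 2 + c, t⟩‖ ^ 2 ≤ G t + 2 * ‖HH ⟨1 / 2 + c, t⟩‖ ^ 2 := by
        have h7 : ‖hh (ZT T) ⟨1 / 2 + c, t⟩‖ ^ 2 ≤ (‖HH ⟨1 / 2 + c, t⟩‖ + ‖QZ (ZT T) ⟨1 / 2 + c, t⟩‖) ^ 2 := by gcongr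
        nlinarith [sq_nonneg (‖HH ⟨1 / 2 + c, t⟩‖ - ‖QZ (ZT T) ⟨1 / 2 + c, t⟩‖)]
      have h7 : t ∈ S := by
        show (2:ℝ) ^ J ≤ |t|
        linarith
      rw [indicator_of_mem h7]
      calc ‖hh (ZT T) ⟨1 / 2 + c, t⟩‖ₑ ^ 2 = ENNReal.ofReal (‖hh (ZT T) ⟨1 / 2 + c, t⟩‖ ^ 2) := by
            rw [← ofReal_norm, ← ENNReal.ofReal_pow (norm_nonneg _)]
        _ ≤ ENNReal.ofReal (G t + 2 * ‖HH ⟨1 / 2 + c, t⟩‖ ^ 2) := ENNReal.ofReal_le_ofReal h6
        _ = ENNReal.ofReal (G t) + 2 * ‖HH ⟨1 / 2 + c, t⟩‖ₑ ^ 2 := by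
            rw [ENNReal.ofReal_add (hG0 t) (by positivity), ENNReal.ofReal_mul (by norm_num), ← ofReal_norm,
              ENNReal.ofReal_pow (norm_nonneg _)]
            norm_num
  set c₀ : ℝ := min (1 / 4) (ε / (2 * (CG + 1))) with hc₀
  refine ⟨c₀, by positivity, fun c hc hcc => ?_⟩
  have hc4 : c ≤ 1 / 4 := hcc.trans (min_le_left _ _)
  have h5 := hcc.trans (min_le_right _ _)
  rw [le_div_iff₀ (by positivity)] at h5
  have hint : ENNReal.ofReal c * ENNReal.ofReal (2 * Real.pi * AM (fun u => m0 u - PZ (ZT T) u) c) ≤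
      ENNReal.ofReal (c * CG + 2 * (ε / 4)) := by
    rw [← hh_line hR ZT_NT hc]
    calc ENNReal.ofReal c * ∫⁻ t : ℝ, ‖hh (ZT T) ⟨1 / 2 + c, t⟩‖ₑ ^ 2
        ≤ ENNReal.ofReal c * ∫⁻ t : ℝ, (ENNReal.ofReal (G t) + 2 * S.indicator (fun t => ‖HH ⟨1 / 2 + c, t⟩‖ₑ ^ 2) t) := by
          gcongr with t
          exact hpt c hc hc4 t
      _ = ENNReal.ofReal c * (ENNReal.ofReal CG + 2 * ∫⁻ t in S, ‖HH ⟨1 / 2 + c, t⟩‖ₑ ^ 2) := by
          rw [lintegral_add_left' hGi.aestronglyMeasurable.aemeasurable.ennreal_ofReal,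
            ← ofReal_integral_eq_lintegral_ofReal hGi (Eventually.of_forall hG0), lintegral_const_mul' _ _ (by norm_num),
            lintegral_indicator hSm]
      _ = ENNReal.ofReal (c * CG) + 2 * (ENNReal.ofReal c * ∫⁻ t in S, ‖HH ⟨1 / 2 + c, t⟩‖ₑ ^ 2) := by
          rw [mul_add, ← ENNReal.ofReal_mul hc.le]; ring
      _ ≤ ENNReal.ofReal (c * CG) + 2 * ENNReal.ofReal (ε / 4) := by
          have := hJ c hc hc4
          exact add_le_add le_rfl (mul_le_mul' le_rfl this)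
      _ = _ := by
          have e2 : (2:ℝ≥0∞) = ENNReal.ofReal 2 := by norm_num
          rw [e2, ← ENNReal.ofReal_mul (by norm_num), ← ENNReal.ofReal_add (by positivity) (by positivity)]
  rw [← ENNReal.ofReal_mul hc.le, ENNReal.ofReal_le_ofReal_iff (by positivity)] at hint
  set X := AM (fun u => m0 u - PZ (ZT T) u) c with hX
  have h6 : c * CG ≤ ε / 2 := by nlinarith
  have h7 : Real.pi * (2 * c * X) ≤ ε := by nlinarith
  have h8 := Real.pi_gt_three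
  by_contra hcon
  push Not at hcon
  nlinarith

/-- Titchmarsh's necessary conditions are sufficient for the asymptotic formula. -/
theorem Asymp_of_sum (hR : RHS) (hs : Summable (fun ρ : NT => ‖aa ρ‖ ^ 2)) : AsympP := by
  classical
  have hA : ∃ A, ∀ ρ ∈ NT, ‖aa ρ‖ ≤ A := by
    refine ⟨_, aa_le_of_sum (C := ∑' ρ : NT, ‖aa ρ‖ ^ 2) fun Z hZ => ?_⟩
    have h1 := hs.sum_le_tsum (Z.subtype (· ∈ NT)) (fun _ _ => by positivity)
    rwa [Finset.sum_subtype_of_mem (fun ρ => ‖aa ρ‖ ^ 2) hZ] at h1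
  obtain ⟨A, hA⟩ := hA
  exact Asymp_of_Win hR (Win_of_Ab hR hA (Ab_of_sum hR hs))

end

end Pool.Agent.Helper37.WMC
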