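import Pool.Agent.Helper37.WMC.Dist

/-! Means and covariances of the normalised Mertens function. -/

set_option autoImplicit false

open MeasureTheory Filter Topology Set
open scoped ENNReal

namespace Pool.Agent.Helper37.WMC

open Pool.Agent.H295R2 Pool.Agent.Helper37.WMH

noncomputable section

/-- the normalised Mertens function -/
def mr (v : ℝ) : ℝ := Mx (Real.exp v) * Real.exp (-(v / 2))

lemma m0_mr (v : ℝ) : m0 v = (mr v : ℂ) := rfl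

lemma mr_meas : Measurable mr := by
  have h := Complex.measurable_re.comp m0_meas
  exact h

lemma PZ_TS (Z : Finset ℂ) : PZ Z ∈ TS := by
  have e : PZ Z = ∑ ρ ∈ Z, aa ρ • (fun v : ℝ => Complex.exp (ρ.im * v * Complex.I)) := by
    funext v
    rw [Finset.sum_apply]
    rfl
  rw [e]
  exact TS.sum_mem fun ρ _ => TS.smul_mem _ (TS_exp _)

lemma ApQ_m0 (h : AsympP) (hR : RHS) : ApQ m0 := by
  intro ε hε
  obtain ⟨Z, _, _, V₀, hV₀⟩ := Asymp_approx h hR hε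
  exact ⟨PZ Z, PZ_TS Z, eventually_atTop.2 ⟨V₀, hV₀⟩⟩

lemma im_ne' (hR : RHS) {ρ : ℂ} (hρ : ρ ∈ NT) : ρ.im ≠ 0 := by
  intro h0
  have h1 : ρ = 1 / 2 + 0 := by
    apply Complex.ext
    · rw [(hR ρ hρ).1]; norm_num
    · rw [h0]; norm_num
  rw [h1] at hρ
  exact gx_zero_ne hR ((gx_zero_iff (by norm_num)).2 hρ)

lemma PZ_shift (Z : Finset ℂ) (τ v : ℝ) : PZ Z (v + τ) =
    ∑ ρ ∈ Z, (aa ρ * Complex.exp (ρ.im * τ * Complex.I)) * Complex.exp (ρ.im * v * Complex.I) := by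
  unfold PZ
  refine Finset.sum_congr rfl fun ρ _ => ?_
  rw [mul_assoc (aa ρ), ← Complex.exp_add]
  congr 2
  push_cast; ring

lemma PZ_mean (hR : RHS) {Z : Finset ℂ} (hZ : ∀ ρ ∈ Z, ρ ∈ NT) (τ : ℝ) : MeanOf (fun v => PZ Z (v + τ)) 0 := by
  have h1 := MeanOf_sum Z (fun ρ v => (aa ρ * Complex.exp (ρ.im * τ * Complex.I)) * Complex.exp (ρ.im * v * Complex.I))
    (fun _ => 0) (fun ρ hρ => by
      have h2 := (MeanOf_exp ρ.im).smul (aa ρ * Complex.exp (ρ.im * τ * Complex.I))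
      rw [if_neg (im_ne' hR (hZ ρ hρ)), mul_zero] at h2
      exact h2) (fun ρ _ => by fun_prop)
  rw [Finset.sum_const_zero] at h1
  have e : (fun v : ℝ => PZ Z (v + τ)) = fun v : ℝ => ∑ ρ ∈ Z, (aa ρ * Complex.exp (ρ.im * τ * Complex.I)) *
      Complex.exp (ρ.im * v * Complex.I) := by
    funext v; exact PZ_shift Z τ v
  rw [e]
  exact h1

theorem mean0 (h : AsympP) (hR : RHS) (τ : ℝ) :
    Tendsto (fun V : ℝ => (∫ v in Ioc 0 V, mr (v + τ)) / V) atTop (𝓝 0) := by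
  have h1 : MeanOf (fun v => m0 (v + τ)) 0 := by
    apply mean_of_approx (tame_shift tame_m0 τ)
    intro ε hε
    obtain ⟨Z, hZ, _, V₀, hV₀⟩ := Asymp_approx h hR (show 0 < ε / 2 by positivity)
    refine ⟨fun v => PZ Z (v + τ), tame_shift (tame_PZ Z) τ, PZ_mean hR hZ τ, ?_⟩
    have := shift_ev (tame_sub tame_m0 (tame_PZ Z)) τ (by positivity) (eventually_atTop.2 ⟨V₀, hV₀⟩)
    filter_upwards [this] with V hV
    refine hV.trans (le_of_eq ?_)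
    ring
  have h2 := (Complex.continuous_re.tendsto 0).comp h1
  rw [Complex.zero_re] at h2
  refine h2.congr fun V => ?_
  simp only [Function.comp, m0_mr]
  rw [integral_complex_ofReal, ← Complex.ofReal_div, Complex.ofReal_re]

/-- the weights -/
def wc (τ σ s : ℝ) (ρ : ℂ) : ℝ := ‖Complex.exp (ρ.im * τ * Complex.I) + s * Complex.exp (ρ.im * σ * Complex.I)‖ ^ 2

lemma wc_nonneg (τ σ s : ℝ) (ρ : ℂ) : 0 ≤ wc τ σ s ρ := by unfold wc; positivity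

lemma norm_e1 (x y : ℝ) : ‖Complex.exp (x * y * Complex.I)‖ = 1 := by
  rw [← Complex.ofReal_mul, Complex.norm_exp_ofReal_mul_I]

lemma wc_le {τ σ s : ℝ} (hs : |s| ≤ 1) (ρ : ℂ) : wc τ σ s ρ ≤ 4 := by
  unfold wc
  have h1 : ‖Complex.exp (ρ.im * τ * Complex.I) + s * Complex.exp (ρ.im * σ * Complex.I)‖ ≤ 2 := by
    refine (norm_add_le _ _).trans ?_
    rw [norm_mul, norm_e1, norm_e1, Complex.norm_real, Real.norm_eq_abs]
    linarith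
  have h0 := norm_nonneg (Complex.exp (ρ.im * τ * Complex.I) + s * Complex.exp (ρ.im * σ * Complex.I))
  nlinarith

lemma wc_diff (τ σ : ℝ) (ρ : ℂ) : wc τ σ 1 ρ - wc τ σ (-1) ρ = 4 * Real.cos (ρ.im * (τ - σ)) := by
  unfold wc
  have e : ∀ x y : ℝ, Complex.exp (x * y * Complex.I) = ⟨Real.cos (x * y), Real.sin (x * y)⟩ := by
    intro x y
    rw [← Complex.ofReal_mul]
    apply Complex.ext
    · rw [Complex.exp_ofReal_mul_I_re]
    · rw [Complex.exp_ofReal_mul_I_im]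
  rw [e, e, ← Complex.normSq_eq_norm_sq, ← Complex.normSq_eq_norm_sq, Complex.normSq_apply, Complex.normSq_apply]
  simp only [Complex.add_re, Complex.mul_re, Complex.ofReal_re, Complex.ofReal_im, Complex.add_im, Complex.mul_im]
  rw [mul_sub, Real.cos_sub]
  ring

lemma tail_w (hs : Summable (fun ρ : NT => ‖aa ρ‖ ^ 2)) {w : ℂ → ℝ} {M ε : ℝ} (hM : 0 ≤ M) (hw : ∀ ρ, 0 ≤ w ρ) (hwM : ∀ ρ, w ρ ≤ M)
    (hε : 0 < ε) {Z : Finset ℂ} (hZ : ∀ ρ ∈ Z, ρ ∈ NT) (hZ1 : (∑' ρ : NT, ‖aa ρ‖ ^ 2) - ε < ∑ ρ ∈ Z, ‖aa ρ‖ ^ 2) :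
    |∑ ρ ∈ Z, ‖aa ρ‖ ^ 2 * w ρ - ∑' ρ : NT, ‖aa ρ‖ ^ 2 * w ρ| ≤ M * ε := by
  classical
  have hsw : Summable (fun ρ : NT => ‖aa ρ‖ ^ 2 * w ρ) := by
    refine Summable.of_nonneg_of_le (fun ρ => mul_nonneg (by positivity) (hw _)) (fun ρ => ?_) (hs.mul_right M)
    exact mul_le_mul_of_nonneg_left (hwM ρ) (by positivity)
  set s : Finset NT := Z.subtype (· ∈ NT) with hsdef
  have e1 : ∀ f : ℂ → ℝ, ∑ ρ ∈ s, f ρ = ∑ ρ ∈ Z, f ρ := by
    intro f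
    rw [hsdef, Finset.sum_subtype_of_mem f hZ]
  have h1 := hsw.sum_add_tsum_compl (s := s)
  have h2 := hs.sum_add_tsum_compl (s := s)
  rw [e1 (fun ρ => ‖aa ρ‖ ^ 2 * w ρ)] at h1
  rw [e1 (fun ρ => ‖aa ρ‖ ^ 2)] at h2
  have h3 : ∑' ρ : ((s : Set NT)ᶜ : Set NT), ‖aa ρ‖ ^ 2 * w ρ ≤ ∑' ρ : ((s : Set NT)ᶜ : Set NT), ‖aa ρ‖ ^ 2 * M := by
    refine Summable.tsum_le_tsum (fun ρ => mul_le_mul_of_nonneg_left (hwM _) (by positivity)) ?_ ?_
    · exact hsw.subtype _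
    · exact (hs.subtype _).mul_right M
  rw [tsum_mul_right] at h3
  have h4 : ∑' ρ : ((s : Set NT)ᶜ : Set NT), ‖aa ρ‖ ^ 2 ≤ ε := by linarith
  have h5 : 0 ≤ ∑' ρ : ((s : Set NT)ᶜ : Set NT), ‖aa ρ‖ ^ 2 * w ρ :=
    tsum_nonneg fun ρ => mul_nonneg (by positivity) (hw _)
  rw [abs_sub_comm, abs_le]
  constructor
  · have : 0 ≤ M * ε := by positivity
    linarith
  · nlinarith

lemma PZ_pair (hR : RHS) {Z : Finset ℂ} (hZ : ∀ ρ ∈ Z, ρ ∈ NT) (τ σ s : ℝ) :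
    (fun v => PZ Z (v + τ) + s * PZ Z (v + σ)) =
      TP (Z.image fun ρ => ρ.im) (fun l => WMH.bb l * (Complex.exp (l * τ * Complex.I) + s * Complex.exp (l * σ * Complex.I))) := by
  funext v
  rw [PZ_shift, PZ_shift]
  unfold TP
  rw [Finset.sum_image (inj_im hR hZ), Finset.mul_sum, ← Finset.sum_add_distrib]
  refine Finset.sum_congr rfl fun ρ hρ => ?_
  simp only [bb_im hR (hZ ρ hρ)]
  ring

lemma sum_pair (hR : RHS) {Z : Finset ℂ} (hZ : ∀ ρ ∈ Z, ρ ∈ NT) (τ σ s : ℝ) :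
    ∑ l ∈ Z.image (fun ρ : ℂ => ρ.im), ‖WMH.bb l * (Complex.exp (l * τ * Complex.I) + s * Complex.exp (l * σ * Complex.I))‖ ^ 2 =
      ∑ ρ ∈ Z, ‖aa ρ‖ ^ 2 * wc τ σ s ρ := by
  rw [Finset.sum_image (inj_im hR hZ)]
  refine Finset.sum_congr rfl fun ρ hρ => ?_
  rw [bb_im hR (hZ ρ hρ), norm_mul, mul_pow]
  rfl

lemma tend_of_TP {f : ℝ → ℂ} {S K : ℝ} (h : ∀ V : ℝ, 0 ≤ V → |(∫ u in Ioc 0 V, ‖f u‖ ^ 2) - S * V| ≤ K) :
    Tendsto (fun V : ℝ => (∫ v in Ioc 0 V, ‖f v‖ ^ 2) / V) atTop (𝓝 S) := by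
  have hK : Tendsto (fun V : ℝ => K / V) atTop (𝓝 0) := tendsto_const_nhds.div_atTop tendsto_id
  rw [tendsto_iff_norm_sub_tendsto_zero]
  refine squeeze_zero' (Eventually.of_forall fun _ => norm_nonneg _) ?_ hK
  filter_upwards [eventually_gt_atTop 0] with V hV
  have h1 := h V hV.le
  rw [Real.norm_eq_abs, le_div_iff₀ hV]
  have e : (∫ v in Ioc 0 V, ‖f v‖ ^ 2) - S * V = ((∫ v in Ioc 0 V, ‖f v‖ ^ 2) / V - S) * V := by
    field_simp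
  rwa [e, abs_mul, abs_of_pos hV] at h1

theorem msq_pair (h : AsympP) (hR : RHS) (τ σ : ℝ) {s : ℝ} (hs : |s| ≤ 1) :
    Tendsto (fun V : ℝ => (∫ v in Ioc 0 V, ‖m0 (v + τ) + s * m0 (v + σ)‖ ^ 2) / V) atTop
      (𝓝 (∑' ρ : NT, ‖aa ρ‖ ^ 2 * wc τ σ s ρ)) := by
  have tm := tame_m0
  refine msq_of_approx (tsum_nonneg fun ρ => mul_nonneg (by positivity) (wc_nonneg _ _ _ _))
    ((tame_shift tm τ).add ((tame_shift tm σ).const_mul _)) fun ε hε => ?_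
  obtain ⟨Z, hZ, hZ1, V₀, hV₀⟩ := Asymp_approx h hR (show 0 < ε / 8 by positivity)
  have tP := tame_PZ Z
  refine ⟨fun v => PZ Z (v + τ) + s * PZ Z (v + σ), ∑ ρ ∈ Z, ‖aa ρ‖ ^ 2 * wc τ σ s ρ,
    (tame_shift tP τ).add ((tame_shift tP σ).const_mul _), ?_, ?_, ?_⟩
  · have := tail_w h.1 (w := wc τ σ s) (M := 4) (by norm_num) (wc_nonneg _ _ _) (wc_le hs) (by positivity) hZ hZ1
    linarith
  · obtain ⟨K, hK, hTP⟩ := TP_mean2 (Z.image fun ρ => ρ.im)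
      (fun l => WMH.bb l * (Complex.exp (l * τ * Complex.I) + s * Complex.exp (l * σ * Complex.I)))
    rw [← PZ_pair hR hZ, sum_pair hR hZ] at hTP
    exact tend_of_TP hTP
  · have tr := tame_sub tm tP
    have h1 := shift_ev tr τ (show 0 < ε / 8 by positivity) (eventually_atTop.2 ⟨V₀, hV₀⟩)
    have h2 := shift_ev tr σ (show 0 < ε / 8 by positivity) (eventually_atTop.2 ⟨V₀, hV₀⟩)
    filter_upwards [h1, h2, eventually_gt_atTop 0] with V a b hV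
    have h3 := int_add_le (tame_shift tr τ) ((tame_shift tr σ).const_mul s) V
    have e1 : ∀ v, m0 (v + τ) + s * m0 (v + σ) - (PZ Z (v + τ) + s * PZ Z (v + σ)) =
        (m0 (v + τ) - PZ Z (v + τ)) + s * (m0 (v + σ) - PZ Z (v + σ)) := by intro v; ring
    simp_rw [e1]
    have e2 : ∫ v in Ioc 0 V, ‖(s : ℂ) * (m0 (v + σ) - PZ Z (v + σ))‖ ^ 2 ≤ ∫ v in Ioc 0 V, ‖m0 (v + σ) - PZ Z (v + σ)‖ ^ 2 := by
      refine setIntegral_mono_on (tame_sq_iOn ((tame_shift tr σ).const_mul s) V) (tame_sq_iOn (tame_shift tr σ) V)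
        measurableSet_Ioc fun v _ => ?_
      rw [norm_mul, mul_pow, Complex.norm_real, Real.norm_eq_abs]
      have : |s| ^ 2 ≤ 1 := by
        rw [sq_le_one_iff_abs_le_one, abs_abs]; exact hs
      nlinarith [sq_nonneg ‖m0 (v + σ) - PZ Z (v + σ)‖]
    linarith

theorem cov (h : AsympP) (hR : RHS) (τ σ : ℝ) :
    HasSum (fun ρ : NT => Real.cos ((ρ : ℂ).im * (τ - σ)) * ‖aa ρ‖ ^ 2) (∑' ρ : NT, Real.cos ((ρ : ℂ).im * (τ - σ)) * ‖aa ρ‖ ^ 2) ∧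
    Tendsto (fun V : ℝ => (∫ v in Ioc 0 V, mr (v + τ) * mr (v + σ)) / V) atTop
      (𝓝 (∑' ρ : NT, Real.cos ((ρ : ℂ).im * (τ - σ)) * ‖aa ρ‖ ^ 2)) := by
  have hsum : ∀ s : ℝ, |s| ≤ 1 → Summable (fun ρ : NT => ‖aa ρ‖ ^ 2 * wc τ σ s ρ) := by
    intro s hs
    refine Summable.of_nonneg_of_le (fun ρ => mul_nonneg (by positivity) (wc_nonneg _ _ _ _)) (fun ρ => ?_) (h.1.mul_right 4)
    exact mul_le_mul_of_nonneg_left (wc_le hs ρ) (by positivity)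
  have s1 := hsum 1 (by norm_num)
  have s2 := hsum (-1) (by norm_num)
  have e0 : ∀ ρ : NT, ‖aa ρ‖ ^ 2 * wc τ σ 1 ρ - ‖aa ρ‖ ^ 2 * wc τ σ (-1) ρ =
      4 * (Real.cos ((ρ : ℂ).im * (τ - σ)) * ‖aa ρ‖ ^ 2) := by
    intro ρ
    rw [← mul_sub, wc_diff]; ring
  have s3 := s1.sub s2
  have s4 : Summable (fun ρ : NT => Real.cos ((ρ : ℂ).im * (τ - σ)) * ‖aa ρ‖ ^ 2) := by
    have := s3.mul_left (1 / 4)
    refine this.congr fun ρ => ?_
    rw [e0]; ring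
  refine ⟨s4.hasSum, ?_⟩
  have l1 := msq_pair h hR τ σ (s := 1) (by norm_num)
  have l2 := msq_pair h hR τ σ (s := -1) (by norm_num)
  have l3 := (l1.sub l2).div_const 4
  rw [← s1.tsum_sub s2] at l3
  simp_rw [e0] at l3
  rw [tsum_mul_left, mul_div_cancel_left₀ _ (by norm_num : (4:ℝ) ≠ 0)] at l3
  refine l3.congr fun V => ?_
  have i1 := tame_sq_iOn ((tame_shift tame_m0 τ).add ((tame_shift tame_m0 σ).const_mul ((1:ℝ):ℂ))) V
  have i2 := tame_sq_iOn ((tame_shift tame_m0 τ).add ((tame_shift tame_m0 σ).const_mul ((-1:ℝ):ℂ))) V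
  rw [← sub_div, ← integral_sub i1 i2, div_div, mul_comm V 4, ← div_div, ← integral_div]
  congr 1
  refine integral_congr_ae (Eventually.of_forall fun v => ?_)
  simp only [m0_mr]
  rw [← Complex.ofReal_mul, ← Complex.ofReal_mul, ← Complex.ofReal_add, ← Complex.ofReal_add, Complex.norm_real,
    Complex.norm_real, Real.norm_eq_abs, Real.norm_eq_abs, sq_abs, sq_abs]
  ring

lemma S_pos (hR : RHS) (hs : Summable (fun ρ : NT => ‖aa ρ‖ ^ 2)) : 0 < ∑' ρ : NT, ‖aa ρ‖ ^ 2 := by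
  obtain ⟨T₁, _, h⟩ := exists_dyadic
  obtain ⟨ρ, hρ, _⟩ := h T₁ le_rfl
  refine hs.tsum_pos (fun _ => by positivity) ⟨ρ, hρ⟩ ?_
  have h1 : aa ρ ≠ 0 := by
    unfold aa
    exact one_div_ne_zero (mul_ne_zero (NT_im_ne hρ).1 (hR ρ hρ).2)
  have := norm_pos_iff.2 h1
  positivity

end

end Pool.Agent.Helper37.WMC
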