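import Pool.Agent.Helper37.WMC.Law
import Pool.Agent.Helper37.WMH.DLim

/-! Functions approximable in square mean by trigonometric polynomials. -/

set_option autoImplicit false

open MeasureTheory Filter Topology Set
open scoped ENNReal

namespace Pool.Agent.Helper37.WMC

open Pool.Agent.H295R2 Pool.Agent.Helper37.WMH

noncomputable section

/-- approximable in square mean by trigonometric polynomials -/
def ApQ (g : ℝ → ℂ) : Prop := ∀ ε : ℝ, 0 < ε → ∃ P ∈ TS, ∀ᶠ V : ℝ in atTop, ∫ v in Ioc 0 V, ‖g v - P v‖ ^ 2 ≤ ε * V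

lemma TS_tame {P : ℝ → ℂ} (hP : P ∈ TS) : Tame P := by
  obtain ⟨C, hC, hb⟩ := TS_bdd hP
  refine ⟨(TS_cont hP).measurable, C + 1, by positivity, fun v => (hb v).trans ?_⟩
  have := Real.one_le_exp (abs_nonneg v)
  nlinarith

lemma norm_add_sq_le' (a b : ℂ) : ‖a + b‖ ^ 2 ≤ 2 * ‖a‖ ^ 2 + 2 * ‖b‖ ^ 2 := by
  have h1 := norm_add_le a b
  have h2 : ‖a + b‖ ^ 2 ≤ (‖a‖ + ‖b‖) ^ 2 := by gcongr
  nlinarith [sq_nonneg (‖a‖ - ‖b‖)]

lemma int_add_le {f g : ℝ → ℂ} (tf : Tame f) (tg : Tame g) (V : ℝ) :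
    ∫ v in Ioc 0 V, ‖f v + g v‖ ^ 2 ≤ 2 * (∫ v in Ioc 0 V, ‖f v‖ ^ 2) + 2 * ∫ v in Ioc 0 V, ‖g v‖ ^ 2 := by
  rw [← integral_const_mul, ← integral_const_mul, ← integral_add ((tame_sq_iOn tf V).const_mul _)
    ((tame_sq_iOn tg V).const_mul _)]
  exact setIntegral_mono_on (tame_sq_iOn (tf.add tg) V) (((tame_sq_iOn tf V).const_mul _).add
    ((tame_sq_iOn tg V).const_mul _)) measurableSet_Ioc fun v _ => norm_add_sq_le' _ _

lemma ApQ.add {f g : ℝ → ℂ} (tf : Tame f) (tg : Tame g) (hf : ApQ f) (hg : ApQ g) : ApQ (fun v => f v + g v) := by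
  intro ε hε
  obtain ⟨P, hP, h1⟩ := hf (ε / 4) (by positivity)
  obtain ⟨Q, hQ, h2⟩ := hg (ε / 4) (by positivity)
  refine ⟨P + Q, TS.add_mem hP hQ, ?_⟩
  filter_upwards [h1, h2] with V a b
  have h3 := int_add_le (tame_sub tf (TS_tame hP)) (tame_sub tg (TS_tame hQ)) V
  have e : ∀ v, f v + g v - (P + Q) v = (f v - P v) + (g v - Q v) := by
    intro v; simp only [Pi.add_apply]; ring
  simp_rw [e]
  linarith

lemma ApQ.const_mul {f : ℝ → ℂ} (hf : ApQ f) (c : ℂ) : ApQ (fun v => c * f v) := by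
  intro ε hε
  obtain ⟨P, hP, h1⟩ := hf (ε / (‖c‖ ^ 2 + 1)) (by positivity)
  refine ⟨c • P, TS.smul_mem _ hP, ?_⟩
  filter_upwards [h1, eventually_gt_atTop 0] with V a hV
  have e : ∀ v, ‖c * f v - (c • P) v‖ ^ 2 = ‖c‖ ^ 2 * ‖f v - P v‖ ^ 2 := by
    intro v
    simp only [Pi.smul_apply, smul_eq_mul]
    rw [← mul_sub, norm_mul, mul_pow]
  simp_rw [e]
  rw [integral_const_mul]
  calc ‖c‖ ^ 2 * ∫ v in Ioc 0 V, ‖f v - P v‖ ^ 2 ≤ ‖c‖ ^ 2 * (ε / (‖c‖ ^ 2 + 1) * V) := by gcongr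
    _ = ε * V * (‖c‖ ^ 2 / (‖c‖ ^ 2 + 1)) := by ring
    _ ≤ ε * V * 1 := by
      gcongr
      rw [div_le_one (by positivity)]
      linarith
    _ = ε * V := mul_one _

lemma ApQ_zero : ApQ (fun _ => 0) := by
  intro ε hε
  refine ⟨0, TS.zero_mem, ?_⟩
  filter_upwards [eventually_ge_atTop 0] with V hV
  simp only [Pi.zero_apply, sub_zero, norm_zero, ne_eq, OfNat.ofNat_ne_zero, not_false_eq_true, zero_pow,
    integral_zero]
  positivity

lemma tame_zero : Tame (fun _ => 0) := by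
  refine ⟨measurable_const, 1, one_pos, fun v => ?_⟩
  rw [norm_zero]; positivity

lemma ApQ_sum {ι : Type*} (s : Finset ι) (f : ι → ℝ → ℂ) (tf : ∀ i, Tame (f i)) (hf : ∀ i, ApQ (f i)) :
    Tame (fun v => ∑ i ∈ s, f i v) ∧ ApQ (fun v => ∑ i ∈ s, f i v) := by
  classical
  induction s using Finset.induction_on with
  | empty => simp only [Finset.sum_empty]; exact ⟨tame_zero, ApQ_zero⟩
  | insert i s hi ih =>
    simp only [Finset.sum_insert hi]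
    exact ⟨(tf i).add ih.1, (hf i).add (tf i) ih.1 ih.2⟩

lemma tame_sq_iOn' {h : ℝ → ℂ} (hh : Tame h) (a b : ℝ) : IntegrableOn (fun v : ℝ => ‖h v‖ ^ 2) (Ioc a b) := by
  obtain ⟨C, hC, hb⟩ := hh.bound
  refine Integrable.mono' (g := fun _ => (C * Real.exp (|a| + |b|)) ^ 2) (integrableOn_const (by simp))
    (hh.meas.norm.pow_const 2).aestronglyMeasurable ?_
  filter_upwards [ae_restrict_mem measurableSet_Ioc] with v hv
  rw [Real.norm_of_nonneg (by positivity)]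
  have h1 := hb v
  have h2 : |v| ≤ |a| + |b| := by
    rw [abs_le]
    constructor
    · have := neg_abs_le a
      have := abs_nonneg b
      linarith [hv.1]
    · have := le_abs_self b
      have := abs_nonneg a
      linarith [hv.2]
  have h3 : ‖h v‖ ≤ C * Real.exp (|a| + |b|) := h1.trans (by gcongr)
  gcongr

lemma shift_le {g : ℝ → ℂ} (tg : Tame g) (τ : ℝ) : ∃ K : ℝ, 0 ≤ K ∧ ∀ V, 0 ≤ V →
    ∫ v in Ioc 0 V, ‖g (v + τ)‖ ^ 2 ≤ K + ∫ v in Ioc 0 (V + |τ|), ‖g v‖ ^ 2 := by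
  refine ⟨∫ v in Ioc (-|τ|) 0, ‖g v‖ ^ 2, integral_nonneg fun _ => by positivity, fun V hV => ?_⟩
  have h0 := abs_nonneg τ
  rw [shift_int τ V g]
  rw [← setIntegral_union (Ioc_disjoint_Ioc_of_le le_rfl) measurableSet_Ioc (tame_sq_iOn' tg _ _) (tame_sq_iOn' tg _ _),
    Ioc_union_Ioc_eq_Ioc (by linarith) (by linarith)]
  apply setIntegral_mono_set (tame_sq_iOn' tg _ _) (Eventually.of_forall fun _ => by positivity)
  apply LE.le.eventuallyLE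
  apply Ioc_subset_Ioc
  · exact neg_abs_le τ
  · linarith [le_abs_self τ]

lemma shift_ev {g : ℝ → ℂ} (tg : Tame g) (τ : ℝ) {ε : ℝ} (hε : 0 < ε)
    (h : ∀ᶠ V : ℝ in atTop, ∫ v in Ioc 0 V, ‖g v‖ ^ 2 ≤ ε * V) :
    ∀ᶠ V : ℝ in atTop, ∫ v in Ioc 0 V, ‖g (v + τ)‖ ^ 2 ≤ 2 * ε * V := by
  obtain ⟨K, hK, hs⟩ := shift_le tg τ
  have h2 := (tendsto_atTop_add_const_right atTop |τ| tendsto_id).eventually h
  filter_upwards [h2, eventually_ge_atTop ((K + ε * |τ|) / ε), eventually_ge_atTop 0] with V a b hV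
  rw [div_le_iff₀ hε] at b
  refine (hs V hV).trans ?_
  simp only [id] at a
  nlinarith

lemma ApQ.shift {f : ℝ → ℂ} (tf : Tame f) (hf : ApQ f) (τ : ℝ) : ApQ (fun v => f (v + τ)) := by
  intro ε hε
  obtain ⟨P, hP, h1⟩ := hf (ε / 2) (by positivity)
  refine ⟨fun v => P (v + τ), TS_shift hP τ, ?_⟩
  have := shift_ev (tame_sub tf (TS_tame hP)) τ (by positivity) h1
  filter_upwards [this] with V hV
  refine hV.trans (le_of_eq ?_)
  ring

lemma tame_iOn {h : ℝ → ℂ} (hh : Tame h) (V : ℝ) : IntegrableOn h (Ioc 0 V) := by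
  have i1 : IntegrableOn (fun _ : ℝ => (1:ℝ)) (Ioc 0 V) := integrableOn_const (by simp)
  have i2 : IntegrableOn (fun v : ℝ => 1 + ‖h v‖ ^ 2) (Ioc 0 V) := Integrable.add i1 (tame_sq_iOn hh V)
  refine Integrable.mono' i2 hh.meas.aestronglyMeasurable (Eventually.of_forall fun v => ?_)
  nlinarith [sq_nonneg (‖h v‖ - 1), norm_nonneg (h v)]

lemma L1_of_L2 {r : ℝ → ℂ} (tr : Tame r) {ε V : ℝ} (hε : 0 < ε) (hV : 0 < V)
    (h : ∫ v in Ioc 0 V, ‖r v‖ ^ 2 ≤ ε ^ 2 * V) : ∫ v in Ioc 0 V, ‖r v‖ ≤ ε * V := by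
  have i2 := (tame_sq_iOn tr V).const_mul (1 / (2 * ε))
  have i1 : IntegrableOn (fun _ : ℝ => ε / 2) (Ioc 0 V) := integrableOn_const (by simp)
  calc ∫ v in Ioc 0 V, ‖r v‖ ≤ ∫ v in Ioc 0 V, (ε / 2 + 1 / (2 * ε) * ‖r v‖ ^ 2) := by
        refine setIntegral_mono_on (tame_iOn tr V).norm (i1.add i2) measurableSet_Ioc fun v _ => ?_
        have h1 := sq_nonneg (‖r v‖ - ε)
        have e : ε / 2 + 1 / (2 * ε) * ‖r v‖ ^ 2 = (ε ^ 2 + ‖r v‖ ^ 2) / (2 * ε) := by field_simp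
        rw [e, le_div_iff₀ (by positivity)]
        nlinarith
    _ = ε / 2 * V + 1 / (2 * ε) * ∫ v in Ioc 0 V, ‖r v‖ ^ 2 := by
        rw [integral_add i1 i2, setIntegral_const, Real.volume_real_Ioc_of_le hV.le, sub_zero, smul_eq_mul,
          integral_const_mul]
        ring
    _ ≤ ε / 2 * V + 1 / (2 * ε) * (ε ^ 2 * V) := by gcongr
    _ = ε * V := by field_simp; ring

lemma mean_of_approx {g : ℝ → ℂ} {z : ℂ} (tg : Tame g) (h : ∀ ε : ℝ, 0 < ε → ∃ P : ℝ → ℂ, Tame P ∧ MeanOf P z ∧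
    ∀ᶠ V : ℝ in atTop, ∫ v in Ioc 0 V, ‖g v - P v‖ ^ 2 ≤ ε * V) : MeanOf g z := by
  rw [MeanOf, Metric.tendsto_nhds]
  intro ε hε
  obtain ⟨P, tP, hm, hP⟩ := h ((ε / 2) ^ 2) (by positivity)
  rw [MeanOf, Metric.tendsto_nhds] at hm
  filter_upwards [hP, hm (ε / 2) (by positivity), eventually_gt_atTop 0] with V a b hV
  have h1 := L1_of_L2 (tame_sub tg tP) (by positivity) hV a
  rw [dist_eq_norm] at b ⊢
  have e : (∫ v in Ioc 0 V, g v) / (V : ℂ) - z = (∫ v in Ioc 0 V, (g v - P v)) / V + ((∫ v in Ioc 0 V, P v) / V - z) := by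
    rw [integral_sub (tame_iOn tg V) (tame_iOn tP V)]; ring
  rw [e]
  refine (norm_add_le _ _).trans_lt ?_
  have h2 : ‖(∫ v in Ioc 0 V, (g v - P v)) / (V : ℂ)‖ ≤ ε / 2 := by
    rw [norm_div, Complex.norm_real, Real.norm_of_nonneg hV.le, div_le_iff₀ hV]
    exact (norm_integral_le_integral_norm _).trans h1
  linarith

/-- the characteristic function of a real function has a mean -/
lemma ApQ_cexp {g : ℝ → ℝ} (tg : Tame (fun v => (g v : ℂ))) (hg : ApQ (fun v => (g v : ℂ))) :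
    ∃ z, MeanOf (fun v => Complex.exp ((g v : ℂ) * Complex.I)) z := by
  apply tendsto_of_approx
  intro ε hε
  obtain ⟨P, hP, h1⟩ := hg (ε ^ 2) (by positivity)
  set Q : ℝ → ℂ := (1 / 2 : ℂ) • (P + fun v => (starRingEnd ℂ) (P v)) with hQ
  have hQT : Q ∈ TS := TS.smul_mem _ (TS.add_mem hP (TS_conj hP))
  have hQv : ∀ v, Q v = (((P v).re : ℝ) : ℂ) := by
    intro v
    rw [hQ, Pi.smul_apply, Pi.add_apply, smul_eq_mul, Complex.add_conj]
    push_cast; ring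
  have hQI : Complex.I • Q ∈ TS := TS.smul_mem _ hQT
  refine ⟨fun V => (∫ v in Ioc 0 V, Complex.exp ((Complex.I • Q) v)) / V, TS_cexp_mean hQI, ?_⟩
  filter_upwards [h1, eventually_gt_atTop 0] with V a hV
  have tr := tame_sub tg (TS_tame hP)
  have h2 := L1_of_L2 tr hε hV a
  have c1 : Continuous fun v => Complex.exp ((Complex.I • Q) v) := Complex.continuous_exp.comp (TS_cont hQI)
  have m1 : Measurable (fun v => Complex.exp ((g v : ℂ) * Complex.I)) := (tg.meas.mul_const _).cexp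
  have i1 : IntegrableOn (fun v => Complex.exp ((g v : ℂ) * Complex.I)) (Ioc 0 V) := by
    refine Integrable.mono' (g := fun _ => (1:ℝ)) (integrableOn_const (by simp)) m1.aestronglyMeasurable ?_
    exact Eventually.of_forall fun v => by rw [Complex.norm_exp_ofReal_mul_I]
  rw [← sub_div, ← integral_sub i1 (cont_iOn' c1 V), norm_div, Complex.norm_real, Real.norm_of_nonneg hV.le,
    div_le_iff₀ hV]
  refine le_trans (norm_integral_le_of_norm_le (tame_iOn tr V).norm (Eventually.of_forall fun v => ?_)) h2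
  have e1 : (Complex.I • Q) v = (((P v).re : ℝ) : ℂ) * Complex.I := by
    rw [Pi.smul_apply, smul_eq_mul, hQv, mul_comm]
  rw [e1]
  have e2 : Complex.exp ((g v : ℂ) * Complex.I) - Complex.exp ((((P v).re : ℝ) : ℂ) * Complex.I) =
      Complex.exp ((((P v).re : ℝ) : ℂ) * Complex.I) * (Complex.exp (((g v - (P v).re : ℝ) : ℂ) * Complex.I) - 1) := by
    rw [mul_sub, mul_one, ← Complex.exp_add]
    congr 2
    push_cast; ring
  rw [e2, norm_mul, Complex.norm_exp_ofReal_mul_I, one_mul]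
  have h3 : ‖Complex.exp (((g v - (P v).re : ℝ) : ℂ) * Complex.I) - 1‖ ≤ |g v - (P v).re| := by
    rw [mul_comm]; exact Real.norm_exp_I_mul_ofReal_sub_one_le
  refine h3.trans ?_
  have h4 := Complex.abs_re_le_norm ((g v : ℂ) - P v)
  rwa [Complex.sub_re, Complex.ofReal_re] at h4

lemma quad_le (a b : ℂ) {η : ℝ} (hη : 0 < η) : ‖a‖ ^ 2 ≤ (1 + η) * ‖b‖ ^ 2 + (1 + 1 / η) * ‖a - b‖ ^ 2 := by
  have h1 : ‖a‖ ≤ ‖b‖ + ‖a - b‖ := by
    have := norm_add_le b (a - b)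
    rwa [add_sub_cancel] at this
  have h2 : ‖a‖ ^ 2 ≤ (‖b‖ + ‖a - b‖) ^ 2 := by gcongr
  have h3 : 2 * (‖b‖ * ‖a - b‖) ≤ η * ‖b‖ ^ 2 + 1 / η * ‖a - b‖ ^ 2 := by
    have h4 := sq_nonneg (η * ‖b‖ - ‖a - b‖)
    have e : η * ‖b‖ ^ 2 + 1 / η * ‖a - b‖ ^ 2 = ((η * ‖b‖) ^ 2 + ‖a - b‖ ^ 2) / η := by field_simp
    rw [e, le_div_iff₀ hη]
    nlinarith
  nlinarith

lemma int_quad_le {f g : ℝ → ℂ} (tf : Tame f) (tg : Tame g) {η : ℝ} (hη : 0 < η) (V : ℝ) :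
    ∫ v in Ioc 0 V, ‖f v‖ ^ 2 ≤ (1 + η) * (∫ v in Ioc 0 V, ‖g v‖ ^ 2) + (1 + 1 / η) * ∫ v in Ioc 0 V, ‖f v - g v‖ ^ 2 := by
  have i1 := (tame_sq_iOn tg V).const_mul (1 + η)
  have i2 := (tame_sq_iOn (tame_sub tf tg) V).const_mul (1 + 1 / η)
  rw [← integral_const_mul, ← integral_const_mul, ← integral_add i1 i2]
  exact setIntegral_mono_on (tame_sq_iOn tf V) (i1.add i2) measurableSet_Ioc fun v _ => quad_le _ _ hη

lemma msq_of_approx {g : ℝ → ℂ} {S : ℝ} (hS : 0 ≤ S) (tg : Tame g) (h : ∀ ε : ℝ, 0 < ε → ∃ (P : ℝ → ℂ) (s : ℝ),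
    Tame P ∧ |s - S| ≤ ε ∧ Tendsto (fun V : ℝ => (∫ v in Ioc 0 V, ‖P v‖ ^ 2) / V) atTop (𝓝 s) ∧
    ∀ᶠ V : ℝ in atTop, ∫ v in Ioc 0 V, ‖g v - P v‖ ^ 2 ≤ ε * V) :
    Tendsto (fun V : ℝ => (∫ v in Ioc 0 V, ‖g v‖ ^ 2) / V) atTop (𝓝 S) := by
  refine squeeze_quad hS fun η hη => ?_
  set ε : ℝ := min (η / 2) (η / (1 + 1 / η)) with hε
  have hε0 : 0 < ε := by positivity
  obtain ⟨P, s, tP, hs, hl, hP⟩ := h ε hε0
  refine ⟨fun V => (∫ v in Ioc 0 V, ‖P v‖ ^ 2) / V, ?_⟩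
  rw [Metric.tendsto_nhds] at hl
  filter_upwards [hP, hl (η / 2) (by positivity), eventually_gt_atTop 0] with V a b hV
  have h1 : ε ≤ η / 2 := min_le_left _ _
  have h2 : (1 + 1 / η) * ε ≤ η := by
    have := min_le_right (η / 2) (η / (1 + 1 / η))
    rw [← hε, le_div_iff₀ (by positivity)] at this
    linarith
  have h3 : (1 + 1 / η) * (∫ v in Ioc 0 V, ‖g v - P v‖ ^ 2) ≤ η * V := by
    calc (1 + 1 / η) * (∫ v in Ioc 0 V, ‖g v - P v‖ ^ 2) ≤ (1 + 1 / η) * (ε * V) := by gcongr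
      _ = ((1 + 1 / η) * ε) * V := by ring
      _ ≤ η * V := by gcongr
  have h4 := int_quad_le tg tP hη V
  have h5 := int_quad_le tP tg hη V
  have h6 : ∫ v in Ioc 0 V, ‖P v - g v‖ ^ 2 = ∫ v in Ioc 0 V, ‖g v - P v‖ ^ 2 := by
    simp_rw [norm_sub_rev]
  rw [h6] at h5
  rw [Real.dist_eq] at b
  refine ⟨?_, ?_, ?_⟩
  · have := abs_add_le ((∫ v in Ioc 0 V, ‖P v‖ ^ 2) / V - s) (s - S)
    rw [sub_add_sub_cancel] at this
    linarith
  · have e : (1 + η) * ((∫ v in Ioc 0 V, ‖P v‖ ^ 2) / V) + η = ((1 + η) * (∫ v in Ioc 0 V, ‖P v‖ ^ 2) + η * V) / V := by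
      field_simp
    rw [e]
    gcongr
    linarith
  · have e : (1 + η) * ((∫ v in Ioc 0 V, ‖g v‖ ^ 2) / V) + η = ((1 + η) * (∫ v in Ioc 0 V, ‖g v‖ ^ 2) + η * V) / V := by
      field_simp
    rw [e]
    gcongr
    linarith

lemma MeanOf_sum {ι : Type*} (s : Finset ι) (f : ι → ℝ → ℂ) (z : ι → ℂ) (h : ∀ i ∈ s, MeanOf (f i) (z i))
    (c : ∀ i ∈ s, Continuous (f i)) : MeanOf (fun v => ∑ i ∈ s, f i v) (∑ i ∈ s, z i) := by
  have h1 := tendsto_finsetSum s h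
  refine h1.congr fun V => ?_
  rw [integral_finsetSum s fun i hi => cont_iOn' (c i hi) V, Finset.sum_div]

end

end Pool.Agent.Helper37.WMC
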