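import Mathlib

/-! Even functions without zeros in a disc are nearly constant near the centre. -/

set_option autoImplicit false

open Filter Topology Set Complex Metric

namespace Pool.Agent.Helper37.WMC

/-- an even function without zeros in a disc and of bounded modulus -/
theorem even_log_bound {F : ℂ → ℂ} (hF : Differentiable ℂ F) (he : ∀ z, F (-z) = F z) {ρ M : ℝ} (hρ : 0 < ρ)
    (hnz : ∀ u ∈ ball (0 : ℂ) ρ, F u ≠ 0) (hb : ∀ w ∈ ball (0 : ℂ) ρ, ‖F w‖ ≤ Real.exp M) {w : ℂ}
    (hw : ‖w‖ ≤ ρ / 2) :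
    |Real.log ‖F w‖ - Real.log ‖F 0‖| ≤ 8 * (M - Real.log ‖F 0‖) / ρ ^ 2 * ‖w‖ ^ 2 := by
  have h0 : F 0 ≠ 0 := hnz 0 (mem_ball_self hρ)
  have h0n : 0 < ‖F 0‖ := norm_pos_iff.2 h0
  have hg : DifferentiableOn ℂ (fun z => deriv F z / F z) (ball 0 ρ) := by
    refine DifferentiableOn.div ?_ hF.differentiableOn hnz
    exact (hF.contDiff (n := 2)).differentiable_deriv_two.differentiableOn
  obtain ⟨L0, hL0⟩ := hg.isExactOn_ball
  set L : ℂ → ℂ := fun z => L0 z - L0 0 with hLdef
  have hL : ∀ z ∈ ball (0 : ℂ) ρ, HasDerivAt L (deriv F z / F z) z := fun z hz =>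
    (hL0 z hz).sub_const _
  have hLz : L 0 = 0 := by simp [hLdef]
  have hconst : ∀ z ∈ ball (0 : ℂ) ρ, F z * cexp (-L z) = F 0 := by
    intro z hz
    have hd : ∀ x ∈ ball (0 : ℂ) ρ, HasDerivAt (fun y => F y * cexp (-L y)) 0 x := by
      intro x hx
      have h1 := (hF x).hasDerivAt.mul ((hL x hx).neg.cexp)
      have e : deriv F x * cexp (-L x) + F x * (cexp (-L x) * -(deriv F x / F x)) = 0 := by
        have hx' := hnz x hx
        field_simp
        ring
      have h1' : HasDerivAt (fun y => F y * cexp (-L y))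
        (deriv F x * cexp (-L x) + F x * (cexp (-L x) * -(deriv F x / F x))) x := h1
      rwa [e] at h1'
    have h2 := (convex_ball (0 : ℂ) ρ).is_const_of_fderivWithin_eq_zero (𝕜 := ℂ)
      (f := fun y => F y * cexp (-L y))
      (fun x hx => (hd x hx).differentiableAt.differentiableWithinAt) (by
        intro x hx
        rw [((hd x hx).hasFDerivAt.hasFDerivWithinAt (s := ball (0 : ℂ) ρ)).fderivWithin
          (isOpen_ball.uniqueDiffWithinAt hx)]
        ext
        simp) hz (mem_ball_self hρ)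
    simpa [hLz] using h2
  have hFL : ∀ z ∈ ball (0 : ℂ) ρ, F z = F 0 * cexp (L z) := by
    intro z hz
    rw [← hconst z hz, mul_assoc, ← Complex.exp_add]
    simp
  have hnorm : ∀ z ∈ ball (0 : ℂ) ρ, ‖F z‖ = Real.exp (Real.log ‖F 0‖ + (L z).re) := by
    intro z hz
    rw [hFL z hz, norm_mul, Complex.norm_exp, Real.exp_add, Real.exp_log h0n]
  set A : ℝ := M - Real.log ‖F 0‖ with hA
  have hre : ∀ z ∈ ball (0 : ℂ) ρ, (L z).re ≤ A := by
    intro z hz
    have h1 := hb z hz
    rw [hnorm z hz, Real.exp_le_exp] at h1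
    linarith
  have hA0 : 0 ≤ A := by
    have := hre 0 (mem_ball_self hρ)
    rwa [hLz] at this
  -- Borel-Caratheodory
  have hbc : ∀ w : ℂ, ‖w‖ = ρ / 2 → ‖L w‖ ≤ 2 * A := by
    intro w hw
    have hwb : w ∈ ball (0 : ℂ) ρ := by
      rw [mem_ball_zero_iff, hw]
      linarith
    refine le_of_forall_pos_le_add (fun δ hδ => ?_)
    have h1 := Complex.borelCaratheodory_zero (f := L) (R := ρ) (z := w)
      (M := A + δ / 2) (by linarith)
      (fun z hz => (hL z hz).differentiableAt.differentiableWithinAt)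
      (fun z hz => by
        show (L z).re ≤ _
        linarith [hre z hz]) hρ hwb hLz
    refine h1.trans (le_of_eq ?_)
    rw [hw]
    field_simp
    ring
  -- the derivative at the centre vanishes
  have hd0 : deriv F 0 = 0 := by
    have h1 : HasDerivAt (fun z => F (-z)) (-deriv F 0) 0 := by
      have h2 : HasDerivAt (fun z : ℂ => -z) (-1) 0 := (hasDerivAt_id (0 : ℂ)).neg
      have h3 : HasDerivAt F (deriv F 0) (-0) := by rw [neg_zero]; exact (hF 0).hasDerivAt
      have h4 : HasDerivAt (fun z => F (-z)) (deriv F 0 * -1) 0 := h3.comp (0 : ℂ) h2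
      rwa [mul_neg_one] at h4
    have h2 : (fun z => F (-z)) = F := funext he
    rw [h2] at h1
    have h3 := h1.unique (hF 0).hasDerivAt
    have h4 : (2 : ℂ) * deriv F 0 = 0 := by linear_combination -h3
    simpa using h4
  have hLd0 : deriv L 0 = 0 := by
    rw [(hL 0 (mem_ball_self hρ)).deriv, hd0, zero_div]
  -- Schwarz
  have hLo : DifferentiableOn ℂ L (ball 0 ρ) := fun z hz => (hL z hz).differentiableAt.differentiableWithinAt
  have hbn : ball (0 : ℂ) ρ ∈ 𝓝 (0 : ℂ) := ball_mem_nhds _ hρ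
  have hd1 : DifferentiableOn ℂ (dslope L 0) (ball 0 ρ) := (Complex.differentiableOn_dslope hbn).2 hLo
  have hd2 : DifferentiableOn ℂ (dslope (dslope L 0) 0) (ball 0 ρ) := (Complex.differentiableOn_dslope hbn).2 hd1
  have hLh : ∀ z, L z = z ^ 2 * dslope (dslope L 0) 0 z := by
    intro z
    have h1 := sub_smul_dslope L 0 z
    have h2 := sub_smul_dslope (dslope L 0) 0 z
    rw [hLz, sub_zero, sub_zero, smul_eq_mul] at h1
    rw [dslope_same, hLd0, sub_zero, sub_zero, smul_eq_mul] at h2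
    rw [← h1, ← h2]
    ring
  have hsub : closedBall (0 : ℂ) (ρ / 2) ⊆ ball 0 ρ := closedBall_subset_ball (by linarith)
  have hfr : ∀ z ∈ frontier (ball (0 : ℂ) (ρ / 2)), ‖dslope (dslope L 0) 0 z‖ ≤ 8 * A / ρ ^ 2 := by
    intro z hz
    rw [frontier_ball _ (by positivity)] at hz
    have hz' : ‖z‖ = ρ / 2 := by simpa using hz
    have h1 := hbc z hz'
    rw [hLh z, norm_mul, norm_pow, hz'] at h1
    rw [le_div_iff₀ (by positivity)]
    nlinarith
  have hmax : ‖dslope (dslope L 0) 0 w‖ ≤ 8 * A / ρ ^ 2 := by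
    refine Complex.norm_le_of_forall_mem_frontier_norm_le (U := ball (0 : ℂ) (ρ / 2))
      isBounded_ball ⟨hd2.mono (ball_subset_closedBall.trans hsub), ?_⟩ hfr ?_
    · rw [closure_ball _ (by positivity)]
      exact (hd2.continuousOn).mono hsub
    · rw [closure_ball _ (by positivity)]
      simpa using hw
  have hwb : w ∈ ball (0 : ℂ) ρ := hsub (by simpa using hw)
  have hfin : Real.log ‖F w‖ - Real.log ‖F 0‖ = (L w).re := by
    rw [hnorm w hwb, Real.log_exp]; ring
  rw [hfin]
  refine (Complex.abs_re_le_norm _).trans ?_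
  rw [hLh w, norm_mul, norm_pow, mul_comm]
  gcongr

end Pool.Agent.Helper37.WMC
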