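import Pool.Agent.Helper37.WMC.Band

/-! The energy at high frequencies. -/

set_option autoImplicit false

open Filter Topology Set MeasureTheory
open scoped ENNReal

namespace Pool.Agent.Helper37.WMC

open Pool.Agent.H295R2 Pool.Agent.Helper37.WMH

noncomputable section

theorem Ph_all (hR : RHS) : ∃ C : ℝ, 0 < C ∧ ∀ T : ℝ, Real.exp 4 ≤ T → ∀ c : ℝ, 0 < c → c ≤ 1 / 4 →
    ENNReal.ofReal c * Ph T c ≤ ENNReal.ofReal C * (Sz T + ENNReal.ofReal (T ^ (-(1 / 2) : ℝ))) := by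
  obtain ⟨C, hC, hsm⟩ := Ph_small hR
  obtain ⟨C₁, hC₁, hone⟩ := Ph_one
  refine ⟨2 * C + C₁, by positivity, fun T hT c hc hc4 => ?_⟩
  have hT0 : 0 < T := (Real.exp_pos 4).trans_le hT
  have hl : 4 ≤ Real.log T := by
    rw [Real.le_log_iff_exp_le hT0]; exact hT
  have hTe : Real.exp 1 ≤ T := (Real.exp_le_exp.2 (by norm_num)).trans hT
  have hT1 : 1 ≤ T := (Real.one_le_exp (by norm_num)).trans hTe
  have hTT : 1 / T ^ 2 ≤ T ^ (-(1 / 2) : ℝ) := by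
    rw [one_div, ← Real.rpow_natCast, ← Real.rpow_neg hT0.le]
    apply Real.rpow_le_rpow_of_exponent_le hT1
    norm_num
  have hkey : ∀ c : ℝ, 0 < c → c ≤ 1 / Real.log T → c ≤ 1 / 4 →
      ENNReal.ofReal c * Ph T c ≤ ENNReal.ofReal C * (Sz T + ENNReal.ofReal (T ^ (-(1 / 2) : ℝ))) := by
    intro c hc h1 h2
    refine (hsm T hTe c hc h1 h2).trans ?_
    gcongr
  rcases le_total c (1 / Real.log T) with h | h
  · refine (hkey c hc h hc4).trans ?_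
    gcongr
    linarith
  · set c₀ : ℝ := 1 / Real.log T with hc₀
    have hc₀p : 0 < c₀ := by rw [hc₀]; positivity
    have hc₀4 : c₀ ≤ 1 / 4 := by
      rw [hc₀]
      exact one_div_le_one_div_of_le (by norm_num) hl
    have h1 := Ph_split hR hT1 hc₀p h (by linarith : c ≤ 1)
    have h2 := hkey c₀ hc₀p le_rfl hc₀4
    have h3 := hone T hT0
    set E : ℝ := Real.exp (-((c - c₀) * Real.log T / 2)) with hE
    have hE0 : 0 < E := Real.exp_pos _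
    have hx : c / c₀ * E ≤ 2 := by
      have e1 : c / c₀ = c * Real.log T := by rw [hc₀]; field_simp
      have e2 : (c - c₀) * Real.log T = c * Real.log T - 1 := by rw [hc₀]; field_simp
      rw [e1, hE, e2]
      set x : ℝ := c * Real.log T with hx
      have h4 := Real.add_one_le_exp (x / 2 - 1)
      have h5 : x ≤ 2 * Real.exp (x / 2 - 1) := by linarith
      calc x * Real.exp (-((x - 1) / 2)) ≤ 2 * Real.exp (x / 2 - 1) * Real.exp (-((x - 1) / 2)) := by gcongr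
        _ = 2 * Real.exp (-(1 / 2)) := by
            rw [mul_assoc, ← Real.exp_add]; ring_nf
        _ ≤ 2 * 1 := by
            gcongr
            exact Real.exp_le_one_iff.2 (by norm_num)
        _ = 2 := by norm_num
    have e3 : ENNReal.ofReal c * (ENNReal.ofReal E * Ph T c₀) = ENNReal.ofReal (c / c₀ * E) * (ENNReal.ofReal c₀ * Ph T c₀) := by
      rw [← mul_assoc, ← mul_assoc, ← ENNReal.ofReal_mul hc.le, ← ENNReal.ofReal_mul (by positivity)]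
      congr 2
      field_simp
    have e4 : T ^ (1 / 2 : ℝ) * (C₁ / T) = C₁ * T ^ (-(1 / 2) : ℝ) := by
      have : T ^ (-(1 / 2) : ℝ) = T ^ (1 / 2 : ℝ) / T := by
        rw [← Real.rpow_sub_one hT0.ne']; norm_num
      rw [this]; ring
    calc ENNReal.ofReal c * Ph T c
        ≤ ENNReal.ofReal c * (ENNReal.ofReal (T ^ (1 / 2 : ℝ)) * Ph T 1 + ENNReal.ofReal E * Ph T c₀) := by gcongr
      _ = ENNReal.ofReal c * (ENNReal.ofReal (T ^ (1 / 2 : ℝ)) * Ph T 1) + ENNReal.ofReal (c / c₀ * E) * (ENNReal.ofReal c₀ * Ph T c₀) := by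
          rw [mul_add, e3]
      _ ≤ ENNReal.ofReal 1 * (ENNReal.ofReal (T ^ (1 / 2 : ℝ)) * ENNReal.ofReal (C₁ / T)) +
            ENNReal.ofReal 2 * (ENNReal.ofReal C * (Sz T + ENNReal.ofReal (T ^ (-(1 / 2) : ℝ)))) := by
          refine add_le_add ?_ ?_
          · exact mul_le_mul' (ENNReal.ofReal_le_ofReal (by linarith)) (mul_le_mul' le_rfl h3)
          · exact mul_le_mul' (ENNReal.ofReal_le_ofReal hx) h2
      _ = ENNReal.ofReal C₁ * ENNReal.ofReal (T ^ (-(1 / 2) : ℝ)) +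
            ENNReal.ofReal (2 * C) * (Sz T + ENNReal.ofReal (T ^ (-(1 / 2) : ℝ))) := by
          rw [← mul_assoc (ENNReal.ofReal 2), ← ENNReal.ofReal_mul (show (0:ℝ) ≤ 2 by norm_num),
            ← ENNReal.ofReal_mul (show 0 ≤ T ^ (1 / 2 : ℝ) by positivity), e4,
            ENNReal.ofReal_one, one_mul, ← ENNReal.ofReal_mul hC₁.le]
      _ ≤ ENNReal.ofReal C₁ * (Sz T + ENNReal.ofReal (T ^ (-(1 / 2) : ℝ))) +
            ENNReal.ofReal (2 * C) * (Sz T + ENNReal.ofReal (T ^ (-(1 / 2) : ℝ))) := by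
          gcongr
          exact le_add_self
      _ = _ := by
          rw [← add_mul, ← ENNReal.ofReal_add hC₁.le (by positivity), add_comm C₁]

/-- a bounded increasing function for the dyadic sum -/
lemma vw_tele {T t : ℝ} (hT : 0 < T) (ht : 0 ≤ t) : vw T t ≤ 7 / 2 * (2 * T / (2 * T + t) - T / (T + t)) := by
  unfold vw
  have h1 : 2 * T / (2 * T + t) - T / (T + t) = T * t / ((2 * T + t) * (T + t)) := by
    rw [div_sub_div _ _ (by positivity) (by positivity)]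
    congr 1
    ring
  rw [h1, mul_div_assoc', div_le_div_iff₀ (by positivity) (by positivity)]
  have h2 : (2 * T + t) * (T + t) ≤ 7 / 2 * (T ^ 2 + t ^ 2) := by nlinarith [sq_nonneg (T - t)]
  have h3 : 0 ≤ T * t := by positivity
  nlinarith [mul_le_mul_of_nonneg_left h2 h3]

lemma vw_sum (t : ℝ) (ht : 0 ≤ t) : ∑' j : ℕ, ENNReal.ofReal (vw (2 ^ j) t) ≤ ENNReal.ofReal (7 / 2) := by
  refine ENNReal.tsum_le_of_sum_range_le fun n => ?_
  rw [← ENNReal.ofReal_sum_of_nonneg (fun j _ => vw_nonneg (by positivity) ht)]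
  apply ENNReal.ofReal_le_ofReal
  have h1 : ∀ j : ℕ, vw (2 ^ j) t ≤ 7 / 2 * ((2:ℝ) ^ (j + 1) / (2 ^ (j + 1) + t) - 2 ^ j / (2 ^ j + t)) := by
    intro j
    have := vw_tele (T := 2 ^ j) (t := t) (by positivity) ht
    rwa [← pow_succ'] at this
  calc ∑ j ∈ Finset.range n, vw (2 ^ j) t
      ≤ ∑ j ∈ Finset.range n, 7 / 2 * ((2:ℝ) ^ (j + 1) / (2 ^ (j + 1) + t) - 2 ^ j / (2 ^ j + t)) :=
        Finset.sum_le_sum fun j _ => h1 j
    _ = 7 / 2 * ((2:ℝ) ^ n / (2 ^ n + t) - 2 ^ 0 / (2 ^ 0 + t)) := by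
        rw [← Finset.mul_sum, Finset.sum_range_sub (fun j : ℕ => (2:ℝ) ^ j / (2 ^ j + t))]
    _ ≤ 7 / 2 * 1 := by
        gcongr
        have h2 : (2:ℝ) ^ n / (2 ^ n + t) ≤ 1 := (div_le_one (by positivity)).2 (by linarith)
        have h3 : (0:ℝ) ≤ 2 ^ 0 / (2 ^ 0 + t) := by positivity
        linarith
    _ = _ := by norm_num

lemma Sz_sum (hs : Summable (fun ρ : NT => ‖aa ρ‖ ^ 2)) : ∑' j : ℕ, Sz (2 ^ j) ≠ ⊤ := by
  unfold Sz
  rw [ENNReal.tsum_comm]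
  have h1 : ∀ ρ : NT, ∑' j : ℕ, ENNReal.ofReal (‖aa ρ‖ ^ 2 * vw (2 ^ j) |(ρ : ℂ).im|) ≤
      ENNReal.ofReal (‖aa ρ‖ ^ 2) * ENNReal.ofReal (7 / 2) := by
    intro ρ
    have h2 : ∀ j : ℕ, ENNReal.ofReal (‖aa ρ‖ ^ 2 * vw (2 ^ j) |(ρ : ℂ).im|) =
        ENNReal.ofReal (‖aa ρ‖ ^ 2) * ENNReal.ofReal (vw (2 ^ j) |(ρ : ℂ).im|) := fun j =>
      ENNReal.ofReal_mul (by positivity)
    simp_rw [h2]
    rw [ENNReal.tsum_mul_left]
    gcongr
    exact vw_sum _ (abs_nonneg _)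
  refine ne_top_of_le_ne_top ?_ (ENNReal.tsum_le_tsum h1)
  rw [ENNReal.tsum_mul_right]
  refine ENNReal.mul_ne_top ?_ ENNReal.ofReal_ne_top
  exact hs.tsum_ofReal_ne_top

lemma geo_sum : ∑' j : ℕ, ENNReal.ofReal (((2:ℝ) ^ j) ^ (-(1 / 2) : ℝ)) ≠ ⊤ := by
  have e : (fun j : ℕ => ((2:ℝ) ^ j) ^ (-(1 / 2) : ℝ)) = fun j : ℕ => ((2:ℝ) ^ (-(1 / 2) : ℝ)) ^ j := by
    funext j
    rw [← Real.rpow_natCast, ← Real.rpow_natCast, ← Real.rpow_mul (by norm_num), ← Real.rpow_mul (by norm_num), mul_comm]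
  have h1 : Summable (fun j : ℕ => ((2:ℝ) ^ j) ^ (-(1 / 2) : ℝ)) := by
    rw [e]
    apply summable_geometric_of_lt_one (by positivity)
    rw [Real.rpow_neg (by norm_num)]
    apply inv_lt_one_of_one_lt₀
    apply Real.one_lt_rpow (by norm_num) (by norm_num)
  exact h1.tsum_ofReal_ne_top

/-- a point is in some band -/
lemma kT_cover {J : ℕ} {c t : ℝ} (hc : 0 ≤ c) (hc1 : c ≤ 1) (ht : (2:ℝ) ^ J ≤ |t|) :
    1 ≤ 64 * ∑' j : ℕ, ‖kT (2 ^ (j + J)) ⟨c, t⟩‖ₑ ^ 2 := by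
  have h1 : (1:ℝ) ≤ |t| / 2 ^ J := (one_le_div (by positivity)).2 ht
  obtain ⟨n, hn1, hn2⟩ := exists_nat_pow_near h1 (by norm_num : (1:ℝ) < 2)
  rw [le_div_iff₀ (by positivity), ← pow_add] at hn1
  rw [div_lt_iff₀ (by positivity), ← pow_add] at hn2
  have h2 : (2:ℝ) ^ (n + 1 + J) = 2 * 2 ^ (n + J) := by ring
  rw [h2] at hn2
  have h3 := kT_low (T := 2 ^ (n + J)) (one_le_pow₀ (by norm_num)) hc hc1 hn1 hn2.le
  have h4 : ENNReal.ofReal (1 / 64) ≤ ‖kT (2 ^ (n + J)) ⟨c, t⟩‖ₑ ^ 2 := by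
    rw [← ofReal_norm, ← ENNReal.ofReal_pow (norm_nonneg _)]
    apply ENNReal.ofReal_le_ofReal
    exact h3
  calc (1:ℝ≥0∞) = 64 * ENNReal.ofReal (1 / 64) := by
        have : (64:ℝ≥0∞) = ENNReal.ofReal 64 := by norm_num
        rw [this, ← ENNReal.ofReal_mul (by norm_num)]
        norm_num
    _ ≤ 64 * ‖kT (2 ^ (n + J)) ⟨c, t⟩‖ₑ ^ 2 := by gcongr
    _ ≤ _ := by
        gcongr
        exact ENNReal.le_tsum (f := fun j : ℕ => ‖kT (2 ^ (j + J)) ⟨c, t⟩‖ₑ ^ 2) n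

lemma kT_meas (T c : ℝ) : Measurable (fun t : ℝ => kT T ⟨c, t⟩) := by
  unfold kT
  have h1 : Continuous (fun t : ℝ => (⟨c, t⟩ : ℂ)) := mk_cont c
  exact (h1.measurable.const_mul _).div ((h1.measurable.add_const _).pow_const 2)

theorem far_small (hR : RHS) (hs : Summable (fun ρ : NT => ‖aa ρ‖ ^ 2)) {ε : ℝ} (hε : 0 < ε) :
    ∃ J : ℕ, ∀ c : ℝ, 0 < c → c ≤ 1 / 4 →
      ENNReal.ofReal c * ∫⁻ t in {t : ℝ | (2:ℝ) ^ J ≤ |t|}, ‖HH ⟨1 / 2 + c, t⟩‖ₑ ^ 2 ≤ ENNReal.ofReal ε := by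
  obtain ⟨C, hC, hPh⟩ := Ph_all hR
  set F : ℕ → ℝ≥0∞ := fun j => Sz (2 ^ j) + ENNReal.ofReal (((2:ℝ) ^ j) ^ (-(1 / 2) : ℝ)) with hF
  have hFs : ∑' j, F j ≠ ⊤ := by
    rw [hF, ENNReal.tsum_add]
    exact ENNReal.add_ne_top.2 ⟨Sz_sum hs, geo_sum⟩
  have h1 := ENNReal.tendsto_sum_nat_add F hFs
  have h2 : Tendsto (fun J : ℕ => (64 * ENNReal.ofReal C) * ∑' j, F (j + J)) atTop (𝓝 ((64 * ENNReal.ofReal C) * 0)) :=
    ENNReal.Tendsto.const_mul h1 (Or.inr (ENNReal.mul_ne_top (by norm_num) ENNReal.ofReal_ne_top))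
  rw [mul_zero] at h2
  have h3 := h2.eventually_le_const (ENNReal.ofReal_pos.2 hε)
  obtain ⟨J, hJ⟩ := (h3.and (eventually_ge_atTop 8)).exists
  refine ⟨J, fun c hc hc4 => ?_⟩
  have hHm : Measurable (fun t : ℝ => ‖HH ⟨1 / 2 + c, t⟩‖ₑ ^ 2) :=
    ((HH_cont' hR (a := 1 / 2 + c) (by linarith) (by linarith)).measurable).enorm.pow_const 2
  have h4 : ∫⁻ t in {t : ℝ | (2:ℝ) ^ J ≤ |t|}, ‖HH ⟨1 / 2 + c, t⟩‖ₑ ^ 2 ≤ 64 * ∑' j : ℕ, Ph (2 ^ (j + J)) c := by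
    calc ∫⁻ t in {t : ℝ | (2:ℝ) ^ J ≤ |t|}, ‖HH ⟨1 / 2 + c, t⟩‖ₑ ^ 2
        ≤ ∫⁻ t in {t : ℝ | (2:ℝ) ^ J ≤ |t|}, 64 * ∑' j : ℕ, ‖HH ⟨1 / 2 + c, t⟩ * kT (2 ^ (j + J)) ⟨c, t⟩‖ₑ ^ 2 := by
          refine setLIntegral_mono' (measurableSet_le measurable_const continuous_abs.measurable) fun t ht => ?_
          have h5 := kT_cover hc.le (by linarith : c ≤ 1) ht
          calc ‖HH ⟨1 / 2 + c, t⟩‖ₑ ^ 2 = ‖HH ⟨1 / 2 + c, t⟩‖ₑ ^ 2 * 1 := (mul_one _).symm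
            _ ≤ ‖HH ⟨1 / 2 + c, t⟩‖ₑ ^ 2 * (64 * ∑' j : ℕ, ‖kT (2 ^ (j + J)) ⟨c, t⟩‖ₑ ^ 2) := by gcongr
            _ = 64 * ∑' j : ℕ, ‖HH ⟨1 / 2 + c, t⟩ * kT (2 ^ (j + J)) ⟨c, t⟩‖ₑ ^ 2 := by
                rw [mul_left_comm, ← ENNReal.tsum_mul_left]
                congr 1
                refine tsum_congr fun j => ?_
                rw [enorm_mul, mul_pow]
      _ ≤ ∫⁻ t, 64 * ∑' j : ℕ, ‖HH ⟨1 / 2 + c, t⟩ * kT (2 ^ (j + J)) ⟨c, t⟩‖ₑ ^ 2 := setLIntegral_le_lintegral _ _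
      _ = 64 * ∑' j : ℕ, Ph (2 ^ (j + J)) c := by
          rw [lintegral_const_mul' _ _ (by norm_num), lintegral_tsum]
          · unfold Ph
            congr 1
          · intro j
            exact (((HH_cont' hR (a := 1 / 2 + c) (by linarith) (by linarith)).measurable).mul
              (kT_meas _ c)).enorm.pow_const 2 |>.aemeasurable
  have h5 : ∀ j : ℕ, ENNReal.ofReal c * Ph (2 ^ (j + J)) c ≤ ENNReal.ofReal C * F (j + J) := by
    intro j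
    have h6 : Real.exp 4 ≤ (2:ℝ) ^ (j + J) := by
      have h7 : (2:ℝ) ^ 8 ≤ 2 ^ (j + J) := pow_le_pow_right₀ (by norm_num) (by omega)
      have h8 : Real.exp 4 ≤ 256 := by
        have h9 : Real.exp 4 = (Real.exp 1) ^ 4 := by rw [← Real.exp_nat_mul]; norm_num
        have h10 := Real.exp_one_lt_d9
        rw [h9]
        calc (Real.exp 1) ^ 4 ≤ (4:ℝ) ^ 4 := by
              have := Real.exp_pos 1
              gcongr
              linarith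
          _ = 256 := by norm_num
      linarith
    exact hPh _ h6 c hc hc4
  calc ENNReal.ofReal c * ∫⁻ t in {t : ℝ | (2:ℝ) ^ J ≤ |t|}, ‖HH ⟨1 / 2 + c, t⟩‖ₑ ^ 2
      ≤ ENNReal.ofReal c * (64 * ∑' j : ℕ, Ph (2 ^ (j + J)) c) := by gcongr
    _ = 64 * ∑' j : ℕ, ENNReal.ofReal c * Ph (2 ^ (j + J)) c := by
        rw [ENNReal.tsum_mul_left]; ring
    _ ≤ 64 * ∑' j : ℕ, ENNReal.ofReal C * F (j + J) := mul_le_mul' le_rfl (ENNReal.tsum_le_tsum h5)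
    _ = (64 * ENNReal.ofReal C) * ∑' j, F (j + J) := by
        rw [ENNReal.tsum_mul_left]; ring
    _ ≤ _ := hJ.1

end

end Pool.Agent.Helper37.WMC
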