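import Pool.Agent.Helper37.WMC.Xi

/-! The size of the Gamma factor. -/

set_option autoImplicit false

open Filter Topology Set Complex

namespace Pool.Agent.Helper37.WMC

open Pool.Agent.H295R2 Pool.Agent.Helper37.WMH

noncomputable section

/-- the derivative of `log |f|` -/
lemma hasDerivAt_log_norm {f : ℝ → ℂ} {f' : ℂ} {x : ℝ} (hf : HasDerivAt f f' x) (h0 : f x ≠ 0) :
    HasDerivAt (fun x => Real.log ‖f x‖) (f' / f x).re x := by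
  have h1 : HasDerivAt (fun x => ‖f x‖ ^ 2) (2 * inner ℝ (f x) f') x := hf.norm_sq
  have hn : ‖f x‖ ^ 2 ≠ 0 := by
    have := norm_pos_iff.2 h0
    positivity
  have h2 := (h1.log hn).const_mul (1 / 2)
  have h3 : (fun x => Real.log ‖f x‖) = fun x => 1 / 2 * Real.log (‖f x‖ ^ 2) := by
    funext x
    rw [Real.log_pow]; push_cast; ring
  rw [h3]
  refine h2.congr_deriv ?_
  have h4 : (f' / f x).re = inner ℝ (f x) f' / ‖f x‖ ^ 2 := by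
    rw [Complex.inner, ← Complex.normSq_eq_norm_sq, Complex.div_re, Complex.mul_re, Complex.conj_re, Complex.conj_im]
    ring
  rw [h4]
  ring

lemma gr_bound : ∃ C : ℝ, 0 ≤ C ∧ ∀ t : ℝ, 1 ≤ t → ∀ c : ℝ, 0 ≤ c → c ≤ 1 →
    |Real.log ‖Gammaℝ ⟨1 / 2 + c, t⟩‖ - Real.log ‖Gammaℝ ⟨1 / 2, t⟩‖ - c / 2 * Real.log t| ≤ C * c := by
  obtain ⟨C, hC0, hC⟩ := H370.DL.logDeriv_Gammaℝ_bound
  refine ⟨C, hC0, fun t ht c hc0 hc1 => ?_⟩
  set f : ℝ → ℝ := fun x => Real.log ‖Gammaℝ ⟨1 / 2 + x, t⟩‖ - x / 2 * Real.log t with hf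
  have hne : ∀ x : ℝ, 0 ≤ x → Gammaℝ ⟨1 / 2 + x, t⟩ ≠ 0 := fun x hx =>
    Gammaℝ_ne_zero_of_re_pos (by simp only; linarith)
  have hd : ∀ x : ℝ, 0 ≤ x → HasDerivAt f ((logDeriv Gammaℝ ⟨1 / 2 + x, t⟩).re - 1 / 2 * Real.log t) x := by
    intro x hx
    have h1 : HasDerivAt (fun x : ℝ => (⟨1 / 2 + x, t⟩ : ℂ)) 1 x := by
      have : (fun x : ℝ => (⟨1 / 2 + x, t⟩ : ℂ)) = fun x : ℝ => (x : ℂ) + ⟨1 / 2, t⟩ := by
        funext x
        apply Complex.ext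
        · simp; ring
        · simp
      rw [this]
      exact (Complex.ofRealCLM.hasDerivAt (x := x)).add_const _
    have h2 : HasDerivAt (fun x : ℝ => Gammaℝ ⟨1 / 2 + x, t⟩) (deriv Gammaℝ ⟨1 / 2 + x, t⟩ * 1) x :=
      (Gammaℝ_diffAt (s := ⟨1 / 2 + x, t⟩) (by simp only; linarith)).hasDerivAt.comp_of_eq x h1 rfl
    rw [mul_one] at h2
    have h3 := hasDerivAt_log_norm h2 (hne x hx)
    have h4 : HasDerivAt (fun x : ℝ => x / 2 * Real.log t) (1 / 2 * Real.log t) x :=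
      ((hasDerivAt_id x).div_const 2).mul_const _
    exact h3.sub h4
  have hb : ∀ x ∈ Icc 0 c, ‖(logDeriv Gammaℝ ⟨1 / 2 + x, t⟩).re - 1 / 2 * Real.log t‖ ≤ C := by
    intro x hx
    have h1 := hC ⟨1 / 2 + x, t⟩ (by simp only; linarith [hx.1]) (by simp only; linarith [hx.2])
      (by simp only; rw [abs_of_nonneg (by linarith)]; exact ht)
    simp only [abs_of_nonneg (show (0:ℝ) ≤ t by linarith)] at h1
    have h2 : (logDeriv Gammaℝ ⟨1 / 2 + x, t⟩).re - 1 / 2 * Real.log t =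
        (logDeriv Gammaℝ ⟨1 / 2 + x, t⟩ - 1 / 2 * (Real.log t : ℂ)).re := by
      rw [Complex.sub_re]
      congr 1
      have : (1 / 2 * (Real.log t : ℂ)) = ((1 / 2 * Real.log t : ℝ) : ℂ) := by push_cast; ring
      rw [this, Complex.ofReal_re]
    rw [h2]
    exact (Complex.abs_re_le_norm _).trans h1
  have h1 := (convex_Icc (0:ℝ) c).norm_image_sub_le_of_norm_hasDerivWithin_le
    (fun x hx => (hd x hx.1).hasDerivWithinAt) hb (left_mem_Icc.2 hc0) (right_mem_Icc.2 hc0)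
  rw [Real.norm_eq_abs, Real.norm_eq_abs, sub_zero, abs_of_nonneg hc0] at h1
  rw [hf] at h1
  simp only [add_zero, zero_div, zero_mul, sub_zero] at h1
  have e : Real.log ‖Gammaℝ ⟨1 / 2 + c, t⟩‖ - Real.log ‖Gammaℝ ⟨1 / 2, t⟩‖ - c / 2 * Real.log t =
    Real.log ‖Gammaℝ ⟨1 / 2 + c, t⟩‖ - c / 2 * Real.log t - Real.log ‖Gammaℝ ⟨1 / 2, t⟩‖ := by ring
  rw [e]
  exact h1

lemma cos_bounds {t : ℝ} (ht : 1 ≤ t) : Real.exp (Real.pi * t / 2) / 4 ≤ ‖Complex.cos (Real.pi * (⟨1 / 2, -t⟩ : ℂ) / 2)‖ ∧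
    ‖Complex.cos (Real.pi * (⟨1 / 2, -t⟩ : ℂ) / 2)‖ ≤ Real.exp (Real.pi * t / 2) := by
  set z : ℂ := Real.pi * (⟨1 / 2, -t⟩ : ℂ) / 2 with hz
  have him : z.im = -(Real.pi * t / 2) := by
    rw [hz]
    have : (Real.pi * (⟨1 / 2, -t⟩ : ℂ) / 2) = ((Real.pi / 2 : ℝ) : ℂ) * ⟨1 / 2, -t⟩ := by push_cast; ring
    rw [this, Complex.im_ofReal_mul]
    simp only
    ring
  set y : ℝ := Real.pi * t / 2 with hy
  have hy1 : 1 ≤ y := by
    rw [hy]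
    have := Real.pi_gt_three
    nlinarith
  have h1 : ‖Complex.exp (z * I)‖ = Real.exp y := by
    rw [Complex.norm_exp]; congr 1
    simp [him]
  have h2 : ‖Complex.exp (-z * I)‖ = Real.exp (-y) := by
    rw [Complex.norm_exp]; congr 1
    simp [him]
  have h3 : Complex.cos z = (Complex.exp (z * I) + Complex.exp (-z * I)) / 2 := rfl
  have h4 : Real.exp (-y) ≤ Real.exp y / 2 := by
    have e1 : Real.exp (-y) * Real.exp y = 1 := by rw [← Real.exp_add]; simp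
    have e2 := Real.add_one_le_exp y
    have e3 := Real.exp_pos (-y)
    nlinarith
  rw [h3, norm_div]
  have h5 : ‖(2:ℂ)‖ = 2 := by simp
  rw [h5]
  constructor
  · have h6 : ‖Complex.exp (z * I)‖ - ‖Complex.exp (-z * I)‖ ≤ ‖Complex.exp (z * I) + Complex.exp (-z * I)‖ := by
      have := norm_sub_norm_le (Complex.exp (z * I)) (-Complex.exp (-z * I))
      rw [norm_neg, sub_neg_eq_add] at this
      exact this
    rw [h1, h2] at h6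
    linarith
  · have h6 := norm_add_le (Complex.exp (z * I)) (Complex.exp (-z * I))
    rw [h1, h2] at h6
    have := Real.exp_pos y
    linarith

theorem gamma_line : ∃ κ C : ℝ, 0 < κ ∧ 0 < C ∧ ∀ t : ℝ, 1 ≤ t →
    κ * (t ^ (-(1 / 2) : ℝ) * Real.exp (-(Real.pi * t / 2))) ≤ ‖Gammaℝ ⟨1 / 2, t⟩‖ ^ 2 ∧
    ∀ c : ℝ, 0 ≤ c → c ≤ 1 →
      ‖Gammaℝ ⟨1 / 2 + c, t⟩‖ ^ 2 ≤ C * (t ^ (c - 1 / 2 : ℝ) * Real.exp (-(Real.pi * t / 2))) := by
  obtain ⟨C, hC0, hC⟩ := gr_bound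
  refine ⟨Real.exp (-C), 4 * Real.exp (3 * C), Real.exp_pos _, by positivity, fun t ht => ?_⟩
  have ht0 : 0 < t := by linarith
  set y : ℝ := Real.pi * t / 2 with hy
  have hne : ∀ x : ℝ, 0 ≤ x → Gammaℝ ⟨1 / 2 + x, t⟩ ≠ 0 := fun x hx =>
    Gammaℝ_ne_zero_of_re_pos (by simp only; linarith)
  have hP0 : 0 < ‖Gammaℝ ⟨1 / 2, t⟩‖ := norm_pos_iff.2 (by have := hne 0 le_rfl; rwa [add_zero] at this)
  have hQ0 : 0 < ‖Gammaℝ ⟨1 / 2 + 1, t⟩‖ := norm_pos_iff.2 (hne 1 (by norm_num))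
  set P : ℝ := Real.log ‖Gammaℝ ⟨1 / 2, t⟩‖ with hP
  set Q : ℝ := Real.log ‖Gammaℝ ⟨1 / 2 + 1, t⟩‖ with hQ
  -- the reflection formula
  have hrefl : ‖Gammaℝ ⟨1 / 2, t⟩‖ * ‖Gammaℝ ⟨1 / 2 + 1, t⟩‖ = ‖Complex.cos (Real.pi * (⟨1 / 2, -t⟩ : ℂ) / 2)‖⁻¹ := by
    have h1 := Gammaℝ_one_sub_mul_Gammaℝ_one_add (⟨1 / 2, -t⟩ : ℂ)
    have e1 : (1 : ℂ) - ⟨1 / 2, -t⟩ = ⟨1 / 2, t⟩ := by
      apply Complex.ext
      · simp; norm_num
      · simp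
    have e2 : (1 : ℂ) + ⟨1 / 2, -t⟩ = (starRingEnd ℂ) ⟨1 / 2 + 1, t⟩ := by
      apply Complex.ext
      · simp; norm_num
      · simp
    have e3 : ‖Gammaℝ ((starRingEnd ℂ) ⟨1 / 2 + 1, t⟩)‖ = ‖Gammaℝ ⟨1 / 2 + 1, t⟩‖ := by
      rw [norm_Gammaℝ, norm_Gammaℝ, Complex.conj_re]
      congr 1
      have : (starRingEnd ℂ) (⟨1 / 2 + 1, t⟩ : ℂ) / 2 = (starRingEnd ℂ) ((⟨1 / 2 + 1, t⟩ : ℂ) / 2) := by
        rw [map_div₀, map_ofNat]
      rw [this, norm_Gamma_conj]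
    rw [e1, e2] at h1
    have h2 := congrArg norm h1
    rw [norm_mul, norm_inv, e3] at h2
    exact h2
  obtain ⟨hc1, hc2⟩ := cos_bounds ht
  rw [← hy] at hc1 hc2
  have hcp : 0 < ‖Complex.cos (Real.pi * (⟨1 / 2, -t⟩ : ℂ) / 2)‖ := lt_of_lt_of_le (by positivity) hc1
  have hPQ : P + Q = -Real.log ‖Complex.cos (Real.pi * (⟨1 / 2, -t⟩ : ℂ) / 2)‖ := by
    rw [hP, hQ, ← Real.log_mul hP0.ne' hQ0.ne', hrefl, Real.log_inv]
  have hl1 : y - Real.log 4 ≤ Real.log ‖Complex.cos (Real.pi * (⟨1 / 2, -t⟩ : ℂ) / 2)‖ := by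
    have := Real.log_le_log (by positivity) hc1
    rwa [Real.log_div (Real.exp_pos _).ne' (by norm_num), Real.log_exp] at this
  have hl2 : Real.log ‖Complex.cos (Real.pi * (⟨1 / 2, -t⟩ : ℂ) / 2)‖ ≤ y := by
    have := Real.log_le_log hcp hc2
    rwa [Real.log_exp] at this
  have hr := abs_le.1 (hC t ht 1 (by norm_num) le_rfl)
  rw [← hP, ← hQ, mul_one] at hr
  have hlow : -y - C - 1 / 2 * Real.log t ≤ 2 * P := by linarith [hr.2]
  have hupp : 2 * P ≤ -y + Real.log 4 + C - 1 / 2 * Real.log t := by linarith [hr.1]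
  have hrp : ∀ a : ℝ, t ^ a = Real.exp (a * Real.log t) := fun a => by
    rw [Real.rpow_def_of_pos ht0, mul_comm]
  have hsq : ∀ z : ℂ, 0 < ‖z‖ → ‖z‖ ^ 2 = Real.exp (2 * Real.log ‖z‖) := by
    intro z hz
    rw [two_mul, Real.exp_add, Real.exp_log hz]
    ring
  constructor
  · rw [hsq _ hP0, ← hP, hrp, ← Real.exp_add, ← Real.exp_add]
    apply Real.exp_le_exp.2
    linarith
  · intro c hc0 hc1
    have hcp0 : 0 < ‖Gammaℝ ⟨1 / 2 + c, t⟩‖ := norm_pos_iff.2 (hne c hc0)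
    have h1 := (abs_le.1 (hC t ht c hc0 hc1)).2
    rw [← hP] at h1
    have h4 : (4:ℝ) = Real.exp (Real.log 4) := (Real.exp_log (by norm_num)).symm
    rw [hsq _ hcp0, hrp, h4, ← Real.exp_add, ← Real.exp_add, ← Real.exp_add]
    apply Real.exp_le_exp.2
    have hCc : C * c ≤ C := by nlinarith
    nlinarith

end

end Pool.Agent.Helper37.WMC
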