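import Pool.Agent.Helper37.WMC.Zer

/-! The mean square of `1/(s ζ(s))` at high frequencies. -/

set_option autoImplicit false

open Filter Topology Set MeasureTheory
open scoped ENNReal

namespace Pool.Agent.Helper37.WMC

open Pool.Agent.H295R2 Pool.Agent.Helper37.WMH

noncomputable section

lemma pois_integrable {c : ℝ} (hc : 0 < c) (γ : ℝ) : Integrable (fun t : ℝ => c / (c ^ 2 + (t - γ) ^ 2)) ∧
    ∫ t : ℝ, c / (c ^ 2 + (t - γ) ^ 2) = Real.pi := by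
  have e : (fun t : ℝ => c / (c ^ 2 + (t - γ) ^ 2)) = fun t : ℝ => (fun x : ℝ => c⁻¹ * (1 + (x * c⁻¹) ^ 2)⁻¹) (t - γ) := by
    funext t
    simp only
    field_simp
  have h1 : Integrable (fun x : ℝ => c⁻¹ * (1 + (x * c⁻¹) ^ 2)⁻¹) := by
    refine Integrable.const_mul ?_ _
    exact integrable_inv_one_add_sq.comp_mul_right' (inv_ne_zero hc.ne')
  rw [e]
  refine ⟨h1.comp_sub_right γ, ?_⟩
  rw [integral_sub_right_eq_self (fun x : ℝ => c⁻¹ * (1 + (x * c⁻¹) ^ 2)⁻¹) γ, integral_const_mul,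
    Measure.integral_comp_mul_right (fun x : ℝ => (1 + x ^ 2)⁻¹) c⁻¹, integral_univ_inv_one_add_sq, inv_inv,
    abs_of_pos hc, smul_eq_mul, ← mul_assoc, inv_mul_cancel₀ hc.ne', one_mul]

lemma pois_lint {c : ℝ} (hc : 0 < c) (γ : ℝ) : ∫⁻ t : ℝ, ENNReal.ofReal (c / (c ^ 2 + (t - γ) ^ 2)) = ENNReal.ofReal Real.pi := by
  rw [← ofReal_integral_eq_lintegral_ofReal (pois_integrable hc γ).1 (Eventually.of_forall fun t => by positivity),
    (pois_integrable hc γ).2]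

/-- the square of the band filter -/
def qw (T t : ℝ) : ℝ := T ^ 2 * t ^ 2 / (T ^ 2 + t ^ 2) ^ 2

/-- the weight of a zero -/
def vw (T t : ℝ) : ℝ := T * t / (T ^ 2 + t ^ 2)

lemma vw_nonneg {T t : ℝ} (hT : 0 ≤ T) (ht : 0 ≤ t) : 0 ≤ vw T t := by
  unfold vw; positivity

lemma qw_nonneg (T t : ℝ) : 0 ≤ qw T t := by
  unfold qw; positivity

lemma qw_vw {T t : ℝ} : qw T t = vw T t ^ 2 := by
  unfold qw vw
  rw [div_pow, mul_pow]

lemma pow_qw {T t c : ℝ} (hT : Real.exp 1 ≤ T) (ht : 1 ≤ t) (hc : c ≤ 1 / Real.log T) :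
    t ^ c * qw T t ≤ Real.exp 1 * vw T t := by
  have hT0 : 0 < T := (Real.exp_pos 1).trans_le hT
  have ht0 : 0 < t := by linarith
  have hl : 1 ≤ Real.log T := by
    rw [Real.le_log_iff_exp_le hT0]; exact hT
  have hlt : 0 ≤ Real.log t := Real.log_nonneg ht
  have hv : 0 < vw T t := by unfold vw; positivity
  have h1 : t ^ c * vw T t ≤ Real.exp 1 := by
    have h2 : t ^ c ≤ t ^ (1 / Real.log T) := Real.rpow_le_rpow_of_exponent_le ht hc
    have h3 : t ^ (1 / Real.log T) = Real.exp (Real.log t / Real.log T) := by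
      rw [Real.rpow_def_of_pos ht0]; congr 1; ring
    unfold vw
    rw [mul_div_assoc', div_le_iff₀ (by positivity)]
    rcases le_total t T with h | h
    · have h4 : t ^ c ≤ Real.exp 1 := by
        refine h2.trans ?_
        rw [h3]
        apply Real.exp_le_exp.2
        exact (div_le_one (by linarith)).2 (Real.log_le_log ht0 h)
      have h5 : T * t ≤ T ^ 2 + t ^ 2 := by nlinarith [sq_nonneg (T - t)]
      gcongr
    · have h4 : t ^ c ≤ Real.exp 1 * (t / T) := by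
        refine h2.trans ?_
        rw [h3]
        have h5 : Real.exp 1 * (t / T) = Real.exp (1 + Real.log (t / T)) := by
          rw [Real.exp_add, Real.exp_log (by positivity)]
        rw [h5]
        apply Real.exp_le_exp.2
        rw [Real.log_div ht0.ne' hT0.ne', div_le_iff₀ (by linarith)]
        have h6 : Real.log T ≤ Real.log t := Real.log_le_log hT0 h
        nlinarith
      calc t ^ c * (T * t) ≤ Real.exp 1 * (t / T) * (T * t) := by gcongr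
        _ = Real.exp 1 * t ^ 2 := by field_simp
        _ ≤ Real.exp 1 * (T ^ 2 + t ^ 2) := by
            have : 0 ≤ Real.exp 1 * T ^ 2 := by positivity
            linarith
  calc t ^ c * qw T t = (t ^ c * vw T t) * vw T t := by rw [qw_vw]; ring
    _ ≤ _ := by gcongr

lemma vw_left {T t a : ℝ} (hT : 0 < T) (ha : 0 < a) (h1 : a ≤ t) (h2 : t ≤ 4 * a) : vw T t ≤ 16 * vw T a := by
  unfold vw
  rw [mul_div_assoc', div_le_div_iff₀ (by positivity) (by positivity)]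
  have h3 : T * t * (T ^ 2 + a ^ 2) ≤ T * (4 * a) * (T ^ 2 + a ^ 2) := by gcongr
  have h4 : T * (4 * a) * (T ^ 2 + a ^ 2) ≤ T * (4 * a) * (T ^ 2 + t ^ 2) := by gcongr
  have h5 : 0 ≤ T * a * (T ^ 2 + t ^ 2) := by positivity
  nlinarith

lemma vw_right {T t b : ℝ} (hT : 0 < T) (hb : 0 < b) (h1 : t ≤ b) (h2 : b ≤ 4 * t) : vw T t ≤ 16 * vw T b := by
  have ht : 0 < t := by linarith
  unfold vw
  rw [mul_div_assoc', div_le_div_iff₀ (by positivity) (by positivity)]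
  have h3 : T * t * (T ^ 2 + b ^ 2) ≤ T * b * (T ^ 2 + b ^ 2) := by gcongr
  have h4 : T ^ 2 + b ^ 2 ≤ 16 * (T ^ 2 + t ^ 2) := by nlinarith
  have h5 : T * b * (T ^ 2 + b ^ 2) ≤ T * b * (16 * (T ^ 2 + t ^ 2)) := by gcongr
  nlinarith

/-- the sum over the zeros -/
def Sz (T : ℝ) : ℝ≥0∞ := ∑' ρ : NT, ENNReal.ofReal (‖aa ρ‖ ^ 2 * vw T |(ρ : ℂ).im|)

lemma sum_fst (hR : RHS) (g : ℂ → ℝ≥0∞) : ∑' p : Pr, g (p : ℂ × ℂ).1 ≤ ∑' ρ : NT, g ρ := by
  have h1 : Function.Injective (fun p : Pr => (⟨(p : ℂ × ℂ).1, p.2.1.m1⟩ : NT)) := by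
    intro p q h
    apply Subtype.ext
    apply fst_inj hR p.2 q.2
    exact congrArg Subtype.val h
  exact ENNReal.tsum_comp_le_tsum_of_injective h1 (fun ρ : NT => g ρ)

lemma sum_snd (hR : RHS) (g : ℂ → ℝ≥0∞) : ∑' p : Pr, g (p : ℂ × ℂ).2 ≤ ∑' ρ : NT, g ρ := by
  have h1 : Function.Injective (fun p : Pr => (⟨(p : ℂ × ℂ).2, p.2.1.m2⟩ : NT)) := by
    intro p q h
    apply Subtype.ext
    apply snd_inj hR p.2 q.2
    exact congrArg Subtype.val h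
  exact ENNReal.tsum_comp_le_tsum_of_injective h1 (fun ρ : NT => g ρ)

theorem far_c0 (hR : RHS) : ∃ C t₀ : ℝ, 0 < C ∧ 20 ≤ t₀ ∧ ∀ T : ℝ, Real.exp 1 ≤ T → ∀ c : ℝ, 0 < c →
    c ≤ 1 / Real.log T →
    ENNReal.ofReal c * ∫⁻ t in Ici t₀, ‖HH ⟨1 / 2 + c, t⟩‖ₑ ^ 2 * ENNReal.ofReal (qw T t) ≤
      ENNReal.ofReal C * Sz T := by
  obtain ⟨C, hC, hb⟩ := HH_between hR
  obtain ⟨t₀, ht₀, hex⟩ := exists_pair
  have hpi := Real.pi_pos
  refine ⟨C * Real.exp 1 * 16 * (2 * Real.pi) * 2, t₀, by positivity, ht₀, fun T hT c hc hcT => ?_⟩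
  have hT0 : 0 < T := (Real.exp_pos 1).trans_le hT
  have hl : 1 ≤ Real.log T := by
    rw [Real.le_log_iff_exp_le hT0]; exact hT
  have hc1 : c ≤ 1 := hcT.trans ((div_le_one (by linarith)).2 hl)
  set f : ℝ → ℝ≥0∞ := fun t => ‖HH ⟨1 / 2 + c, t⟩‖ₑ ^ 2 * ENNReal.ofReal (qw T t) with hf
  set g : ℂ → ℝ≥0∞ := fun ρ => ENNReal.ofReal (‖aa ρ‖ ^ 2 * vw T |ρ.im|) with hg
  have : Countable Pr := (Pr_countable hR).to_subtype
  -- covering
  have hcov : Ici t₀ ⊆ (⋃ p : Pr, Ioo (p : ℂ × ℂ).1.im (p : ℂ × ℂ).2.im) ∪ ((fun ρ : ℂ => ρ.im) '' NT) := by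
    intro t ht
    by_cases h : ∃ ρ ∈ NT, ρ.im = t
    · obtain ⟨ρ, hρ, he⟩ := h
      exact Or.inr ⟨ρ, hρ, he⟩
    · push Not at h
      obtain ⟨p, hp, h1, h2⟩ := hex t ht h
      exact Or.inl (mem_iUnion.2 ⟨⟨p, hp⟩, h1, h2⟩)
  have hnull : volume ((fun ρ : ℂ => ρ.im) '' NT) = 0 := (NT_countable.image _).measure_zero _
  have h1 : ∫⁻ t in Ici t₀, f t ≤ ∑' p : Pr, ∫⁻ t in Ioo (p : ℂ × ℂ).1.im (p : ℂ × ℂ).2.im, f t := by
    calc ∫⁻ t in Ici t₀, f t ≤ ∫⁻ t in (⋃ p : Pr, Ioo (p : ℂ × ℂ).1.im (p : ℂ × ℂ).2.im) ∪ ((fun ρ : ℂ => ρ.im) '' NT), f t :=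
          lintegral_mono_set hcov
      _ ≤ (∫⁻ t in (⋃ p : Pr, Ioo (p : ℂ × ℂ).1.im (p : ℂ × ℂ).2.im), f t) + ∫⁻ t in ((fun ρ : ℂ => ρ.im) '' NT), f t :=
          lintegral_union_le _ _ _
      _ = ∫⁻ t in (⋃ p : Pr, Ioo (p : ℂ × ℂ).1.im (p : ℂ × ℂ).2.im), f t := by
          rw [setLIntegral_measure_zero _ _ hnull, add_zero]
      _ ≤ _ := lintegral_iUnion_le _ _
  -- one gap
  have h2 : ∀ p : Pr, ENNReal.ofReal c * ∫⁻ t in Ioo (p : ℂ × ℂ).1.im (p : ℂ × ℂ).2.im, f t ≤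
      ENNReal.ofReal (C * Real.exp 1 * 16 * (2 * Real.pi)) * (g (p : ℂ × ℂ).1 + g (p : ℂ × ℂ).2) := by
    rintro ⟨⟨ρ₁, ρ₂⟩, hcons, hp1, hp4⟩
    simp only at hcons hp1 hp4
    simp only
    set a : ℝ := ρ₁.im with ha
    set b : ℝ := ρ₂.im with hbb
    have hab : a < b := hcons.lt
    set B : ℝ := ‖aa ρ₁‖ ^ 2 * vw T |a| + ‖aa ρ₂‖ ^ 2 * vw T |b| with hB
    have hva : 0 ≤ vw T |a| := vw_nonneg hT0.le (abs_nonneg _)
    have hvb : 0 ≤ vw T |b| := vw_nonneg hT0.le (abs_nonneg _)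
    have hB0 : 0 ≤ B := by positivity
    have hpt : ∀ t ∈ Ioo a b, ENNReal.ofReal c * f t ≤ ENNReal.ofReal (C * Real.exp 1 * 16 * B) *
        (ENNReal.ofReal (c / (c ^ 2 + (t - a) ^ 2)) + ENNReal.ofReal (c / (c ^ 2 + (t - b) ^ 2))) := by
      rintro t ⟨hta, htb⟩
      have ht1 : 1 ≤ t := by linarith
      have ht0 : 0 < t := by linarith
      have h3 := hb ρ₁ ρ₂ hcons hp1 hp4 t hta htb c hc hc1
      have h4 := pow_qw hT ht1 hcT
      have h5 : vw T t ≤ 16 * vw T |a| := by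
        rw [abs_of_pos (by linarith)]
        exact vw_left hT0 (by linarith) hta.le (by linarith)
      have h6 : vw T t ≤ 16 * vw T |b| := by
        rw [abs_of_pos (by linarith)]
        exact vw_right hT0 (by linarith) htb.le (by linarith)
      rw [hf]
      simp only
      rw [← ofReal_norm, ← ENNReal.ofReal_pow (norm_nonneg _), ← ENNReal.ofReal_mul (by positivity),
        ← ENNReal.ofReal_mul hc.le, ← ENNReal.ofReal_add (by positivity) (by positivity), ← ENNReal.ofReal_mul (by positivity)]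
      apply ENNReal.ofReal_le_ofReal
      set S : ℝ := 1 / (c ^ 2 + (t - a) ^ 2) + 1 / (c ^ 2 + (t - b) ^ 2) with hS
      have hS0 : 0 ≤ S := by positivity
      have e1 : c / (c ^ 2 + (t - a) ^ 2) + c / (c ^ 2 + (t - b) ^ 2) = c * S := by rw [hS]; ring
      rw [e1]
      have h7 : (t ^ c * qw T t) * (‖aa ρ₁‖ ^ 2 + ‖aa ρ₂‖ ^ 2) ≤ Real.exp 1 * 16 * B := by
        calc (t ^ c * qw T t) * (‖aa ρ₁‖ ^ 2 + ‖aa ρ₂‖ ^ 2) ≤ (Real.exp 1 * vw T t) * (‖aa ρ₁‖ ^ 2 + ‖aa ρ₂‖ ^ 2) := by gcongr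
          _ = Real.exp 1 * (‖aa ρ₁‖ ^ 2 * vw T t + ‖aa ρ₂‖ ^ 2 * vw T t) := by ring
          _ ≤ Real.exp 1 * (‖aa ρ₁‖ ^ 2 * (16 * vw T |a|) + ‖aa ρ₂‖ ^ 2 * (16 * vw T |b|)) := by gcongr
          _ = _ := by rw [hB]; ring
      calc c * (‖HH ⟨1 / 2 + c, t⟩‖ ^ 2 * qw T t)
          ≤ c * ((C * t ^ c * (‖aa ρ₁‖ ^ 2 + ‖aa ρ₂‖ ^ 2) * S) * qw T t) := by
            have := qw_nonneg T t
            gcongr
        _ = C * c * S * ((t ^ c * qw T t) * (‖aa ρ₁‖ ^ 2 + ‖aa ρ₂‖ ^ 2)) := by ring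
        _ ≤ C * c * S * (Real.exp 1 * 16 * B) := by gcongr
        _ = _ := by ring
    have hmeas : ∀ γ : ℝ, Measurable (fun t : ℝ => ENNReal.ofReal (c / (c ^ 2 + (t - γ) ^ 2))) := fun γ => by fun_prop
    calc ENNReal.ofReal c * ∫⁻ t in Ioo a b, f t = ∫⁻ t in Ioo a b, ENNReal.ofReal c * f t :=
          (lintegral_const_mul' _ _ ENNReal.ofReal_ne_top).symm
      _ ≤ ∫⁻ t in Ioo a b, ENNReal.ofReal (C * Real.exp 1 * 16 * B) *
            (ENNReal.ofReal (c / (c ^ 2 + (t - a) ^ 2)) + ENNReal.ofReal (c / (c ^ 2 + (t - b) ^ 2))) :=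
          setLIntegral_mono' measurableSet_Ioo hpt
      _ ≤ ∫⁻ t, ENNReal.ofReal (C * Real.exp 1 * 16 * B) *
            (ENNReal.ofReal (c / (c ^ 2 + (t - a) ^ 2)) + ENNReal.ofReal (c / (c ^ 2 + (t - b) ^ 2))) :=
          setLIntegral_le_lintegral _ _
      _ = ENNReal.ofReal (C * Real.exp 1 * 16 * B) * (ENNReal.ofReal Real.pi + ENNReal.ofReal Real.pi) := by
          rw [lintegral_const_mul' _ _ ENNReal.ofReal_ne_top, lintegral_add_left (hmeas a), pois_lint hc, pois_lint hc]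
      _ = ENNReal.ofReal (C * Real.exp 1 * 16 * (2 * Real.pi)) * (g ρ₁ + g ρ₂) := by
          rw [hg]
          simp only
          rw [← ENNReal.ofReal_add hpi.le hpi.le, ← ENNReal.ofReal_mul (by positivity), ← ha, ← hbb,
            ← ENNReal.ofReal_add (by positivity) (by positivity), ← ENNReal.ofReal_mul (by positivity), ← hB]
          congr 1; ring
  calc ENNReal.ofReal c * ∫⁻ t in Ici t₀, f t
      ≤ ENNReal.ofReal c * ∑' p : Pr, ∫⁻ t in Ioo (p : ℂ × ℂ).1.im (p : ℂ × ℂ).2.im, f t := by gcongr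
    _ = ∑' p : Pr, ENNReal.ofReal c * ∫⁻ t in Ioo (p : ℂ × ℂ).1.im (p : ℂ × ℂ).2.im, f t := ENNReal.tsum_mul_left.symm
    _ ≤ ∑' p : Pr, ENNReal.ofReal (C * Real.exp 1 * 16 * (2 * Real.pi)) * (g (p : ℂ × ℂ).1 + g (p : ℂ × ℂ).2) :=
        ENNReal.tsum_le_tsum h2
    _ = ENNReal.ofReal (C * Real.exp 1 * 16 * (2 * Real.pi)) * (∑' p : Pr, g (p : ℂ × ℂ).1 + ∑' p : Pr, g (p : ℂ × ℂ).2) := by
        rw [ENNReal.tsum_mul_left, ENNReal.tsum_add]
    _ ≤ ENNReal.ofReal (C * Real.exp 1 * 16 * (2 * Real.pi)) * (Sz T + Sz T) := by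
        gcongr
        · exact sum_fst hR g
        · exact sum_snd hR g
    _ = _ := by
        rw [← two_mul, ENNReal.ofReal_mul' (q := 2) (by norm_num)]
        have : ENNReal.ofReal 2 = 2 := by norm_num
        rw [this]
        ring

end

end Pool.Agent.Helper37.WMC
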