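import Pool.Agent.Helper37.WMC.Trig

/-! Limiting distributions of functions whose characteristic functions have means. -/

set_option autoImplicit false

open MeasureTheory Filter Topology Set
open scoped ENNReal RealInnerProductSpace BoundedContinuousFunction

namespace Pool.Agent.Helper37.WMC

noncomputable section

variable {E : Type*} [NormedAddCommGroup E] [InnerProductSpace ℝ E] [FiniteDimensional ℝ E]
  [MeasurableSpace E] [BorelSpace E]

/-- the law of `F v`, `0 < v ≤ max V 1` -/
def lawM (F : ℝ → E) (V : ℝ) : Measure E :=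
  Measure.map F ((ENNReal.ofReal (max V 1))⁻¹ • volume.restrict (Ioc 0 (max V 1)))

lemma lawM_prob {F : ℝ → E} (hF : Measurable F) (V : ℝ) : IsProbabilityMeasure (lawM F V) := by
  unfold lawM
  have h1 : (0:ℝ) < max V 1 := lt_of_lt_of_le one_pos (le_max_right _ _)
  have : IsProbabilityMeasure ((ENNReal.ofReal (max V 1))⁻¹ • volume.restrict (Ioc (0:ℝ) (max V 1))) := by
    constructor
    rw [Measure.smul_apply, Measure.restrict_apply_univ, Real.volume_Ioc, sub_zero, smul_eq_mul]
    exact ENNReal.inv_mul_cancel (by simpa using h1) ENNReal.ofReal_ne_top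
  exact Measure.isProbabilityMeasure_map hF.aemeasurable

/-- the law as a probability measure -/
def law {F : ℝ → E} (hF : Measurable F) (V : ℝ) : ProbabilityMeasure E := ⟨lawM F V, lawM_prob hF V⟩

lemma law_integral {G : Type*} [NormedAddCommGroup G] [NormedSpace ℝ G] {F : ℝ → E} (hF : Measurable F) {φ : E → G}
    (hφ : StronglyMeasurable φ) {V : ℝ} (hV : 1 ≤ V) :
    ∫ x, φ x ∂(law hF V : Measure E) = V⁻¹ • ∫ v in Ioc 0 V, φ (F v) := by
  show ∫ x, φ x ∂(lawM F V) = _
  unfold lawM
  rw [integral_map hF.aemeasurable hφ.aestronglyMeasurable, max_eq_left hV, integral_smul_measure, ENNReal.toReal_inv,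
    ENNReal.toReal_ofReal (by linarith)]

theorem exists_law {F : ℝ → E} (hF : Measurable F) (hFi : ∀ V : ℝ, IntegrableOn F (Ioc 0 V)) {B : ℝ}
    (hB : ∀ᶠ V : ℝ in atTop, ∫ v in Ioc 0 V, ‖F v‖ ≤ B * V)
    (hc : ∀ t : E, ∃ z, MeanOf (fun v => Complex.exp (((⟪F v, t⟫ : ℝ) : ℂ) * Complex.I)) z) :
    ∃ ν : ProbabilityMeasure E, Tendsto (law hF) atTop (𝓝 ν) := by
  choose f hf using hc
  have hB0 : 0 ≤ B := by
    obtain ⟨V, hV, hV0⟩ := (hB.and (eventually_gt_atTop (0:ℝ))).exists
    have : 0 ≤ ∫ v in Ioc 0 V, ‖F v‖ := integral_nonneg fun _ => norm_nonneg _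
    by_contra h
    push Not at h
    nlinarith
  -- characteristic functions
  have hchar : ∀ t : E, Tendsto (fun V : ℝ => charFun (law hF V : Measure E) t) atTop (𝓝 (f t)) := by
    intro t
    refine (hf t).congr' ?_
    filter_upwards [eventually_ge_atTop (1:ℝ)] with V hV
    rw [charFun_apply, law_integral hF (by fun_prop) hV]
    rw [Complex.real_smul, div_eq_inv_mul]
    push_cast
    rfl
  have hcm : ∀ t : E, Continuous (fun x : E => Complex.exp (((⟪x, t⟫ : ℝ) : ℂ) * Complex.I)) := by
    intro t; fun_prop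
  have hexp : ∀ a : ℝ, ‖Complex.exp ((a : ℂ) * Complex.I) - 1‖ ≤ |a| := by
    intro a
    rw [mul_comm]
    exact Real.norm_exp_I_mul_ofReal_sub_one_le
  -- continuity at zero
  have hf0 : f 0 = 1 := by
    have h1 := hchar 0
    simp only [charFun_zero] at h1
    have h2 : (fun V : ℝ => (((law hF V : Measure E).real univ : ℝ) : ℂ)) = fun _ => 1 := by
      funext V; simp
    rw [h2] at h1
    exact tendsto_nhds_unique h1 tendsto_const_nhds
  have hfb : ∀ t : E, ‖f t - 1‖ ≤ B * ‖t‖ := by
    intro t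
    have h1 := (hf t).sub_const 1
    refine le_of_tendsto h1.norm ?_
    filter_upwards [hB, eventually_gt_atTop (0:ℝ)] with V hV hV0
    have hV' : (V:ℂ) ≠ 0 := by exact_mod_cast hV0.ne'
    have i1 : IntegrableOn (fun v : ℝ => Complex.exp (((⟪F v, t⟫ : ℝ) : ℂ) * Complex.I)) (Ioc 0 V) := by
      refine Integrable.mono' (g := fun _ => (1:ℝ)) (integrableOn_const (by simp)) ?_ ?_
      · exact ((hcm t).measurable.comp hF).aestronglyMeasurable
      · exact Eventually.of_forall fun v => by rw [Complex.norm_exp_ofReal_mul_I]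
    have e1 : (∫ v in Ioc 0 V, Complex.exp (((⟪F v, t⟫ : ℝ) : ℂ) * Complex.I)) / V - 1 =
        (∫ v in Ioc 0 V, (Complex.exp (((⟪F v, t⟫ : ℝ) : ℂ) * Complex.I) - 1)) / V := by
      rw [integral_sub i1 (integrableOn_const (by simp)), setIntegral_const, Real.volume_real_Ioc_of_le hV0.le, sub_zero,
        Complex.real_smul, mul_one, sub_div, div_self hV']
    rw [e1, norm_div, Complex.norm_real, Real.norm_of_nonneg hV0.le, div_le_iff₀ hV0]
    calc ‖∫ v in Ioc 0 V, (Complex.exp (((⟪F v, t⟫ : ℝ) : ℂ) * Complex.I) - 1)‖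
        ≤ ∫ v in Ioc 0 V, ‖F v‖ * ‖t‖ := by
          refine norm_integral_le_of_norm_le ((hFi V).norm.mul_const _) (Eventually.of_forall fun v => ?_)
          exact (hexp _).trans (abs_real_inner_le_norm _ _)
      _ = (∫ v in Ioc 0 V, ‖F v‖) * ‖t‖ := integral_mul_const _ _
      _ ≤ B * V * ‖t‖ := by gcongr
      _ = _ := by ring
  have hcont : ContinuousAt f 0 := by
    rw [ContinuousAt, hf0, tendsto_iff_norm_sub_tendsto_zero]
    refine squeeze_zero (fun _ => norm_nonneg _) hfb ?_
    have : Tendsto (fun t : E => B * ‖t‖) (𝓝 0) (𝓝 (B * ‖(0:E)‖)) := by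
      apply Continuous.tendsto; fun_prop
    simpa using this
  -- tightness along the integers
  have hseq : ∀ t, Tendsto (fun n : ℕ => charFun (law hF (n : ℝ) : Measure E) t) atTop (𝓝 (f t)) := fun t =>
    (hchar t).comp tendsto_natCast_atTop_atTop
  have ht : IsTightMeasureSet (Set.range (fun n : ℕ => (law hF (n : ℝ) : Measure E))) :=
    isTightMeasureSet_of_tendsto_charFun hcont hseq
  have hcp : IsCompact (closure (Set.range (fun n : ℕ => law hF (n : ℝ)))) := by
    apply isCompact_closure_of_isTightMeasureSet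
    refine ht.subset ?_
    rintro _ ⟨_, ⟨n, rfl⟩, rfl⟩
    exact ⟨n, rfl⟩
  obtain ⟨ν, _, hν⟩ := hcp.exists_mapClusterPt (f := (atTop : Filter ℕ)) (u := fun n : ℕ => law hF (n : ℝ))
    (by
      rw [le_principal_iff, mem_map]
      exact Eventually.of_forall fun n => subset_closure ⟨n, rfl⟩)
  have hchν : ∀ t, charFun (ν : Measure E) t = f t := by
    intro t
    have hcc : Continuous (fun μ : ProbabilityMeasure E => charFun (μ : Measure E) t) := by
      rw [continuous_iff_continuousAt]
      intro μ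
      have h3 := (ProbabilityMeasure.tendsto_iff_forall_integral_rclike_tendsto (γ := ProbabilityMeasure E) ℂ
        (F := 𝓝 μ) (μs := fun x => x) (μ := μ)).1 tendsto_id (BoundedContinuousFunction.innerProbChar t)
      unfold ContinuousAt
      simp_rw [charFun_eq_integral_innerProbChar]
      exact h3
    have h4 : MapClusterPt (charFun (ν : Measure E) t) atTop (fun n : ℕ => charFun (law hF (n : ℝ) : Measure E) t) :=
      hν.continuousAt_comp hcc.continuousAt
    have h5 : ClusterPt (charFun (ν : Measure E) t) (𝓝 (f t)) := h4.clusterPt.mono (hseq t)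
    exact eq_of_nhds_neBot h5
  refine ⟨ν, ?_⟩
  rw [tendsto_iff_seq_tendsto]
  intro u hu
  apply ProbabilityMeasure.tendsto_of_tendsto_charFun
  intro t
  rw [hchν]
  exact (hchar t).comp hu

end

end Pool.Agent.Helper37.WMC
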