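import Pool.Agent.Helper37.WMC.Gam
import Pool.Agent.Helper37.WMH.Part2

/-! The bound for `1/(s ζ(s))` between two consecutive zeros. -/

set_option autoImplicit false

open Filter Topology Set Complex

namespace Pool.Agent.Helper37.WMC

open Pool.Agent.H295R2 Pool.Agent.Helper37.WMH

noncomputable section

lemma pos_of_sq {x : ℝ} (h0 : 0 ≤ x) (h : 0 < x ^ 2) : 0 < x := by
  rcases h0.eq_or_lt with h1 | h1
  · rw [← h1] at h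
    norm_num at h
  · exact h1

/-- consecutive zeros -/
structure Cons (ρ₁ ρ₂ : ℂ) : Prop where
  m1 : ρ₁ ∈ NT
  m2 : ρ₂ ∈ NT
  lt : ρ₁.im < ρ₂.im
  no : ∀ ρ ∈ NT, ¬ (ρ₁.im < ρ.im ∧ ρ.im < ρ₂.im)

lemma HH_gx {s : ℂ} (h0 : 0 < s.re) (h1 : s ≠ 1) : HH s = (1 - s) * Gammaℝ s / gx (s - 1 / 2) := by
  have hs0 : s ≠ 0 := by
    rintro rfl
    simp at h0
  have hA := Af_ne h0 h1
  rw [HH_eq h1, gx_eq h0 h1]
  have hG : Gammaℝ s ≠ 0 := Gammaℝ_ne_zero_of_re_pos h0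
  have h1' : 1 - s ≠ 0 := sub_ne_zero.2 h1.symm
  by_cases hz : riemannZeta s = 0
  · rw [hz]; simp
  · unfold Af
    field_simp

lemma aa_gx (hR : RHS) {ρ : ℂ} (h : ρ ∈ NT) : aa ρ = (1 - ρ) * Gammaℝ ρ / deriv gx (ρ - 1 / 2) := by
  have h0 : 0 < ρ.re := h.2.1
  have h1 : ρ ≠ 1 := (NT_im_ne h).2
  have hs0 : ρ ≠ 0 := (NT_im_ne h).1
  have hG : Gammaℝ ρ ≠ 0 := Gammaℝ_ne_zero_of_re_pos h0
  have h1' : 1 - ρ ≠ 0 := sub_ne_zero.2 h1.symm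
  rw [gx_deriv h0 h1 h.1]
  have hd := (hR ρ h).2
  unfold aa Af
  field_simp

/-- the derivative of `gx` at a zero -/
lemma inv_deriv (hR : RHS) {κ : ℝ} (hκ : 0 < κ) {ρ : ℂ} (h : ρ ∈ NT) (h1 : 1 ≤ ρ.im)
    (hG : κ * (ρ.im ^ (-(1 / 2) : ℝ) * Real.exp (-(Real.pi * ρ.im / 2))) ≤ ‖Gammaℝ ⟨1 / 2, ρ.im⟩‖ ^ 2) :
    0 < ‖deriv gx (ρ.im * I)‖ ^ 2 ∧
    Real.exp (-(Real.pi * ρ.im / 2)) / ‖deriv gx (ρ.im * I)‖ ^ 2 ≤ κ⁻¹ * ρ.im ^ (-(3 / 2) : ℝ) * ‖aa ρ‖ ^ 2 := by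
  have e : ρ - 1 / 2 = ρ.im * I := by
    apply Complex.ext
    · simp [(hR ρ h).1]
    · simp
  have hd : deriv gx (ρ.im * I) ≠ 0 := by
    rw [← e]
    exact (gx_zeros hR _ (by
      rw [gx_zero_iff (by rw [Complex.sub_re, (hR ρ h).1]; norm_num)]
      have : (1 / 2 + (ρ - 1 / 2) : ℂ) = ρ := by ring
      rw [this]; exact h)).2
  have hY : 0 < ‖deriv gx (ρ.im * I)‖ ^ 2 := by
    have := norm_pos_iff.2 hd
    positivity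
  refine ⟨hY, ?_⟩
  set γ : ℝ := ρ.im with hγ
  have hγ0 : 0 < γ := by linarith
  have h2 := aa_gx hR h
  rw [e] at h2
  have h3 : ‖aa ρ‖ ^ 2 * ‖deriv gx (γ * I)‖ ^ 2 = ‖1 - ρ‖ ^ 2 * ‖Gammaℝ ρ‖ ^ 2 := by
    rw [h2, norm_div, norm_mul, div_pow, mul_pow, div_mul_cancel₀ _ hY.ne']
  have h4 : γ ^ 2 ≤ ‖1 - ρ‖ ^ 2 := by
    rw [← Complex.normSq_eq_norm_sq, Complex.normSq_apply]
    have : (1 - ρ).im = -γ := by rw [Complex.sub_im, Complex.one_im, hγ]; ring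
    rw [this]
    nlinarith [mul_self_nonneg (1 - ρ).re]
  rw [mk_im hR h] at hG
  have h5 : γ ^ 2 * (κ * (γ ^ (-(1 / 2) : ℝ) * Real.exp (-(Real.pi * γ / 2)))) ≤ ‖aa ρ‖ ^ 2 * ‖deriv gx (γ * I)‖ ^ 2 := by
    rw [h3]
    gcongr
  have h6 : γ ^ 2 * γ ^ (-(1 / 2) : ℝ) * γ ^ (-(3 / 2) : ℝ) = 1 := by
    rw [← Real.rpow_natCast γ 2, ← Real.rpow_add hγ0, ← Real.rpow_add hγ0]
    norm_num
  rw [div_le_iff₀ hY]
  have h7 : 0 < κ⁻¹ * γ ^ (-(3 / 2) : ℝ) := by positivity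
  calc Real.exp (-(Real.pi * γ / 2))
      = κ⁻¹ * γ ^ (-(3 / 2) : ℝ) * (γ ^ 2 * (κ * (γ ^ (-(1 / 2) : ℝ) * Real.exp (-(Real.pi * γ / 2))))) := by
        calc Real.exp (-(Real.pi * γ / 2)) = (κ⁻¹ * κ) * (γ ^ 2 * γ ^ (-(1 / 2) : ℝ) * γ ^ (-(3 / 2) : ℝ)) *
              Real.exp (-(Real.pi * γ / 2)) := by rw [h6, inv_mul_cancel₀ hκ.ne']; ring
          _ = _ := by ring
    _ ≤ κ⁻¹ * γ ^ (-(3 / 2) : ℝ) * (‖aa ρ‖ ^ 2 * ‖deriv gx (γ * I)‖ ^ 2) := by gcongr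
    _ = _ := by ring

theorem HH_between (hR : RHS) : ∃ C : ℝ, 0 < C ∧ ∀ ρ₁ ρ₂ : ℂ, Cons ρ₁ ρ₂ → 1 ≤ ρ₁.im → ρ₂.im ≤ 4 * ρ₁.im →
    ∀ t : ℝ, ρ₁.im < t → t < ρ₂.im → ∀ c : ℝ, 0 < c → c ≤ 1 →
    ‖HH ⟨1 / 2 + c, t⟩‖ ^ 2 ≤ C * t ^ c * (‖aa ρ₁‖ ^ 2 + ‖aa ρ₂‖ ^ 2) *
      (1 / (c ^ 2 + (t - ρ₁.im) ^ 2) + 1 / (c ^ 2 + (t - ρ₂.im) ^ 2)) := by
  obtain ⟨κ, C, hκ, hC, hG⟩ := gamma_line
  obtain ⟨K, hK, hgr⟩ := gx_growth
  refine ⟨2 * C * (8 * κ⁻¹) * 2, by positivity, fun ρ₁ ρ₂ hc h1 h4 t ht1 ht2 c hc0 hc1 => ?_⟩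
  set a : ℝ := ρ₁.im with ha
  set b : ℝ := ρ₂.im with hb
  have hab : a < b := hc.lt
  have hba : 0 < b - a := by linarith
  have ht : 1 ≤ t := by linarith
  have ht0 : 0 < t := by linarith
  have hzero : ∀ ρ ∈ NT, gx (ρ.im * I) = 0 := by
    intro ρ h
    have e : (ρ.im * I : ℂ) = ρ - 1 / 2 := by
      apply Complex.ext
      · simp [(hR ρ h).1]
      · simp
    rw [e, gx_zero_iff (by rw [Complex.sub_re, (hR ρ h).1]; norm_num)]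
    have : (1 / 2 + (ρ - 1 / 2) : ℂ) = ρ := by ring
    rw [this]; exact h
  have hno : ∀ x : ℝ, a < x → x < b → gx (x * I) ≠ 0 := by
    intro x hx1 hx2 h
    rw [gx_zero_iff (by simp)] at h
    refine hc.no _ h ⟨?_, ?_⟩
    · simpa using hx1
    · simpa using hx2
  set l : ℝ := (t - a) / (b - a) with hl
  have hl0 : 0 ≤ l := div_nonneg (by linarith) hba.le
  have hl1 : l ≤ 1 := (div_le_one hba).2 (by linarith)
  have hlt : (1 - l) * a + l * b = t := by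
    rw [hl]; field_simp; ring
  set w : ℂ := c + t * I with hw
  have hbt := between gx_diff (gx_zero_ne hR) gx_even hK hgr (gx_zeros hR) hab (hzero ρ₁ hc.m1) (hzero ρ₂ hc.m2) hno
    hl0 hl1 (w := w) (c := c) (by rw [hw, ← hlt]; push_cast; ring)
  obtain ⟨hY1, hu1⟩ := inv_deriv hR hκ hc.m1 (by linarith) (hG ρ₁.im h1).1
  obtain ⟨hY2, hu2⟩ := inv_deriv hR hκ hc.m2 (by linarith) (hG ρ₂.im (by linarith)).1
  rw [← ha] at hu1 hY1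
  rw [← hb] at hu2 hY2
  set X₁ : ℝ := ‖deriv gx (a * I)‖ with hX1
  set X₂ : ℝ := ‖deriv gx (b * I)‖ with hX2
  set α : ℝ := ‖aa ρ₁‖ ^ 2 + ‖aa ρ₂‖ ^ 2 with hα
  have hα0 : 0 ≤ α := by positivity
  have hX1p : 0 < X₁ := pos_of_sq (norm_nonneg _) hY1
  have hX2p : 0 < X₂ := pos_of_sq (norm_nonneg _) hY2
  -- distances
  have dist1 : ∀ γ : ℝ, ‖w - γ * I‖ ^ 2 = c ^ 2 + (t - γ) ^ 2 := by
    intro γ
    rw [← Complex.normSq_eq_norm_sq, Complex.normSq_apply, hw]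
    simp
    ring
  have hd1 : 0 < ‖w - a * I‖ := pos_of_sq (norm_nonneg _) (by rw [dist1]; positivity)
  have hd2 : 0 < ‖w - b * I‖ := pos_of_sq (norm_nonneg _) (by rw [dist1]; positivity)
  have htri : b - a ≤ ‖w - a * I‖ + ‖w - b * I‖ := by
    have h5 : (b - a : ℝ) = ‖(w - a * I) - (w - b * I)‖ := by
      have : (w - a * I) - (w - b * I) = ((b - a : ℝ) : ℂ) * I := by push_cast; ring
      rw [this, norm_mul, norm_I, mul_one, Complex.norm_real, Real.norm_of_nonneg hba.le]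
    rw [h5]
    exact norm_sub_le _ _
  -- lower bound for gx, squared and inverted
  have hgp : 0 < ‖gx w‖ := by
    refine lt_of_lt_of_le ?_ hbt
    positivity
  have hinv : 1 / ‖gx w‖ ^ 2 ≤ (1 / X₁ ^ 2) ^ (1 - l) * (1 / X₂ ^ 2) ^ l * ((b - a) / (‖w - a * I‖ * ‖w - b * I‖)) ^ 2 := by
    have h5 : 1 / ‖gx w‖ ≤ 1 / (X₁ ^ (1 - l) * X₂ ^ l * (‖w - a * I‖ * ‖w - b * I‖ / (b - a))) :=
      one_div_le_one_div_of_le (by positivity) hbt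
    have h6 : 1 / ‖gx w‖ ^ 2 ≤ (1 / (X₁ ^ (1 - l) * X₂ ^ l * (‖w - a * I‖ * ‖w - b * I‖ / (b - a)))) ^ 2 := by
      rw [← one_div_pow]
      gcongr
    refine h6.trans (le_of_eq ?_)
    have h7 : (1 / X₁ ^ 2) ^ (1 - l) = (1 / X₁ ^ (1 - l)) ^ 2 := by
      rw [one_div, one_div, Real.inv_rpow (by positivity), inv_pow, ← Real.rpow_natCast, ← Real.rpow_natCast,
        ← Real.rpow_mul hX1p.le, ← Real.rpow_mul hX1p.le, mul_comm]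
    have h8 : (1 / X₂ ^ 2) ^ l = (1 / X₂ ^ l) ^ 2 := by
      rw [one_div, one_div, Real.inv_rpow (by positivity), inv_pow, ← Real.rpow_natCast, ← Real.rpow_natCast,
        ← Real.rpow_mul hX2p.le, ← Real.rpow_mul hX2p.le, mul_comm]
    rw [h7, h8]
    field_simp
  have hgeo : (1 / X₁ ^ 2) ^ (1 - l) * (1 / X₂ ^ 2) ^ l ≤ 8 * κ⁻¹ * t ^ (-(3 / 2) : ℝ) * α * Real.exp (Real.pi * t / 2) := by
    set u₁ : ℝ := Real.exp (-(Real.pi * a / 2)) / X₁ ^ 2 with hu₁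
    set u₂ : ℝ := Real.exp (-(Real.pi * b / 2)) / X₂ ^ 2 with hu₂
    have hu₁0 : 0 ≤ u₁ := by positivity
    have hu₂0 : 0 ≤ u₂ := by positivity
    have e1 : 1 / X₁ ^ 2 = u₁ * Real.exp (Real.pi * a / 2) := by
      rw [hu₁, div_mul_eq_mul_div, ← Real.exp_add]
      simp
    have e2 : 1 / X₂ ^ 2 = u₂ * Real.exp (Real.pi * b / 2) := by
      rw [hu₂, div_mul_eq_mul_div, ← Real.exp_add]
      simp
    rw [e1, e2, Real.mul_rpow hu₁0 (Real.exp_pos _).le, Real.mul_rpow hu₂0 (Real.exp_pos _).le, ← Real.exp_mul, ← Real.exp_mul]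
    have e3 : u₁ ^ (1 - l) * Real.exp (Real.pi * a / 2 * (1 - l)) * (u₂ ^ l * Real.exp (Real.pi * b / 2 * l)) =
        (u₁ ^ (1 - l) * u₂ ^ l) * Real.exp (Real.pi * t / 2) := by
      have : Real.pi * t / 2 = Real.pi * a / 2 * (1 - l) + Real.pi * b / 2 * l := by rw [← hlt]; ring
      rw [this, Real.exp_add]; ring
    rw [e3]
    have h5 : u₁ ^ (1 - l) * u₂ ^ l ≤ (1 - l) * u₁ + l * u₂ :=
      Real.geom_mean_le_arith_mean2_weighted (by linarith) hl0 hu₁0 hu₂0 (by ring)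
    have h6 : (1 - l) * u₁ + l * u₂ ≤ u₁ + u₂ := by nlinarith
    have r1 : a ^ (-(3 / 2) : ℝ) ≤ 8 * t ^ (-(3 / 2) : ℝ) := by
      have h7 : a ^ (-(3 / 2) : ℝ) ≤ (t / 4) ^ (-(3 / 2) : ℝ) :=
        Real.rpow_le_rpow_of_nonpos (by positivity) (by linarith) (by norm_num)
      refine h7.trans (le_of_eq ?_)
      rw [div_eq_mul_inv, mul_comm, Real.mul_rpow (by norm_num) ht0.le]
      congr 1
      have h8 : (4:ℝ)⁻¹ = 2 ^ (-2 : ℝ) := by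
        rw [Real.rpow_neg (by norm_num)]; norm_num
      rw [h8, ← Real.rpow_mul (by norm_num)]
      norm_num
    have r2 : b ^ (-(3 / 2) : ℝ) ≤ 8 * t ^ (-(3 / 2) : ℝ) := by
      have h7 : b ^ (-(3 / 2) : ℝ) ≤ t ^ (-(3 / 2) : ℝ) :=
        Real.rpow_le_rpow_of_nonpos ht0 (by linarith) (by norm_num)
      have h8 : 0 ≤ t ^ (-(3 / 2) : ℝ) := by positivity
      linarith
    have h9 : u₁ + u₂ ≤ 8 * κ⁻¹ * t ^ (-(3 / 2) : ℝ) * α := by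
      calc u₁ + u₂ ≤ κ⁻¹ * a ^ (-(3 / 2) : ℝ) * ‖aa ρ₁‖ ^ 2 + κ⁻¹ * b ^ (-(3 / 2) : ℝ) * ‖aa ρ₂‖ ^ 2 := add_le_add hu1 hu2
        _ ≤ κ⁻¹ * (8 * t ^ (-(3 / 2) : ℝ)) * ‖aa ρ₁‖ ^ 2 + κ⁻¹ * (8 * t ^ (-(3 / 2) : ℝ)) * ‖aa ρ₂‖ ^ 2 := by gcongr
        _ = _ := by rw [hα]; ring
    exact mul_le_mul_of_nonneg_right ((h5.trans h6).trans h9) (Real.exp_pos _).le
  have hdd : ((b - a) / (‖w - a * I‖ * ‖w - b * I‖)) ^ 2 ≤ 2 * (1 / (c ^ 2 + (t - a) ^ 2) + 1 / (c ^ 2 + (t - b) ^ 2)) := by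
    rw [← dist1 a, ← dist1 b]
    have h5 : (b - a) / (‖w - a * I‖ * ‖w - b * I‖) ≤ 1 / ‖w - a * I‖ + 1 / ‖w - b * I‖ := by
      rw [div_add_div _ _ hd1.ne' hd2.ne', one_mul, mul_one]
      gcongr
      linarith
    have h6 : 0 ≤ (b - a) / (‖w - a * I‖ * ‖w - b * I‖) := by positivity
    calc ((b - a) / (‖w - a * I‖ * ‖w - b * I‖)) ^ 2 ≤ (1 / ‖w - a * I‖ + 1 / ‖w - b * I‖) ^ 2 := by gcongr
      _ ≤ 2 * ((1 / ‖w - a * I‖) ^ 2 + (1 / ‖w - b * I‖) ^ 2) := by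
          nlinarith [sq_nonneg (1 / ‖w - a * I‖ - 1 / ‖w - b * I‖)]
      _ = _ := by rw [one_div_pow, one_div_pow]
  -- the formula for HH
  have hs1 : (⟨1 / 2 + c, t⟩ : ℂ) ≠ 1 := by
    intro h
    have := congrArg Complex.im h
    simp at this
    linarith
  have hH := HH_gx (s := ⟨1 / 2 + c, t⟩) (by simp only; linarith) hs1
  have ew : (⟨1 / 2 + c, t⟩ : ℂ) - 1 / 2 = w := by
    rw [hw]
    apply Complex.ext
    · simp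
    · simp
  rw [ew] at hH
  rw [hH, norm_div, norm_mul, div_pow, mul_pow]
  have h1s : ‖1 - (⟨1 / 2 + c, t⟩ : ℂ)‖ ^ 2 ≤ 2 * t ^ 2 := by
    rw [← Complex.normSq_eq_norm_sq, Complex.normSq_apply]
    simp only [Complex.sub_re, Complex.sub_im, Complex.one_re, Complex.one_im]
    nlinarith
  have hGs := (hG t ht).2 c hc0.le hc1
  set S : ℝ := 1 / (c ^ 2 + (t - a) ^ 2) + 1 / (c ^ 2 + (t - b) ^ 2) with hS
  have hS0 : 0 ≤ S := by positivity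
  have hrp : t ^ 2 * t ^ (c - 1 / 2 : ℝ) * t ^ (-(3 / 2) : ℝ) = t ^ c := by
    rw [← Real.rpow_natCast t 2, ← Real.rpow_add ht0, ← Real.rpow_add ht0]
    congr 1
    push_cast; ring
  have hexp : Real.exp (-(Real.pi * t / 2)) * Real.exp (Real.pi * t / 2) = 1 := by
    rw [← Real.exp_add]; simp
  calc ‖1 - (⟨1 / 2 + c, t⟩ : ℂ)‖ ^ 2 * ‖Gammaℝ ⟨1 / 2 + c, t⟩‖ ^ 2 / ‖gx w‖ ^ 2
      = ‖1 - (⟨1 / 2 + c, t⟩ : ℂ)‖ ^ 2 * ‖Gammaℝ ⟨1 / 2 + c, t⟩‖ ^ 2 * (1 / ‖gx w‖ ^ 2) := by ring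
    _ ≤ (2 * t ^ 2) * (C * (t ^ (c - 1 / 2 : ℝ) * Real.exp (-(Real.pi * t / 2)))) *
          ((8 * κ⁻¹ * t ^ (-(3 / 2) : ℝ) * α * Real.exp (Real.pi * t / 2)) * (2 * S)) := by
        gcongr
        refine hinv.trans ?_
        gcongr
    _ = 2 * C * (8 * κ⁻¹) * 2 * (t ^ 2 * t ^ (c - 1 / 2 : ℝ) * t ^ (-(3 / 2) : ℝ)) * α * S *
          (Real.exp (-(Real.pi * t / 2)) * Real.exp (Real.pi * t / 2)) := by ring
    _ = _ := by rw [hrp, hexp]; ring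

end

end Pool.Agent.Helper37.WMC
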