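import Pool.Agent.Helper37.WMC.Law

/-! Convergence of the averages of functions of quadratic growth. -/

set_option autoImplicit false

open MeasureTheory Filter Topology Set
open scoped ENNReal RealInnerProductSpace BoundedContinuousFunction

namespace Pool.Agent.Helper37.WMC

noncomputable section

lemma clip_le {a K : ℝ} (hK : 0 ≤ K) : |a - max (-K) (min a K)| ≤ max (|a| - K) 0 := by
  rcases le_or_gt a K with h1 | h1
  · rw [min_eq_left h1]
    rcases le_or_gt (-K) a with h2 | h2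
    · rw [max_eq_right h2, sub_self, abs_zero]; exact le_max_right _ _
    · rw [max_eq_left h2.le]
      refine le_trans ?_ (le_max_left _ _)
      rw [abs_of_neg (by linarith : a < 0), abs_of_neg (by linarith : a - -K < 0)]
      linarith
  · rw [min_eq_right h1.le, max_eq_right (by linarith)]
    refine le_trans ?_ (le_max_left _ _)
    rw [abs_of_pos (by linarith : 0 < a), abs_of_pos (by linarith : 0 < a - K)]

variable {E : Type*} [NormedAddCommGroup E] [InnerProductSpace ℝ E] [FiniteDimensional ℝ E]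
  [MeasurableSpace E] [BorelSpace E]

lemma law_bdd {F : ℝ → E} {hF : Measurable F} {ν : ProbabilityMeasure E} (hν : Tendsto (law hF) atTop (𝓝 ν))
    {φ : E → ℝ} (hφ : Continuous φ) {K : ℝ} (hK : ∀ x, |φ x| ≤ K) :
    Tendsto (fun V : ℝ => (∫ v in Ioc 0 V, φ (F v)) / V) atTop (𝓝 (∫ x, φ x ∂(ν : Measure E))) := by
  have h1 := (ProbabilityMeasure.tendsto_iff_forall_integral_tendsto.1 hν)
    (BoundedContinuousFunction.ofNormedAddCommGroup φ hφ K (fun x => by rw [Real.norm_eq_abs]; exact hK x))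
  refine h1.congr' ?_
  filter_upwards [eventually_ge_atTop (1:ℝ)] with V hV
  have h2 := law_integral hF (φ := φ) hφ.stronglyMeasurable hV
  rw [smul_eq_mul, inv_mul_eq_div] at h2
  exact h2

lemma law_tail {F : ℝ → E} {hF : Measurable F} (hFi : ∀ V : ℝ, IntegrableOn (fun v => ‖F v‖ ^ 2) (Ioc 0 V))
    {ν : ProbabilityMeasure E} (hν : Tendsto (law hF) atTop (𝓝 ν)) {ε R : ℝ}
    (hT : ∀ᶠ V : ℝ in atTop, ∫ v in Ioc 0 V, max (‖F v‖ ^ 2 - R) 0 ≤ ε * V) :
    ∫⁻ x, ENNReal.ofReal (max (‖x‖ ^ 2 - R) 0) ∂(ν : Measure E) ≤ ENNReal.ofReal ε := by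
  have e1 : ∀ x : E, ENNReal.ofReal (max (‖x‖ ^ 2 - R) 0) =
      ⨆ N : ℕ, ENNReal.ofReal (min (max (‖x‖ ^ 2 - R) 0) N) := by
    intro x
    apply le_antisymm
    · obtain ⟨N, hN⟩ := exists_nat_ge (max (‖x‖ ^ 2 - R) 0)
      refine le_iSup_of_le N ?_
      rw [min_eq_left hN]
    · exact iSup_le fun N => ENNReal.ofReal_le_ofReal (min_le_left _ _)
  simp_rw [e1]
  have hc : ∀ N : ℕ, Continuous (fun x : E => min (max (‖x‖ ^ 2 - R) 0) (N : ℝ)) := by
    intro N; fun_prop
  rw [lintegral_iSup (fun N => (hc N).measurable.ennreal_ofReal)]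
  swap
  · intro N M hNM x
    apply ENNReal.ofReal_le_ofReal
    have : (N : ℝ) ≤ M := by exact_mod_cast hNM
    exact min_le_min le_rfl this
  refine iSup_le fun N => ?_
  have hb : ∀ x : E, |min (max (‖x‖ ^ 2 - R) 0) (N : ℝ)| ≤ N := by
    intro x
    rw [abs_of_nonneg (le_min (le_max_right _ _) (Nat.cast_nonneg N))]
    exact min_le_right _ _
  have h1 := law_bdd hν (hc N) hb
  have i0 : Integrable (fun x : E => min (max (‖x‖ ^ 2 - R) 0) (N : ℝ)) (ν : Measure E) := by
    refine Integrable.mono' (g := fun _ => (N : ℝ)) (integrable_const _) (hc N).aestronglyMeasurable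
      (Eventually.of_forall fun x => ?_)
    rw [Real.norm_eq_abs]; exact hb x
  rw [← ofReal_integral_eq_lintegral_ofReal i0 (Eventually.of_forall fun x => le_min (le_max_right _ _) (Nat.cast_nonneg N))]
  apply ENNReal.ofReal_le_ofReal
  refine le_of_tendsto h1 ?_
  filter_upwards [hT, eventually_gt_atTop 0] with V hV hV0
  rw [div_le_iff₀ hV0]
  refine le_trans ?_ hV
  have i2 : IntegrableOn (fun v => max (‖F v‖ ^ 2 - R) 0) (Ioc 0 V) := by
    have := ((hFi V).sub (integrableOn_const (C := R) (by simp))).pos_part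
    exact this
  refine setIntegral_mono_on ?_ i2 measurableSet_Ioc fun v _ => min_le_left _ _
  refine Integrable.mono' i2 ((hc N).measurable.comp hF).aestronglyMeasurable (Eventually.of_forall fun v => ?_)
  rw [Real.norm_eq_abs, abs_of_nonneg (le_min (le_max_right _ _) (Nat.cast_nonneg N))]
  exact min_le_left _ _

theorem law_quad {F : ℝ → E} {hF : Measurable F} (hFi : ∀ V : ℝ, IntegrableOn (fun v => ‖F v‖ ^ 2) (Ioc 0 V))
    {ν : ProbabilityMeasure E} (hν : Tendsto (law hF) atTop (𝓝 ν))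
    (hT : ∀ ε : ℝ, 0 < ε → ∃ R : ℝ, 0 ≤ R ∧ ∀ᶠ V : ℝ in atTop, ∫ v in Ioc 0 V, max (‖F v‖ ^ 2 - R) 0 ≤ ε * V)
    {φ : E → ℝ} (hφ : Continuous φ) {C : ℝ} (hC : ∀ x, |φ x| ≤ C * (1 + ‖x‖ ^ 2)) :
    Integrable φ (ν : Measure E) ∧
      Tendsto (fun V : ℝ => (∫ v in Ioc 0 V, φ (F v)) / V) atTop (𝓝 (∫ x, φ x ∂(ν : Measure E))) := by
  have hC0 : 0 ≤ C := by
    have := (abs_nonneg _).trans (hC 0)
    simpa using this
  have hint : ∀ ε R : ℝ, (∀ᶠ V : ℝ in atTop, ∫ v in Ioc 0 V, max (‖F v‖ ^ 2 - R) 0 ≤ ε * V) →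
      Integrable (fun x : E => max (‖x‖ ^ 2 - R) 0) (ν : Measure E) := by
    intro ε R h
    have h1 := law_tail hFi hν h
    have hc : Continuous (fun x : E => max (‖x‖ ^ 2 - R) 0) := by fun_prop
    refine ⟨hc.aestronglyMeasurable, ?_⟩
    have hnn : 0 ≤ᵐ[(ν : Measure E)] fun x : E => max (‖x‖ ^ 2 - R) 0 := Eventually.of_forall fun x => le_max_right _ _
    rw [hasFiniteIntegral_iff_ofReal hnn]
    exact h1.trans_lt ENNReal.ofReal_lt_top
  have hφi : Integrable φ (ν : Measure E) := by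
    obtain ⟨R, hR, h⟩ := hT 1 one_pos
    have i1 := hint 1 R h
    have i2 : Integrable (fun x : E => C * ((1 + R) + max (‖x‖ ^ 2 - R) 0)) (ν : Measure E) :=
      ((integrable_const _).add i1).const_mul C
    refine Integrable.mono' i2 hφ.aestronglyMeasurable (Eventually.of_forall fun x => ?_)
    rw [Real.norm_eq_abs]
    refine (hC x).trans (mul_le_mul_of_nonneg_left ?_ hC0)
    have := le_max_left (‖x‖ ^ 2 - R) 0
    linarith
  refine ⟨hφi, ?_⟩
  rw [Metric.tendsto_nhds]
  intro ε hε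
  set ε₁ : ℝ := ε / (4 * (C + 1)) with hε₁
  have hε₁0 : 0 < ε₁ := by positivity
  have hCε : C * ε₁ ≤ ε / 4 := by
    have : C * ε₁ = ε / 4 * (C / (C + 1)) := by rw [hε₁]; field_simp
    rw [this]
    have h2 : C / (C + 1) ≤ 1 := by rw [div_le_one (by positivity)]; linarith
    nlinarith
  obtain ⟨R, hR, h⟩ := hT ε₁ hε₁0
  have hK : 0 ≤ C * (1 + R) := by positivity
  set ψ : E → ℝ := fun x => max (-(C * (1 + R))) (min (φ x) (C * (1 + R))) with hψ
  have hψc : Continuous ψ := by rw [hψ]; fun_prop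
  have hψb : ∀ x, |ψ x| ≤ C * (1 + R) := by
    intro x
    rw [abs_le]
    exact ⟨le_max_left _ _, max_le (by linarith) (min_le_right _ _)⟩
  have hd : ∀ x, |φ x - ψ x| ≤ C * max (‖x‖ ^ 2 - R) 0 := by
    intro x
    refine (clip_le hK).trans ?_
    apply max_le
    · have := hC x
      have h3 := le_max_left (‖x‖ ^ 2 - R) 0
      nlinarith
    · have := le_max_right (‖x‖ ^ 2 - R) 0
      positivity
  have i1 := hint ε₁ R h
  have hψi : Integrable ψ (ν : Measure E) := by
    refine Integrable.mono' (g := fun _ => C * (1 + R)) (integrable_const _) hψc.aestronglyMeasurable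
      (Eventually.of_forall fun x => ?_)
    rw [Real.norm_eq_abs]; exact hψb x
  have h1 := law_bdd hν hψc hψb
  rw [Metric.tendsto_nhds] at h1
  -- the difference under `ν`
  have h2 : |(∫ x, φ x ∂(ν : Measure E)) - ∫ x, ψ x ∂(ν : Measure E)| ≤ ε / 4 := by
    rw [← integral_sub hφi hψi, ← Real.norm_eq_abs]
    refine (norm_integral_le_of_norm_le (i1.const_mul C) (Eventually.of_forall fun x => by
      rw [Real.norm_eq_abs]; exact hd x)).trans ?_
    rw [integral_const_mul]
    refine le_trans (mul_le_mul_of_nonneg_left ?_ hC0) hCε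
    have h3 := law_tail hFi hν h
    rw [← ofReal_integral_eq_lintegral_ofReal i1 (Eventually.of_forall fun x => le_max_right _ _)] at h3
    exact (ENNReal.ofReal_le_ofReal_iff hε₁0.le).1 h3
  filter_upwards [h, h1 (ε / 4) (by positivity), eventually_gt_atTop 0] with V a b hV
  rw [Real.dist_eq] at b ⊢
  have iF : IntegrableOn (fun v => max (‖F v‖ ^ 2 - R) 0) (Ioc 0 V) :=
    ((hFi V).sub (integrableOn_const (C := R) (by simp))).pos_part
  have iφ : IntegrableOn (fun v => φ (F v)) (Ioc 0 V) := by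
    have i0 : IntegrableOn (fun v => C * (1 + ‖F v‖ ^ 2)) (Ioc 0 V) :=
      Integrable.const_mul (Integrable.add (integrableOn_const (C := (1:ℝ)) (by simp)) (hFi V)) C
    refine Integrable.mono' i0 (hφ.measurable.comp hF).aestronglyMeasurable (Eventually.of_forall fun v => ?_)
    rw [Real.norm_eq_abs]; exact hC _
  have iψ : IntegrableOn (fun v => ψ (F v)) (Ioc 0 V) := by
    refine Integrable.mono' (g := fun _ => C * (1 + R)) (integrableOn_const (by simp))
      (hψc.measurable.comp hF).aestronglyMeasurable (Eventually.of_forall fun v => ?_)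
    rw [Real.norm_eq_abs]; exact hψb _
  have h3 : |(∫ v in Ioc 0 V, φ (F v)) / V - (∫ v in Ioc 0 V, ψ (F v)) / V| ≤ ε / 4 := by
    rw [← sub_div, ← integral_sub iφ iψ, abs_div, abs_of_pos hV, div_le_iff₀ hV, ← Real.norm_eq_abs]
    refine (norm_integral_le_of_norm_le (iF.const_mul C) (Eventually.of_forall fun x => by
      rw [Real.norm_eq_abs]; exact hd _)).trans ?_
    rw [integral_const_mul]
    calc C * ∫ v in Ioc 0 V, max (‖F v‖ ^ 2 - R) 0 ≤ C * (ε₁ * V) := by gcongr
      _ = C * ε₁ * V := by ring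
      _ ≤ ε / 4 * V := by gcongr
  rw [abs_le] at h2 h3
  rw [abs_lt] at b ⊢
  constructor
  · linarith [h2.1, h2.2, h3.1, h3.2, b.1, b.2]
  · linarith [h2.1, h2.2, h3.1, h3.2, b.1, b.2]

end

end Pool.Agent.Helper37.WMC
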