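import Pool.Agent.Helper37.WMC.Cov
import Pool.Agent.Helper37.WMC.Quad

/-! The limiting distribution of the normalised Mertens function. -/

set_option autoImplicit false

open MeasureTheory Filter Topology Set
open scoped ENNReal RealInnerProductSpace

namespace Pool.Agent.Helper37.WMC

open Pool.Agent.H295R2 Pool.Agent.Helper37.WMH

noncomputable section

variable {k : ℕ}

/-- the vector of shifted values -/
def Fp (τ : Fin k → ℝ) (v : ℝ) : EuclideanSpace ℝ (Fin k) := WithLp.toLp 2 (fun j => mr (v + τ j))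

lemma Fp_meas (τ : Fin k → ℝ) : Measurable (Fp τ) := by
  unfold Fp
  refine (WithLp.measurable_toLp 2 _).comp (measurable_pi_lambda _ fun j => ?_)
  exact mr_meas.comp (measurable_id.add_const (τ j))

lemma Fp_norm (τ : Fin k → ℝ) (v : ℝ) : ‖Fp τ v‖ ^ 2 = ∑ j, mr (v + τ j) ^ 2 := by
  rw [EuclideanSpace.real_norm_sq_eq]
  rfl

lemma mr_sq (v : ℝ) : mr v ^ 2 = ‖m0 v‖ ^ 2 := by
  rw [m0_mr, Complex.norm_real, Real.norm_eq_abs, sq_abs]

lemma Fp_iOn (τ : Fin k → ℝ) (V : ℝ) : IntegrableOn (fun v => ‖Fp τ v‖ ^ 2) (Ioc 0 V) := by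
  simp_rw [Fp_norm, mr_sq]
  exact integrable_finsetSum _ fun j _ => tame_sq_iOn (tame_shift tame_m0 (τ j)) V

lemma trunc (h : AsympP) (hR : RHS) (τ : Fin k → ℝ) : ∀ ε : ℝ, 0 < ε → ∃ R : ℝ, 0 ≤ R ∧
    ∀ᶠ V : ℝ in atTop, ∫ v in Ioc 0 V, max (‖Fp τ v‖ ^ 2 - R) 0 ≤ ε * V := by
  intro ε hε
  have ha : ∀ j : Fin k, ∃ P : ℝ → ℂ, P ∈ TS ∧ ∀ᶠ V : ℝ in atTop,
      ∫ v in Ioc 0 V, ‖m0 (v + τ j) - P v‖ ^ 2 ≤ (ε / (2 * (k + 1))) * V := fun j => by
    obtain ⟨P, hP, h1⟩ := (ApQ_m0 h hR).shift tame_m0 (τ j) (ε / (2 * (k + 1))) (by positivity)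
    exact ⟨P, hP, h1⟩
  choose P hP h1 using ha
  choose C hC0 hC using fun j => TS_bdd (hP j)
  refine ⟨∑ j, 2 * C j ^ 2, Finset.sum_nonneg fun j _ => by positivity, ?_⟩
  filter_upwards [eventually_all.2 h1, eventually_gt_atTop 0] with V hV hV0
  have tr : ∀ j, Tame (fun v => m0 (v + τ j) - P j v) := fun j => tame_sub (tame_shift tame_m0 (τ j)) (TS_tame (hP j))
  have iF : IntegrableOn (fun v => max (‖Fp τ v‖ ^ 2 - ∑ j, 2 * C j ^ 2) 0) (Ioc 0 V) :=
    ((Fp_iOn τ V).sub (integrableOn_const (C := ∑ j, 2 * C j ^ 2) (by simp))).pos_part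
  have iG : IntegrableOn (fun v => ∑ j, 2 * ‖m0 (v + τ j) - P j v‖ ^ 2) (Ioc 0 V) :=
    integrable_finsetSum _ fun j _ => (tame_sq_iOn (tr j) V).const_mul 2
  calc ∫ v in Ioc 0 V, max (‖Fp τ v‖ ^ 2 - ∑ j, 2 * C j ^ 2) 0
      ≤ ∫ v in Ioc 0 V, ∑ j, 2 * ‖m0 (v + τ j) - P j v‖ ^ 2 := by
        refine setIntegral_mono_on iF iG measurableSet_Ioc fun v _ => ?_
        apply max_le
        · rw [Fp_norm, ← Finset.sum_sub_distrib]
          refine Finset.sum_le_sum fun j _ => ?_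
          rw [mr_sq]
          have h3 := norm_add_sq_le' (m0 (v + τ j) - P j v) (P j v)
          rw [sub_add_cancel] at h3
          have h4 : ‖P j v‖ ^ 2 ≤ C j ^ 2 := by
            have := hC j v
            gcongr
          linarith
        · exact Finset.sum_nonneg fun j _ => by positivity
    _ = ∑ j, 2 * ∫ v in Ioc 0 V, ‖m0 (v + τ j) - P j v‖ ^ 2 := by
        rw [integral_finsetSum _ fun j _ => (tame_sq_iOn (tr j) V).const_mul 2]
        refine Finset.sum_congr rfl fun j _ => ?_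
        rw [integral_const_mul]
    _ ≤ ∑ _j : Fin k, 2 * ((ε / (2 * (k + 1))) * V) := by
        gcongr with j _
        exact hV j
    _ = ε * V * (k / (k + 1)) := by
        rw [Finset.sum_const, Finset.card_univ, Fintype.card_fin, nsmul_eq_mul]
        field_simp
    _ ≤ ε * V * 1 := by
        gcongr
        rw [div_le_one (by positivity)]
        linarith
    _ = ε * V := mul_one _

theorem proc_law (h : AsympP) (hR : RHS) (τ : Fin k → ℝ) :
    ∃ ν : ProbabilityMeasure (EuclideanSpace ℝ (Fin k)), Tendsto (law (Fp_meas τ)) atTop (𝓝 ν) := by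
  obtain ⟨R, hR0, h1⟩ := trunc h hR τ 1 one_pos
  have iN : ∀ V : ℝ, IntegrableOn (Fp τ) (Ioc 0 V) := by
    intro V
    have i2 : IntegrableOn (fun v : ℝ => 1 + ‖Fp τ v‖ ^ 2) (Ioc 0 V) :=
      Integrable.add (integrableOn_const (C := (1:ℝ)) (by simp)) (Fp_iOn τ V)
    refine Integrable.mono' i2 (Fp_meas τ).aestronglyMeasurable (Eventually.of_forall fun v => ?_)
    nlinarith [sq_nonneg (‖Fp τ v‖ - 1), norm_nonneg (Fp τ v)]
  refine exists_law (Fp_meas τ) iN (B := 1 + R + 1) ?_ fun t => ?_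
  · filter_upwards [h1, eventually_gt_atTop 0] with V hV hV0
    have iF : IntegrableOn (fun v => max (‖Fp τ v‖ ^ 2 - R) 0) (Ioc 0 V) :=
      ((Fp_iOn τ V).sub (integrableOn_const (C := R) (by simp))).pos_part
    have iC : IntegrableOn (fun _ : ℝ => 1 + R) (Ioc 0 V) := integrableOn_const (by simp)
    calc ∫ v in Ioc 0 V, ‖Fp τ v‖ ≤ ∫ v in Ioc 0 V, ((1 + R) + max (‖Fp τ v‖ ^ 2 - R) 0) := by
          refine setIntegral_mono_on (iN V).norm (iC.add iF) measurableSet_Ioc fun v _ => ?_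
          have h2 := le_max_left (‖Fp τ v‖ ^ 2 - R) 0
          nlinarith [sq_nonneg (‖Fp τ v‖ - 1), norm_nonneg (Fp τ v)]
      _ = (1 + R) * V + ∫ v in Ioc 0 V, max (‖Fp τ v‖ ^ 2 - R) 0 := by
          rw [integral_add iC iF, setIntegral_const, Real.volume_real_Ioc_of_le hV0.le, sub_zero, smul_eq_mul]
          ring
      _ ≤ _ := by linarith
  · have e1 : ∀ v, (((⟪Fp τ v, t⟫ : ℝ) : ℂ)) = ∑ j, (t j : ℂ) * m0 (v + τ j) := by
      intro v
      rw [PiLp.inner_apply]
      push_cast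
      refine Finset.sum_congr rfl fun j _ => ?_
      rw [m0_mr]
      simp [Fp, mul_comm]
    have hs := ApQ_sum (Finset.univ : Finset (Fin k)) (fun j v => (t j : ℂ) * m0 (v + τ j))
      (fun j => (tame_shift tame_m0 (τ j)).const_mul _) (fun j => ((ApQ_m0 h hR).shift tame_m0 (τ j)).const_mul _)
    have e2 : (fun v => ∑ j, (t j : ℂ) * m0 (v + τ j)) = fun v => (((⟪Fp τ v, t⟫ : ℝ) : ℂ)) := by
      funext v; exact (e1 v).symm
    rw [e2] at hs
    exact ApQ_cexp hs.1 hs.2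

/-- the limiting distribution as a measure on `Fin k → ℝ` -/
theorem proc_limit (h : AsympP) (hR : RHS) (τ : Fin k → ℝ) : ∃ ν : Measure (Fin k → ℝ), IsProbabilityMeasure ν ∧
    ∀ φ : (Fin k → ℝ) → ℝ, Continuous φ → (∃ C, ∀ x, |φ x| ≤ C * (1 + ∑ j, x j ^ 2)) → Integrable φ ν ∧
      Tendsto (fun V : ℝ => (∫ v in Ioc 0 V, φ (fun j => mr (v + τ j))) / V) atTop (𝓝 (∫ x, φ x ∂ν)) := by
  obtain ⟨ν₀, hν₀⟩ := proc_law h hR τ
  have hm : Measurable (fun x : EuclideanSpace ℝ (Fin k) => (WithLp.ofLp x : Fin k → ℝ)) := WithLp.measurable_ofLp 2 _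
  refine ⟨Measure.map (fun x : EuclideanSpace ℝ (Fin k) => (WithLp.ofLp x : Fin k → ℝ)) ν₀,
    Measure.isProbabilityMeasure_map hm.aemeasurable, ?_⟩
  rintro φ hφ ⟨C, hC⟩
  have hc : Continuous (fun x : EuclideanSpace ℝ (Fin k) => φ (WithLp.ofLp x)) :=
    hφ.comp (PiLp.continuous_ofLp 2 _)
  have h1 := law_quad (Fp_iOn τ) hν₀ (trunc h hR τ) hc (C := C) (fun x => by
    refine (hC _).trans (le_of_eq ?_)
    rw [EuclideanSpace.real_norm_sq_eq])
  refine ⟨?_, ?_⟩
  · rw [integrable_map_measure hφ.aestronglyMeasurable hm.aemeasurable]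
    exact h1.1
  · rw [integral_map hm.aemeasurable hφ.aestronglyMeasurable]
    exact h1.2

/-- positive part -/
lemma pos_part_pos {α : Type*} [MeasurableSpace α] {ν : Measure α} {f : α → ℝ} (hf : Integrable f ν)
    (h0 : ∫ x, f x ∂ν = 0) (h2 : ∫ x, f x ^ 2 ∂ν ≠ 0) : 0 < ∫ x, max (f x) 0 ∂ν := by
  have hn : 0 ≤ ∫ x, max (f x) 0 ∂ν := integral_nonneg fun x => le_max_right _ _
  refine lt_of_le_of_ne hn fun hc => h2 ?_
  have h3 := (integral_eq_zero_iff_of_nonneg (fun x => le_max_right _ _) hf.pos_part).1 hc.symm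
  have h4 : 0 ≤ᵐ[ν] fun x => -f x := by
    filter_upwards [h3] with x hx
    have := le_max_left (f x) 0
    simp only [Pi.zero_apply] at hx ⊢
    linarith
  have h5 : ∫ x, -f x ∂ν = 0 := by rw [integral_neg, h0, neg_zero]
  have h6 := (integral_eq_zero_iff_of_nonneg_ae h4 hf.neg).1 h5
  rw [integral_eq_zero_of_ae]
  filter_upwards [h6] with x hx
  simp only [Pi.zero_apply, neg_eq_zero] at hx ⊢
  rw [hx]; norm_num

/-- from averages to densities -/
lemma dens {f : ℝ → ℝ} (hf : Measurable f) (hi : ∀ V : ℝ, IntegrableOn (fun v => f v ^ 2) (Ioc 0 V)) {A S : ℝ} (hA : 0 < A)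
    (hS : 0 ≤ S)
    (h1 : Tendsto (fun V : ℝ => (∫ v in Ioc 0 V, max (f v) 0) / V) atTop (𝓝 A))
    (h2 : Tendsto (fun V : ℝ => (∫ v in Ioc 0 V, f v ^ 2) / V) atTop (𝓝 S)) :
    ∃ c : ℝ, 0 < c ∧ ∃ δ : ℝ, 0 < δ ∧ ∀ᶠ V : ℝ in atTop, δ * V ≤ volume.real (Ioc 0 V ∩ {v | c < f v}) := by
  set η : ℝ := A / (4 * (S + 1)) with hη
  have hη0 : 0 < η := by positivity
  refine ⟨A / 4, by positivity, η * A, by positivity, ?_⟩
  filter_upwards [h1.eventually_const_lt (show A * (3 / 4) < A by linarith),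
    h2.eventually_lt_const (show S < S + 1 by linarith), eventually_gt_atTop 0] with V a b hV
  rw [lt_div_iff₀ hV] at a
  rw [div_lt_iff₀ hV] at b
  set D : Set ℝ := {v | A / 4 < f v} with hD
  have hDm : MeasurableSet D := measurableSet_lt measurable_const hf
  have i1 : IntegrableOn (fun _ : ℝ => A / 4) (Ioc 0 V) := integrableOn_const (by simp)
  have i3 : IntegrableOn (fun v => D.indicator (fun _ => 1 / (4 * η)) v) (Ioc 0 V) := by
    have : IntegrableOn (fun _ : ℝ => 1 / (4 * η)) (Ioc 0 V) := integrableOn_const (by simp)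
    exact this.indicator hDm
  have i2 := (hi V).const_mul η
  have i12 : IntegrableOn (fun v => A / 4 + η * f v ^ 2) (Ioc 0 V) := Integrable.add i1 i2
  have ip : IntegrableOn (fun v => max (f v) 0) (Ioc 0 V) := by
    have i4 : IntegrableOn (fun v : ℝ => 1 + f v ^ 2) (Ioc 0 V) :=
      Integrable.add (integrableOn_const (C := (1:ℝ)) (by simp)) (hi V)
    refine Integrable.mono' i4 (hf.max measurable_const).aestronglyMeasurable (Eventually.of_forall fun v => ?_)
    rw [Real.norm_of_nonneg (le_max_right _ _)]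
    apply max_le
    · nlinarith [sq_nonneg (f v - 1)]
    · positivity
  have key : ∫ v in Ioc 0 V, max (f v) 0 ≤ A / 4 * V + η * (∫ v in Ioc 0 V, f v ^ 2) +
      1 / (4 * η) * volume.real (Ioc 0 V ∩ D) := by
    calc ∫ v in Ioc 0 V, max (f v) 0 ≤ ∫ v in Ioc 0 V, ((A / 4 + η * f v ^ 2) + D.indicator (fun _ => 1 / (4 * η)) v) := by
          refine setIntegral_mono_on ip (i12.add i3) measurableSet_Ioc fun v _ => ?_
          have hsq : 0 ≤ η * f v ^ 2 := by positivity
          by_cases hv : v ∈ D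
          · rw [indicator_of_mem hv]
            have h3 : f v ≤ η * f v ^ 2 + 1 / (4 * η) := by
              have e : η * f v ^ 2 + 1 / (4 * η) = ((2 * η * f v) ^ 2 + 1) / (4 * η) := by field_simp; ring
              rw [e, le_div_iff₀ (by positivity)]
              nlinarith [sq_nonneg (2 * η * f v - 1)]
            apply max_le
            · linarith
            · positivity
          · rw [indicator_of_notMem hv]
            have h3 : f v ≤ A / 4 := not_lt.1 hv
            apply max_le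
            · linarith
            · positivity
      _ = _ := by
          rw [integral_add i12 i3, integral_add i1 i2, setIntegral_const, Real.volume_real_Ioc_of_le hV.le, sub_zero,
            smul_eq_mul, integral_const_mul, setIntegral_indicator hDm, setIntegral_const, smul_eq_mul]
          ring
  have h5 : η * (∫ v in Ioc 0 V, f v ^ 2) ≤ A / 4 * V := by
    calc η * (∫ v in Ioc 0 V, f v ^ 2) ≤ η * ((S + 1) * V) := by gcongr
      _ = A / 4 * V := by rw [hη]; field_simp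
  have h6 : A / 4 * V ≤ 1 / (4 * η) * volume.real (Ioc 0 V ∩ D) := by linarith
  calc η * A * V = (4 * η) * (A / 4 * V) := by ring
    _ ≤ (4 * η) * (1 / (4 * η) * volume.real (Ioc 0 V ∩ D)) := by gcongr
    _ = volume.real (Ioc 0 V ∩ D) := by field_simp

end

end Pool.Agent.Helper37.WMC
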