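import Pool.Agent.Helper37.WMC.Even

/-! An even entire function of order less than `2` with simple imaginary zeros, between two consecutive zeros. -/

set_option autoImplicit false

open Filter Topology Set Complex Metric

namespace Pool.Agent.Helper37.WMC

/-- one linear factor -/
theorem split_one {F : ℂ → ℂ} (hF : Differentiable ℂ F) {ρ M : ℝ} (hρ : 0 < ρ)
    (hb : ∀ w ∈ closedBall (0 : ℂ) (2 * ρ), ‖F w‖ ≤ M) {u : ℂ}
    (hu0 : u ≠ 0) (hu : ‖u‖ ≤ ρ) (hFu : F u = 0) :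
    ∃ G : ℂ → ℂ, Differentiable ℂ G ∧ (∀ w ∈ closedBall (0 : ℂ) (2 * ρ), ‖G w‖ ≤ M) ∧
      (∀ w, F w = (1 - w / u) * G w) := by
  have hun : 0 < ‖u‖ := norm_pos_iff.2 hu0
  have hds : Differentiable ℂ (dslope F u) := by
    rw [← differentiableOn_univ]
    exact (Complex.differentiableOn_dslope Filter.univ_mem).2 hF.differentiableOn
  have hds' : ∀ w, (w - u) * dslope F u w = F w := by
    intro w
    have := sub_smul_dslope F u w
    rw [hFu, sub_zero, smul_eq_mul] at this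
    exact this
  set G : ℂ → ℂ := fun z => -u * dslope F u z with hG
  have hGd : Differentiable ℂ G := hds.const_mul _
  have hFG : ∀ w, F w = (1 - w / u) * G w := by
    intro w
    rw [hG, ← hds' w]
    field_simp
    ring
  refine ⟨G, hGd, ?_, hFG⟩
  have hfr : ∀ z ∈ frontier (ball (0 : ℂ) (2 * ρ)), ‖G z‖ ≤ M := by
    intro z hz
    rw [frontier_ball _ (by positivity)] at hz
    have hz' : ‖z‖ = 2 * ρ := by simpa using hz
    have h1 : 1 ≤ ‖1 - z / u‖ := by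
      have h2 : ‖z / u‖ - ‖(1 : ℂ)‖ ≤ ‖z / u - 1‖ := norm_sub_norm_le _ _
      rw [norm_sub_rev (z / u), norm_div, norm_one] at h2
      have h3 : 2 ≤ ‖z‖ / ‖u‖ := by
        rw [le_div_iff₀ hun, hz']
        linarith
      linarith
    have h4 : ‖F z‖ = ‖1 - z / u‖ * ‖G z‖ := by rw [hFG z, norm_mul]
    have h5 := hb z (by simp [hz'])
    have h6 : ‖G z‖ ≤ ‖1 - z / u‖ * ‖G z‖ := le_mul_of_one_le_left (norm_nonneg _) h1
    linarith
  intro z hz
  refine Complex.norm_le_of_forall_mem_frontier_norm_le (U := ball (0 : ℂ) (2 * ρ))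
    isBounded_ball ⟨hGd.differentiableOn, hGd.continuous.continuousOn⟩ hfr ?_
  rw [closure_ball _ (by positivity)]
  exact hz

lemma fac_deriv {u : ℂ} {G : ℂ → ℂ} (hG : Differentiable ℂ G) (v : ℂ) :
    HasDerivAt (fun w => (1 - w / u) * G w) (-(1 / u) * G v + (1 - v / u) * deriv G v) v := by
  have h1 : HasDerivAt (fun w : ℂ => 1 - w / u) (-(1 / u)) v := ((hasDerivAt_id v).div_const u).const_sub 1
  exact h1.mul (hG v).hasDerivAt

/-- the factors of finitely many simple zeros -/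
theorem split_simple (Z : Finset ℂ) : ∀ {F : ℂ → ℂ}, Differentiable ℂ F → ∀ {ρ M : ℝ}, 0 < ρ →
    (∀ w ∈ closedBall (0 : ℂ) (2 * ρ), ‖F w‖ ≤ M) → (∀ u ∈ Z, u ≠ 0) → (∀ u ∈ Z, ‖u‖ ≤ ρ) →
    (∀ u ∈ Z, F u = 0) → (∀ u ∈ Z, deriv F u ≠ 0) →
    ∃ G : ℂ → ℂ, Differentiable ℂ G ∧ (∀ w ∈ closedBall (0 : ℂ) (2 * ρ), ‖G w‖ ≤ M) ∧
      (∀ w, F w = (∏ u ∈ Z, (1 - w / u)) * G w) ∧ ∀ u ∈ Z, G u ≠ 0 := by
  classical
  induction Z using Finset.induction_on with
  | empty =>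
    intro F hF ρ M hρ hb _ _ _ _
    exact ⟨F, hF, hb, fun w => by simp, fun u hu => by simp at hu⟩
  | insert a Z ha ih =>
    intro F hF ρ M hρ hb h0 hZ hz hd
    have ha0 := h0 a (Finset.mem_insert_self a Z)
    obtain ⟨G, hG, hGb, hFG⟩ := split_one hF hρ hb ha0 (hZ a (Finset.mem_insert_self a Z))
      (hz a (Finset.mem_insert_self a Z))
    have hder : ∀ v, deriv F v = -(1 / a) * G v + (1 - v / a) * deriv G v := by
      intro v
      have : F = fun w => (1 - w / a) * G w := funext hFG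
      rw [this]
      exact (fac_deriv hG v).deriv
    have hGa : G a ≠ 0 := by
      intro h
      apply hd a (Finset.mem_insert_self a Z)
      rw [hder, h, div_self ha0]
      ring
    have hne : ∀ u ∈ Z, (1 : ℂ) - u / a ≠ 0 := by
      intro u hu h
      have h1 : u / a = 1 := by linear_combination -h
      rw [div_eq_one_iff_eq ha0] at h1
      exact ha (h1 ▸ hu)
    have hGz : ∀ u ∈ Z, G u = 0 := by
      intro u hu
      have h1 := hz u (Finset.mem_insert_of_mem hu)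
      rw [hFG] at h1
      exact (mul_eq_zero.1 h1).resolve_left (hne u hu)
    have hGd : ∀ u ∈ Z, deriv G u ≠ 0 := by
      intro u hu h
      apply hd u (Finset.mem_insert_of_mem hu)
      rw [hder, hGz u hu, h]
      ring
    obtain ⟨G', h1, h2, h3, h4⟩ := ih hG hρ hGb (fun u hu => h0 u (Finset.mem_insert_of_mem hu))
      (fun u hu => hZ u (Finset.mem_insert_of_mem hu)) hGz hGd
    refine ⟨G', h1, h2, fun w => ?_, fun u hu => ?_⟩
    · rw [hFG w, h3 w, Finset.prod_insert ha, mul_assoc]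
    · rcases Finset.mem_insert.1 hu with h | h
      · rw [h]
        intro h5
        apply hGa
        rw [h3 a, h5, mul_zero]
      · exact h4 u h

variable {g : ℂ → ℂ}

theorem ord_ne_top (hg : Differentiable ℂ g) (h0 : g 0 ≠ 0) (u : ℂ) : analyticOrderAt g u ≠ ⊤ := by
  intro h
  rw [analyticOrderAt_eq_top] at h
  have han : AnalyticOnNhd ℂ g Set.univ := fun z _ => hg.analyticAt z
  exact h0 (han.eqOn_zero_of_preconnected_of_eventuallyEq_zero isPreconnected_univ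
    (Set.mem_univ u) h (Set.mem_univ 0))

theorem fin_disc (hg : Differentiable ℂ g) (h0 : g 0 ≠ 0) (R : ℝ) :
    {w : ℂ | ‖w‖ ≤ R ∧ g w = 0}.Finite := by
  by_contra hinf
  obtain ⟨t, _, ht⟩ := Set.Infinite.exists_accPt_of_subset_isCompact hinf
    (isCompact_closedBall (0 : ℂ) R) (fun w hw => by
      rw [mem_closedBall_zero_iff]
      exact hw.1)
  have h1 : ∃ᶠ y in 𝓝[≠] t, ‖y‖ ≤ R ∧ g y = 0 := by
    rw [accPt_iff_frequently_nhdsNE] at ht
    exact ht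
  have h4 := ((hg.analyticAt _).frequently_zero_iff_eventually_zero).1 (h1.mono fun y hy => hy.2)
  exact ord_ne_top hg h0 _ (analyticOrderAt_eq_top.2 h4)

/-- the bound of the remainder -/
noncomputable def er (K a R : ℝ) : ℝ := 8 * (K * (1 + 2 * R) ^ (3 / 2 : ℝ) - a) / R ^ 2

theorem er_tendsto (K a : ℝ) : Tendsto (fun n : ℕ => er K a ((n : ℝ) + 1)) atTop (𝓝 0) := by
  have t1 : Tendsto (fun N : ℕ => (N : ℝ) + 1) atTop atTop :=
    tendsto_atTop_add_const_right _ _ tendsto_natCast_atTop_atTop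
  have t2 : Tendsto (fun N : ℕ => 72 * |K| * ((N : ℝ) + 1) ^ (-(1 / 2) : ℝ) +
      8 * |a| * ((N : ℝ) + 1)⁻¹) atTop (𝓝 0) := by
    have a1 := (tendsto_rpow_neg_atTop (y := 1 / 2) (by norm_num)).comp t1
    have a2 := tendsto_inv_atTop_zero.comp t1
    have := (a1.const_mul (72 * |K|)).add (a2.const_mul (8 * |a|))
    simpa using this
  refine squeeze_zero_norm (fun N => ?_) t2
  set m : ℝ := (N : ℝ) + 1 with hm
  have hm1 : 1 ≤ m := by rw [hm]; linarith [Nat.cast_nonneg (α := ℝ) N]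
  have hm0 : 0 < m := by linarith
  have e1 : (1 + 2 * m) ^ (3 / 2 : ℝ) ≤ 9 * m ^ (3 / 2 : ℝ) := by
    calc (1 + 2 * m) ^ (3 / 2 : ℝ) ≤ (3 * m) ^ (3 / 2 : ℝ) :=
          Real.rpow_le_rpow (by linarith) (by linarith) (by norm_num)
      _ = 3 ^ (3 / 2 : ℝ) * m ^ (3 / 2 : ℝ) := Real.mul_rpow (by norm_num) hm0.le
      _ ≤ 9 * m ^ (3 / 2 : ℝ) := by
          apply mul_le_mul_of_nonneg_right _ (Real.rpow_nonneg hm0.le _)
          calc (3 : ℝ) ^ (3 / 2 : ℝ) ≤ 3 ^ (2 : ℝ) :=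
                Real.rpow_le_rpow_of_exponent_le (by norm_num) (by norm_num)
            _ = 9 := by norm_num
  have e3 : m ^ (3 / 2 : ℝ) / m ^ 2 = m ^ (-(1 / 2) : ℝ) := by
    rw [show (-(1 / 2) : ℝ) = 3 / 2 - 2 by norm_num, Real.rpow_sub hm0, Real.rpow_two]
  have e4 : 1 / m ^ 2 ≤ m⁻¹ := by
    rw [inv_eq_one_div]
    apply one_div_le_one_div_of_le hm0
    nlinarith
  have e5 : 0 ≤ (1 + 2 * m) ^ (3 / 2 : ℝ) := Real.rpow_nonneg (by linarith) _
  have e6 : |K * (1 + 2 * m) ^ (3 / 2 : ℝ) - a| ≤ |K| * (9 * m ^ (3 / 2 : ℝ)) + |a| := by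
    refine (abs_sub _ _).trans ?_
    rw [abs_mul, abs_of_nonneg e5]
    gcongr
  rw [Real.norm_eq_abs]
  unfold er
  rw [abs_div, abs_mul, abs_of_pos (show (0 : ℝ) < 8 by norm_num),
    abs_of_pos (show 0 < m ^ 2 by positivity)]
  calc 8 * |K * (1 + 2 * m) ^ (3 / 2 : ℝ) - a| / m ^ 2
      ≤ 8 * (|K| * (9 * m ^ (3 / 2 : ℝ)) + |a|) / m ^ 2 := by gcongr
    _ = 72 * |K| * (m ^ (3 / 2 : ℝ) / m ^ 2) + 8 * |a| * (1 / m ^ 2) := by ring
    _ ≤ 72 * |K| * m ^ (-(1 / 2) : ℝ) + 8 * |a| * m⁻¹ := by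
        rw [e3]
        gcongr

/-- geometric means of two pairs -/
lemma geo_mono {x₁ x₂ y₁ y₂ k l : ℝ} (hk : 0 ≤ k) (hx₁ : 0 ≤ x₁) (hx₂ : 0 ≤ x₂) (hl0 : 0 ≤ l) (hl1 : l ≤ 1)
    (h1 : k * x₁ ≤ y₁) (h2 : k * x₂ ≤ y₂) : k * (x₁ ^ (1 - l) * x₂ ^ l) ≤ y₁ ^ (1 - l) * y₂ ^ l := by
  rcases hk.eq_or_lt with h | hk
  · rw [← h, zero_mul] at h1 h2
    rw [← h, zero_mul]
    exact mul_nonneg (Real.rpow_nonneg h1 _) (Real.rpow_nonneg h2 _)
  · have e : k * (x₁ ^ (1 - l) * x₂ ^ l) = (k * x₁) ^ (1 - l) * (k * x₂) ^ l := by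
      rw [Real.mul_rpow hk.le hx₁, Real.mul_rpow hk.le hx₂]
      have : k ^ (1 - l) * k ^ l = k := by rw [← Real.rpow_add hk]; simp
      calc k * (x₁ ^ (1 - l) * x₂ ^ l) = (k ^ (1 - l) * k ^ l) * (x₁ ^ (1 - l) * x₂ ^ l) := by rw [this]
        _ = _ := by ring
    rw [e]
    have hk1 : 0 ≤ k * x₁ := by positivity
    have hk2 : 0 ≤ k * x₂ := by positivity
    exact mul_le_mul (Real.rpow_le_rpow hk1 h1 (by linarith)) (Real.rpow_le_rpow hk2 h2 hl0)
      (Real.rpow_nonneg hk2 _) (Real.rpow_nonneg (hk1.trans h1) _)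

/-- one factor -/
lemma factor_le {a b γ l c : ℝ} (hab : a < b) (hγ0 : γ ≠ 0) (hγ : γ ≤ a ∨ b ≤ γ) (hl0 : 0 ≤ l) (hl1 : l ≤ 1) :
    ‖(1 : ℂ) - (a * I) / (γ * I)‖ ^ (1 - l) * ‖(1 : ℂ) - (b * I) / (γ * I)‖ ^ l ≤
      ‖(1 : ℂ) - (c + ((1 - l) * a + l * b) * I) / (γ * I)‖ := by
  have hγ' : (γ : ℂ) ≠ 0 := by exact_mod_cast hγ0
  have e1 : ∀ x : ℝ, ‖(1 : ℂ) - (x * I) / (γ * I)‖ = |γ - x| / |γ| := by
    intro x
    have : (1 : ℂ) - (x * I) / (γ * I) = (((γ - x) / γ : ℝ) : ℂ) := by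
      rw [mul_div_mul_right _ _ I_ne_zero]
      push_cast
      field_simp
    rw [this, Complex.norm_real, Real.norm_eq_abs, abs_div]
  rw [e1, e1]
  have e2 : |γ - ((1 - l) * a + l * b)| / |γ| ≤ ‖(1 : ℂ) - (c + ((1 - l) * a + l * b) * I) / (γ * I)‖ := by
    have h1 : (1 : ℂ) - (c + ((1 - l) * a + l * b) * I) / (γ * I) =
        (⟨γ - ((1 - l) * a + l * b), c⟩ : ℂ) / γ := by
      have h2 : (⟨γ - ((1 - l) * a + l * b), c⟩ : ℂ) = γ - ((1 - l) * a + l * b) + c * I := by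
        apply Complex.ext <;> simp
      rw [h2]
      field_simp
      ring_nf
      rw [I_sq]
      ring
    rw [h1, norm_div, Complex.norm_real, Real.norm_eq_abs]
    gcongr
    exact Complex.abs_re_le_norm (⟨γ - ((1 - l) * a + l * b), c⟩ : ℂ)
  refine le_trans ?_ e2
  have hγp : 0 < |γ| := abs_pos.2 hγ0
  have h3 : |γ - ((1 - l) * a + l * b)| / |γ| = (1 - l) * (|γ - a| / |γ|) + l * (|γ - b| / |γ|) := by
    have h4 : |γ - ((1 - l) * a + l * b)| = (1 - l) * |γ - a| + l * |γ - b| := by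
      rcases hγ with h | h
      · rw [abs_of_nonpos (show γ - a ≤ 0 by linarith), abs_of_nonpos (show γ - b ≤ 0 by linarith),
          abs_of_nonpos (by nlinarith)]
        ring
      · rw [abs_of_nonneg (show 0 ≤ γ - a by linarith), abs_of_nonneg (show 0 ≤ γ - b by linarith),
          abs_of_nonneg (by nlinarith)]
        ring
    rw [h4]
    ring
  rw [h3]
  exact Real.geom_mean_le_arith_mean2_weighted (by linarith) hl0 (by positivity) (by positivity) (by ring)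

end Pool.Agent.Helper37.WMC
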