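import Pool.Agent.Helper37.WMC.Int
import Pool.Agent.Helper37.WMH.DiffP

/-! The band filters on the time side. -/

set_option autoImplicit false

open Filter Topology Set MeasureTheory
open scoped ENNReal

namespace Pool.Agent.Helper37.WMC

open Pool.Agent.H295R2 Pool.Agent.Helper37.WMH

noncomputable section

/-- the exponential kernel -/
def ek (T x : ℝ) : ℂ := (Ici (0:ℝ)).indicator (fun x => ((Real.exp (-T * x) : ℝ) : ℂ)) x

/-- the filter -/
def filt (T : ℝ) (k : ℝ → ℂ) (v : ℝ) : ℂ := ∫ y : ℝ, ek T y * k (v - y)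

lemma ek_meas (T : ℝ) : Measurable (ek T) := by
  unfold ek
  exact Measurable.indicator (by fun_prop) measurableSet_Ici

lemma ek_norm (T x : ℝ) : ‖ek T x‖ = (Ici (0:ℝ)).indicator (fun x => Real.exp (-T * x)) x := by
  unfold ek
  by_cases h : x ∈ Ici (0:ℝ)
  · rw [indicator_of_mem h, indicator_of_mem h, Complex.norm_real, Real.norm_of_nonneg (Real.exp_pos _).le]
  · rw [indicator_of_notMem h, indicator_of_notMem h, norm_zero]

lemma ek_nice (T : ℝ) : Nice (ek T) 1 (-T) 0 := by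
  refine ⟨ek_meas T, fun u => ?_, fun u hu => ?_⟩
  · rw [ek_norm, one_mul]
    by_cases h : u ∈ Ici (0:ℝ)
    · rw [indicator_of_mem h]
    · rw [indicator_of_notMem h]; positivity
  · unfold ek
    rw [indicator_of_notMem (by simpa using hu)]

lemma Lap_ek {T : ℝ} {s : ℂ} (hs : 0 < s.re + T) : Lap (ek T) s = 1 / (s + T) := by
  unfold Lap
  have e : (fun u : ℝ => ek T u * Complex.exp (-(s * u))) =
      (Ici (0:ℝ)).indicator (fun u : ℝ => Complex.exp (-(s + T) * u)) := by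
    funext u
    unfold ek
    by_cases h : u ∈ Ici (0:ℝ)
    · rw [indicator_of_mem h, indicator_of_mem h, Complex.ofReal_exp, ← Complex.exp_add]
      congr 1; push_cast; ring
    · rw [indicator_of_notMem h, indicator_of_notMem h, zero_mul]
  rw [e, integral_indicator measurableSet_Ici, integral_Ici_eq_integral_Ioi,
    integral_exp_mul_complex_Ioi (by simp; linarith) 0]
  simp only [Complex.ofReal_zero, mul_zero, Complex.exp_zero]
  rw [neg_div_neg_eq]

lemma filt_meas (T : ℝ) {k : ℝ → ℂ} (hk : Measurable k) : Measurable (filt T k) := by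
  unfold filt
  have h1 : Measurable (Function.uncurry (fun v y : ℝ => ek T y * k (v - y))) :=
    ((ek_meas T).comp measurable_snd).mul (hk.comp (measurable_fst.sub measurable_snd))
  exact (h1.stronglyMeasurable.integral_prod_right).measurable

lemma filt_nice {T : ℝ} (hT : 0 < T) {k : ℝ → ℂ} {C a : ℝ} (ha : 0 ≤ a) (hk : Nice k C a 0) :
    Nice (filt T k) (C / (a + T)) a 0 := by
  have hC := hk.C_nonneg
  refine ⟨filt_meas T hk.meas, fun v => ?_, fun v hv => ?_⟩
  · unfold filt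
    have hb : ∀ y : ℝ, ‖ek T y * k (v - y)‖ ≤ (Ici (0:ℝ)).indicator (fun y => (C * Real.exp (a * v)) * Real.exp (-(a + T) * y)) y := by
      intro y
      rw [norm_mul, ek_norm]
      by_cases h : y ∈ Ici (0:ℝ)
      · rw [indicator_of_mem h, indicator_of_mem h]
        calc Real.exp (-T * y) * ‖k (v - y)‖ ≤ Real.exp (-T * y) * (C * Real.exp (a * (v - y))) := by
              gcongr
              exact hk.bound _
          _ = C * (Real.exp (-T * y) * Real.exp (a * (v - y))) := by ring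
          _ = C * (Real.exp (a * v) * Real.exp (-(a + T) * y)) := by
              rw [← Real.exp_add, ← Real.exp_add]; ring_nf
          _ = _ := by ring
      · rw [indicator_of_notMem h, indicator_of_notMem h, zero_mul]
    calc ‖∫ y : ℝ, ek T y * k (v - y)‖
        ≤ ∫ y, (Ici (0:ℝ)).indicator (fun y => (C * Real.exp (a * v)) * Real.exp (-(a + T) * y)) y :=
          norm_integral_le_of_norm_le (integrable_ind_exp (by linarith) _ _) (Eventually.of_forall hb)
      _ = _ := by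
          rw [integral_ind_exp (by linarith)]
          simp only [mul_zero, Real.exp_zero]
          rw [neg_div_neg_eq]
          ring
  · unfold filt
    have : ∀ y : ℝ, ek T y * k (v - y) = 0 := by
      intro y
      by_cases h : y ∈ Ici (0:ℝ)
      · have h0 : (0:ℝ) ≤ y := h
        rw [hk.zero _ (by linarith), mul_zero]
      · unfold ek
        rw [indicator_of_notMem h, zero_mul]
    simp_rw [this]
    simp

lemma Lap_filt {T : ℝ} (hT : 0 < T) {k : ℝ → ℂ} {C a : ℝ} (ha : 0 ≤ a) (hk : Nice k C a 0) {s : ℂ} (hs : a < s.re) :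
    Lap (filt T k) s = Lap k s / (s + T) := by
  have h1 := (ek_nice T).integrable (s := s) (by linarith)
  have h2 := hk.integrable hs
  have h3 := integral_convolution (μ := (volume : Measure ℝ)) (ν := (volume : Measure ℝ)) (ContinuousLinearMap.mul ℂ ℂ) h1 h2
  have h4 : ∀ v : ℝ, filt T k v * Complex.exp (-(s * v)) =
      (convolution (fun u : ℝ => ek T u * Complex.exp (-(s * u))) (fun u : ℝ => k u * Complex.exp (-(s * u)))
        (ContinuousLinearMap.mul ℂ ℂ) volume) v := by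
    intro v
    unfold filt convolution
    rw [← integral_mul_const]
    refine integral_congr_ae (Eventually.of_forall fun y => ?_)
    simp only [ContinuousLinearMap.mul_apply']
    have : Complex.exp (-(s * v)) = Complex.exp (-(s * y)) * Complex.exp (-(s * ((v - y : ℝ) : ℂ))) := by
      rw [← Complex.exp_add]; congr 1; push_cast; ring
    rw [this]; ring
  have h5 : Lap (filt T k) s = Lap (ek T) s * Lap k s := by
    unfold Lap
    simp_rw [h4]
    rw [h3]
    rfl
  rw [h5, Lap_ek (by linarith)]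
  ring

/-- the band pass filter -/
def GT (T v : ℝ) : ℂ := T * filt T m0 v - T ^ 2 * filt T (filt T m0) v

/-- its transfer function -/
def kT (T : ℝ) (s : ℂ) : ℂ := T * s / (s + T) ^ 2

lemma Nice.sub' {f g : ℝ → ℂ} {C D a : ℝ} (hf : Nice f C a 0) (hg : Nice g D a 0) (x y : ℂ) :
    Nice (fun v => x * f v - y * g v) (‖x‖ * C + ‖y‖ * D) a 0 := by
  refine ⟨(hf.meas.const_mul x).sub (hg.meas.const_mul y), fun u => ?_, fun u hu => ?_⟩
  · refine (norm_sub_le _ _).trans ?_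
    rw [norm_mul, norm_mul, add_mul, mul_assoc, mul_assoc]
    gcongr
    · exact hf.bound u
    · exact hg.bound u
  · rw [hf.zero u hu, hg.zero u hu]; simp

lemma GT_nice (hR : RHS) {T : ℝ} (hT : 0 < T) {ε : ℝ} (hε : 0 < ε) (hε1 : ε ≤ 1) : ∃ C, Nice (GT T) C ε 0 := by
  obtain ⟨C, hC⟩ := m0_nice hR hε hε1
  have h1 := filt_nice hT hε.le hC
  have h2 := filt_nice hT hε.le h1
  exact ⟨_, Nice.sub' h1 h2 T (T ^ 2)⟩

theorem Lap_GT (hR : RHS) {T : ℝ} (hT : 0 < T) {s : ℂ} (hs : 0 < s.re) :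
    Lap (GT T) s = HH (s + 1 / 2) * kT T s := by
  obtain ⟨C, hC⟩ := m0_nice hR (ε := min (s.re / 2) 1) (by positivity) (min_le_right _ _)
  have hlt : min (s.re / 2) 1 < s.re := by
    have := min_le_left (s.re / 2) 1
    linarith
  have h0 : 0 ≤ min (s.re / 2) 1 := by positivity
  have h1 := filt_nice hT h0 hC
  have h2 := filt_nice hT h0 h1
  have e1 := Lap_filt hT h0 hC hlt
  have e2 := Lap_filt hT h0 h1 hlt
  have e3 : Lap (GT T) s = T * Lap (filt T m0) s - T ^ 2 * Lap (filt T (filt T m0)) s := by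
    have i1 := h1.integrable hlt
    have i2 := h2.integrable hlt
    unfold Lap GT
    rw [← integral_const_mul, ← integral_const_mul, ← integral_sub (i1.const_mul _) (i2.const_mul _)]
    refine integral_congr_ae (Eventually.of_forall fun u => ?_)
    simp only
    ring
  have hsT : s + T ≠ 0 := by
    intro h
    have := congrArg Complex.re h
    simp at this
    linarith
  rw [e3, e2, e1, Lap_m0 hR hs]
  unfold kT
  field_simp
  ring

/-- Plancherel for the filtered function -/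
theorem line_GT (hR : RHS) {T : ℝ} (hT : 0 < T) {c : ℝ} (hc : 0 < c) :
    Integrable (fun t : ℝ => ‖HH ⟨1 / 2 + c, t⟩ * kT T ⟨c, t⟩‖ ^ 2) ∧
    ∫ t : ℝ, ‖HH ⟨1 / 2 + c, t⟩ * kT T ⟨c, t⟩‖ ^ 2 = 2 * Real.pi * ∫ u : ℝ, ‖GT T u‖ ^ 2 * Real.exp (-(2 * c * u)) := by
  obtain ⟨C, hC⟩ := GT_nice hR hT (ε := min (c / 2) 1) (by positivity) (min_le_right _ _)
  obtain ⟨h1, h2⟩ := plancherel_Lap hC (c := c) (by
      have := min_le_left (c / 2) 1
      linarith)
  have e : ∀ ξ : ℝ, Lap (GT T) (c + 2 * Real.pi * ξ * Complex.I) =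
      HH ⟨1 / 2 + c, ξ * (2 * Real.pi)⟩ * kT T ⟨c, ξ * (2 * Real.pi)⟩ := by
    intro ξ
    rw [Lap_GT hR hT (by simpa using hc)]
    have e1 : (c : ℂ) + 2 * Real.pi * ξ * Complex.I = ⟨c, ξ * (2 * Real.pi)⟩ := by
      apply Complex.ext
      · simp
      · simp; ring
    have e2 : (⟨c, ξ * (2 * Real.pi)⟩ : ℂ) + 1 / 2 = ⟨1 / 2 + c, ξ * (2 * Real.pi)⟩ := by
      apply Complex.ext
      · simp; ring
      · simp
    rw [e1, e2]
  simp_rw [e] at h1 h2
  have hpi : (0:ℝ) < 2 * Real.pi := by have := Real.pi_pos; positivity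
  constructor
  · exact (integrable_comp_mul_right_iff (fun t : ℝ => ‖HH ⟨1 / 2 + c, t⟩ * kT T ⟨c, t⟩‖ ^ 2) hpi.ne').1 h1
  · rw [← h2, Measure.integral_comp_mul_right (fun t : ℝ => ‖HH ⟨1 / 2 + c, t⟩ * kT T ⟨c, t⟩‖ ^ 2) (2 * Real.pi),
      abs_of_pos (inv_pos.2 hpi), smul_eq_mul, ← mul_assoc, mul_inv_cancel₀ hpi.ne', one_mul]

/-- the energy in the band -/
def Ph (T c : ℝ) : ℝ≥0∞ := ∫⁻ t : ℝ, ‖HH ⟨1 / 2 + c, t⟩ * kT T ⟨c, t⟩‖ₑ ^ 2

lemma Ph_eq (hR : RHS) {T : ℝ} (hT : 0 < T) {c : ℝ} (hc : 0 < c) :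
    Ph T c = ENNReal.ofReal (2 * Real.pi * ∫ u : ℝ, ‖GT T u‖ ^ 2 * Real.exp (-(2 * c * u))) := by
  obtain ⟨h1, h2⟩ := line_GT hR hT hc
  rw [← h2, ofReal_integral_eq_lintegral_ofReal h1 (Eventually.of_forall fun t => by positivity)]
  unfold Ph
  refine lintegral_congr fun t => ?_
  rw [← ofReal_norm, ← ENNReal.ofReal_pow (norm_nonneg _)]

/-- comparison of the weights -/
lemma wt_split {T c c₀ : ℝ} (hT : 1 ≤ T) (hc₀ : 0 < c₀) (hc : c₀ ≤ c) (hc1 : c ≤ 1) (u : ℝ) :
    Real.exp (-(2 * c * u)) ≤ T ^ (1 / 2 : ℝ) * Real.exp (-(2 * 1 * u)) +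
      Real.exp (-((c - c₀) * Real.log T / 2)) * Real.exp (-(2 * c₀ * u)) := by
  have hT0 : 0 < T := by linarith
  have hl : 0 ≤ Real.log T := Real.log_nonneg hT
  have hTr : T ^ (1 / 2 : ℝ) = Real.exp (Real.log T / 2) := by
    rw [Real.rpow_def_of_pos hT0]; congr 1; ring
  rcases le_total u (Real.log T / 4) with h | h
  · have h1 : Real.exp (-(2 * c * u)) ≤ T ^ (1 / 2 : ℝ) * Real.exp (-(2 * 1 * u)) := by
      rw [hTr, ← Real.exp_add]
      apply Real.exp_le_exp.2
      rcases le_total 0 u with h0 | h0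
      · nlinarith
      · nlinarith
    have h2 : 0 ≤ Real.exp (-((c - c₀) * Real.log T / 2)) * Real.exp (-(2 * c₀ * u)) := by positivity
    linarith
  · have h1 : Real.exp (-(2 * c * u)) ≤ Real.exp (-((c - c₀) * Real.log T / 2)) * Real.exp (-(2 * c₀ * u)) := by
      rw [← Real.exp_add]
      apply Real.exp_le_exp.2
      nlinarith
    have h2 : 0 ≤ T ^ (1 / 2 : ℝ) * Real.exp (-(2 * 1 * u)) := by positivity
    linarith

theorem Ph_split (hR : RHS) {T c c₀ : ℝ} (hT : 1 ≤ T) (hc₀ : 0 < c₀) (hc : c₀ ≤ c) (hc1 : c ≤ 1) :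
    Ph T c ≤ ENNReal.ofReal (T ^ (1 / 2 : ℝ)) * Ph T 1 +
      ENNReal.ofReal (Real.exp (-((c - c₀) * Real.log T / 2))) * Ph T c₀ := by
  have hT0 : 0 < T := by linarith
  have hpi := Real.pi_pos
  rw [Ph_eq hR hT0 (by linarith), Ph_eq hR hT0 one_pos, Ph_eq hR hT0 hc₀]
  obtain ⟨C, hC⟩ := GT_nice hR hT0 (ε := min (c₀ / 2) 1) (by positivity) (min_le_right _ _)
  have hlt : min (c₀ / 2) 1 < c₀ := by
    have := min_le_left (c₀ / 2) 1
    linarith
  have i1 := Nice_sq_int hC (c := c) (by linarith)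
  have i2 := Nice_sq_int hC (c := 1) (by linarith)
  have i3 := Nice_sq_int hC (c := c₀) hlt
  have n2 : 0 ≤ ∫ u : ℝ, ‖GT T u‖ ^ 2 * Real.exp (-(2 * 1 * u)) := integral_nonneg fun u => by positivity
  have n3 : 0 ≤ ∫ u : ℝ, ‖GT T u‖ ^ 2 * Real.exp (-(2 * c₀ * u)) := integral_nonneg fun u => by positivity
  rw [← ENNReal.ofReal_mul (by positivity), ← ENNReal.ofReal_mul (by positivity), ← ENNReal.ofReal_add (by positivity) (by positivity)]
  apply ENNReal.ofReal_le_ofReal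
  have h1 : ∫ u : ℝ, ‖GT T u‖ ^ 2 * Real.exp (-(2 * c * u)) ≤
      ∫ u : ℝ, (T ^ (1 / 2 : ℝ) * (‖GT T u‖ ^ 2 * Real.exp (-(2 * 1 * u))) +
        Real.exp (-((c - c₀) * Real.log T / 2)) * (‖GT T u‖ ^ 2 * Real.exp (-(2 * c₀ * u)))) := by
    refine integral_mono i1 ((i2.const_mul _).add (i3.const_mul _)) fun u => ?_
    have h2 := wt_split hT hc₀ hc hc1 u
    calc ‖GT T u‖ ^ 2 * Real.exp (-(2 * c * u)) ≤ ‖GT T u‖ ^ 2 * (T ^ (1 / 2 : ℝ) * Real.exp (-(2 * 1 * u)) +
      Real.exp (-((c - c₀) * Real.log T / 2)) * Real.exp (-(2 * c₀ * u))) := by gcongr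
      _ = _ := by ring
  rw [integral_add (i2.const_mul _) (i3.const_mul _), integral_const_mul, integral_const_mul] at h1
  calc 2 * Real.pi * ∫ u : ℝ, ‖GT T u‖ ^ 2 * Real.exp (-(2 * c * u))
      ≤ 2 * Real.pi * (T ^ (1 / 2 : ℝ) * (∫ u : ℝ, ‖GT T u‖ ^ 2 * Real.exp (-(2 * 1 * u))) +
        Real.exp (-((c - c₀) * Real.log T / 2)) * ∫ u : ℝ, ‖GT T u‖ ^ 2 * Real.exp (-(2 * c₀ * u))) := by gcongr
    _ = _ := by ring

end

end Pool.Agent.Helper37.WMC
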