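import Pool.Agent.Helper37.WMC.Conv

/-! Trigonometric polynomials and means. -/

set_option autoImplicit false

open MeasureTheory Filter Topology Set
open scoped ENNReal

namespace Pool.Agent.Helper37.WMC

noncomputable section

/-- the exponentials -/
def eS : Set (ℝ → ℂ) := Set.range (fun l : ℝ => fun v : ℝ => Complex.exp (l * v * Complex.I))

/-- the trigonometric polynomials -/
def TS : Submodule ℂ (ℝ → ℂ) := Submodule.span ℂ eS

lemma TS_mul {P Q : ℝ → ℂ} (hP : P ∈ TS) (hQ : Q ∈ TS) : P * Q ∈ TS := by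
  have h := Submodule.mul_mem_mul hP hQ
  rw [TS, Submodule.span_mul_span] at h
  refine Submodule.span_mono ?_ h
  rintro _ ⟨_, ⟨a, rfl⟩, _, ⟨b, rfl⟩, rfl⟩
  refine ⟨a + b, ?_⟩
  funext v
  simp only [Pi.mul_apply, ← Complex.exp_add]
  congr 1; push_cast; ring

lemma TS_exp (l : ℝ) : (fun v : ℝ => Complex.exp (l * v * Complex.I)) ∈ TS := Submodule.subset_span ⟨l, rfl⟩

lemma TS_one : (1 : ℝ → ℂ) ∈ TS := by
  have h := TS_exp 0
  have e : (fun v : ℝ => Complex.exp (((0:ℝ):ℂ) * v * Complex.I)) = (1 : ℝ → ℂ) := by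
    funext v; simp
  rwa [e] at h

lemma TS_pow {P : ℝ → ℂ} (hP : P ∈ TS) (n : ℕ) : P ^ n ∈ TS := by
  induction n with
  | zero => rw [pow_zero]; exact TS_one
  | succ n ih => rw [pow_succ]; exact TS_mul ih hP

lemma TS_conj {P : ℝ → ℂ} (hP : P ∈ TS) : (fun v => (starRingEnd ℂ) (P v)) ∈ TS := by
  unfold TS at hP
  induction hP using Submodule.span_induction with
  | mem x hx =>
    obtain ⟨l, rfl⟩ := hx
    have h := TS_exp (-l)
    have e : (fun v : ℝ => (starRingEnd ℂ) ((fun v : ℝ => Complex.exp (l * v * Complex.I)) v)) =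
        fun v : ℝ => Complex.exp (((-l : ℝ) : ℂ) * v * Complex.I) := by
      funext v
      simp only [← Complex.exp_conj, map_mul, Complex.conj_ofReal, Complex.conj_I]
      congr 1; push_cast; ring
    rw [e]; exact h
  | zero =>
    have e : (fun v : ℝ => (starRingEnd ℂ) ((0 : ℝ → ℂ) v)) = 0 := by funext v; simp
    rw [e]; exact TS.zero_mem
  | add x y _ _ h1 h2 =>
    have e : (fun v : ℝ => (starRingEnd ℂ) ((x + y) v)) = (fun v => (starRingEnd ℂ) (x v)) + fun v => (starRingEnd ℂ) (y v) := by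
      funext v; simp
    rw [e]; exact TS.add_mem h1 h2
  | smul c x _ h =>
    have e : (fun v : ℝ => (starRingEnd ℂ) ((c • x) v)) = ((starRingEnd ℂ) c) • fun v => (starRingEnd ℂ) (x v) := by
      funext v; simp
    rw [e]; exact TS.smul_mem _ h

lemma TS_shift {P : ℝ → ℂ} (hP : P ∈ TS) (τ : ℝ) : (fun v => P (v + τ)) ∈ TS := by
  unfold TS at hP
  induction hP using Submodule.span_induction with
  | mem x hx =>
    obtain ⟨l, rfl⟩ := hx
    have h := TS.smul_mem (Complex.exp (l * τ * Complex.I)) (TS_exp l)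
    have e : (fun v : ℝ => (fun v : ℝ => Complex.exp (l * v * Complex.I)) (v + τ)) =
        Complex.exp (l * τ * Complex.I) • fun v : ℝ => Complex.exp (l * v * Complex.I) := by
      funext v
      simp only [Pi.smul_apply, smul_eq_mul, ← Complex.exp_add]
      congr 1; push_cast; ring
    rw [e]; exact h
  | zero => exact TS.zero_mem
  | add x y _ _ h1 h2 => exact TS.add_mem h1 h2
  | smul c x _ h => exact TS.smul_mem c h

lemma TS_cont {P : ℝ → ℂ} (hP : P ∈ TS) : Continuous P := by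
  unfold TS at hP
  induction hP using Submodule.span_induction with
  | mem x hx => obtain ⟨l, rfl⟩ := hx; fun_prop
  | zero => exact continuous_zero
  | add x y _ _ h1 h2 => exact h1.add h2
  | smul c x _ h => exact h.const_smul c

lemma TS_bdd {P : ℝ → ℂ} (hP : P ∈ TS) : ∃ C : ℝ, 0 ≤ C ∧ ∀ v, ‖P v‖ ≤ C := by
  unfold TS at hP
  induction hP using Submodule.span_induction with
  | mem x hx =>
    obtain ⟨l, rfl⟩ := hx
    refine ⟨1, zero_le_one, fun v => ?_⟩
    have e : (l:ℂ) * v * Complex.I = ((l * v : ℝ) : ℂ) * Complex.I := by push_cast; ring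
    simp only [e, Complex.norm_exp_ofReal_mul_I, le_refl]
  | zero => exact ⟨0, le_rfl, fun v => by simp⟩
  | add x y _ _ h1 h2 =>
    obtain ⟨C, hC, h1⟩ := h1
    obtain ⟨D, hD, h2⟩ := h2
    exact ⟨C + D, by positivity, fun v => (norm_add_le _ _).trans (add_le_add (h1 v) (h2 v))⟩
  | smul c x _ h =>
    obtain ⟨C, hC, h1⟩ := h
    refine ⟨‖c‖ * C, by positivity, fun v => ?_⟩
    rw [Pi.smul_apply, norm_smul]
    exact mul_le_mul_of_nonneg_left (h1 v) (norm_nonneg _)

/-- `z` is the mean of `g` -/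
def MeanOf (g : ℝ → ℂ) (z : ℂ) : Prop := Tendsto (fun V : ℝ => (∫ v in Ioc 0 V, g v) / V) atTop (𝓝 z)

lemma cont_iOn' {g : ℝ → ℂ} (hg : Continuous g) (V : ℝ) : IntegrableOn g (Ioc 0 V) :=
  (hg.continuousOn.integrableOn_Icc).mono_set Ioc_subset_Icc_self

lemma MeanOf.add {f g : ℝ → ℂ} {y z : ℂ} (hf : MeanOf f y) (hg : MeanOf g z) (cf : Continuous f) (cg : Continuous g) :
    MeanOf (f + g) (y + z) := by
  unfold MeanOf at *
  refine (hf.add hg).congr fun V => ?_
  have := integral_add (μ := volume.restrict (Ioc 0 V)) (cont_iOn' cf V) (cont_iOn' cg V)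
  simp only [Pi.add_apply]
  rw [this, add_div]

lemma MeanOf.smul {f : ℝ → ℂ} {y : ℂ} (hf : MeanOf f y) (c : ℂ) : MeanOf (c • f) (c * y) := by
  unfold MeanOf at *
  refine (hf.const_mul c).congr fun V => ?_
  simp only [Pi.smul_apply, smul_eq_mul]
  rw [integral_const_mul, mul_div_assoc]

lemma MeanOf_exp (l : ℝ) : MeanOf (fun v : ℝ => Complex.exp (l * v * Complex.I)) (if l = 0 then 1 else 0) := by
  unfold MeanOf
  by_cases hl : l = 0
  · subst hl
    rw [if_pos rfl]
    refine tendsto_const_nhds.congr' ?_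
    filter_upwards [eventually_gt_atTop (0:ℝ)] with V hV
    have hV' : (V:ℂ) ≠ 0 := by exact_mod_cast hV.ne'
    simp only [Complex.ofReal_zero, zero_mul, Complex.exp_zero]
    rw [setIntegral_const, Real.volume_real_Ioc_of_le hV.le, sub_zero, Complex.real_smul, mul_one, div_self hV']
  · rw [if_neg hl]
    rw [tendsto_zero_iff_norm_tendsto_zero]
    have hc : ((l:ℂ) * Complex.I) ≠ 0 := mul_ne_zero (by exact_mod_cast hl) Complex.I_ne_zero
    refine squeeze_zero' (g := fun V : ℝ => (2 / ‖(l:ℂ) * Complex.I‖) / V) ?_ ?_ ?_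
    · exact Eventually.of_forall fun V => norm_nonneg _
    · filter_upwards [eventually_gt_atTop (0:ℝ)] with V hV
      rw [norm_div, Complex.norm_real, Real.norm_of_nonneg hV.le]
      gcongr
      have e1 : ∫ v in Ioc 0 V, Complex.exp (l * v * Complex.I) =
          (Complex.exp ((l * Complex.I) * V) - Complex.exp ((l * Complex.I) * (0:ℝ))) / (l * Complex.I) := by
        rw [← intervalIntegral.integral_of_le hV.le, ← integral_exp_mul_complex hc]
        refine intervalIntegral.integral_congr fun v _ => ?_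
        congr 1; ring
      rw [e1, norm_div]
      gcongr
      refine (norm_sub_le _ _).trans ?_
      have h1 : ∀ x : ℝ, ‖Complex.exp ((l * Complex.I) * x)‖ = 1 := by
        intro x
        have e : (l:ℂ) * Complex.I * x = ((l * x : ℝ) : ℂ) * Complex.I := by push_cast; ring
        rw [e, Complex.norm_exp_ofReal_mul_I]
      rw [h1, h1]; norm_num
    · exact tendsto_const_nhds.div_atTop tendsto_id

lemma TS_mean {P : ℝ → ℂ} (hP : P ∈ TS) : ∃ z, MeanOf P z := by
  have key : ∀ P ∈ TS, Continuous P ∧ ∃ z, MeanOf P z := by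
    intro P hP
    refine ⟨TS_cont hP, ?_⟩
    have hP' := hP
    unfold TS at hP'
    have : P ∈ TS ∧ ∃ z, MeanOf P z := by
      induction hP' using Submodule.span_induction with
      | mem x hx => obtain ⟨l, rfl⟩ := hx; exact ⟨TS_exp l, _, MeanOf_exp l⟩
      | zero =>
        refine ⟨TS.zero_mem, 0, ?_⟩
        unfold MeanOf
        simp
      | add x y hx hy h1 h2 =>
        obtain ⟨_, z, h1⟩ := h1 hx
        obtain ⟨_, w, h2⟩ := h2 hy
        exact ⟨TS.add_mem hx hy, z + w, h1.add h2 (TS_cont hx) (TS_cont hy)⟩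
      | smul c x hx h =>
        obtain ⟨_, z, h1⟩ := h hx
        exact ⟨TS.smul_mem c hx, c * z, h1.smul c⟩
    exact this.2
  exact (key P hP).2

lemma tendsto_of_approx {a : ℝ → ℂ} (h : ∀ ε : ℝ, 0 < ε → ∃ b : ℝ → ℂ, (∃ z, Tendsto b atTop (𝓝 z)) ∧
    ∀ᶠ V in atTop, ‖a V - b V‖ ≤ ε) : ∃ z, Tendsto a atTop (𝓝 z) := by
  apply cauchySeq_tendsto_of_complete
  rw [Metric.cauchySeq_iff]
  intro ε hε
  obtain ⟨b, ⟨z, hz⟩, hb⟩ := h (ε / 8) (by positivity)
  have h1 : ∀ᶠ V in atTop, ‖b V - z‖ < ε / 8 := by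
    have := (Metric.tendsto_nhds.1 hz) (ε / 8) (by positivity)
    filter_upwards [this] with V hV
    rwa [dist_eq_norm] at hV
  obtain ⟨N, hN⟩ := eventually_atTop.1 (hb.and h1)
  refine ⟨N, fun m hm n hn => ?_⟩
  have q1 := hN m hm
  have q2 := hN n hn
  rw [dist_eq_norm]
  have e : a m - a n = (a m - b m) + (b m - z) - ((a n - b n) + (b n - z)) := by ring
  rw [e]
  have := norm_sub_le ((a m - b m) + (b m - z)) ((a n - b n) + (b n - z))
  have h3 := norm_add_le (a m - b m) (b m - z)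
  have h4 := norm_add_le (a n - b n) (b n - z)
  linarith [q1.1, q1.2, q2.1, q2.2]

/-- the exponential of a bounded trigonometric polynomial has a mean -/
lemma TS_cexp_mean {P : ℝ → ℂ} (hP : P ∈ TS) : ∃ z, MeanOf (fun v => Complex.exp (P v)) z := by
  obtain ⟨C, hC, hb⟩ := TS_bdd hP
  apply tendsto_of_approx
  intro ε hε
  -- uniform approximation
  have hs : Tendsto (fun n : ℕ => C ^ n / n.factorial) atTop (𝓝 0) := FloorSemiring.tendsto_pow_div_factorial_atTop C
  obtain ⟨n, hn⟩ : ∃ n : ℕ, 0 < n ∧ ∀ v : ℝ, ‖Complex.exp (P v) - ∑ m ∈ Finset.range n, P v ^ m / m.factorial‖ ≤ ε := by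
    have hsum : Summable (fun m : ℕ => C ^ m / (m.factorial : ℝ)) := Real.summable_pow_div_factorial C
    have h2 : Tendsto (fun n : ℕ => ∑' m : ℕ, C ^ (m + n) / ((m + n).factorial : ℝ)) atTop (𝓝 0) :=
      tendsto_sum_nat_add (fun m : ℕ => C ^ m / (m.factorial : ℝ))
    obtain ⟨n, hn0, hn⟩ := ((eventually_gt_atTop 0).and (h2.eventually_lt_const hε)).exists
    refine ⟨n, hn0, fun v => ?_⟩
    have h3 : HasSum (fun m : ℕ => P v ^ m / m.factorial) (Complex.exp (P v)) := by
      have := NormedSpace.expSeries_div_hasSum_exp (P v)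
      rwa [← Complex.exp_eq_exp_ℂ] at this
    have h4 := h3.summable.sum_add_tsum_nat_add n
    rw [h3.tsum_eq] at h4
    have e : Complex.exp (P v) - ∑ m ∈ Finset.range n, P v ^ m / m.factorial = ∑' m : ℕ, P v ^ (m + n) / (m + n).factorial := by
      rw [← h4]; ring
    rw [e]
    have h5 : Summable (fun m : ℕ => C ^ (m + n) / ((m + n).factorial : ℝ)) := (summable_nat_add_iff n).2 hsum
    refine (tsum_of_norm_bounded h5.hasSum fun m => ?_).trans hn.le
    rw [norm_div, norm_pow]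
    have : ‖((m + n).factorial : ℂ)‖ = ((m + n).factorial : ℝ) := by simp
    rw [this]
    gcongr
    exact hb v
  set Q : ℝ → ℂ := ∑ m ∈ Finset.range n, ((m.factorial : ℂ)⁻¹) • P ^ m with hQ
  have hQT : Q ∈ TS := TS.sum_mem fun m _ => TS.smul_mem _ (TS_pow hP m)
  have hQv : ∀ v, Q v = ∑ m ∈ Finset.range n, P v ^ m / m.factorial := by
    intro v
    rw [hQ, Finset.sum_apply]
    refine Finset.sum_congr rfl fun m _ => ?_
    simp only [Pi.smul_apply, Pi.pow_apply, smul_eq_mul]
    ring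
  refine ⟨fun V => (∫ v in Ioc 0 V, Q v) / V, TS_mean hQT, ?_⟩
  filter_upwards [eventually_gt_atTop (0:ℝ)] with V hV
  have c1 : Continuous fun v => Complex.exp (P v) := Complex.continuous_exp.comp (TS_cont hP)
  rw [← sub_div, ← integral_sub (cont_iOn' c1 V) (cont_iOn' (TS_cont hQT) V), norm_div, Complex.norm_real,
    Real.norm_of_nonneg hV.le, div_le_iff₀ hV]
  refine (norm_setIntegral_le_of_norm_le_const (C := ε) (by simp) fun v _ => ?_).trans (le_of_eq ?_)
  · rw [hQv]; exact hn.2 v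
  · rw [Real.volume_real_Ioc_of_le hV.le, sub_zero]

end

end Pool.Agent.Helper37.WMC
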