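import Pool.Agent.Helper37.WMC.Between
import Pool.Agent.Helper37.WMH.Zeta

/-! The completed zeta function. -/

set_option autoImplicit false

open Filter Topology Set Complex

namespace Pool.Agent.Helper37.WMC

open Pool.Agent.H295R2 Pool.Agent.Helper37.WMH

noncomputable section

lemma norm_Gamma_le {z : ℂ} (hz : 0 < z.re) : ‖Complex.Gamma z‖ ≤ Real.Gamma z.re := by
  rw [Complex.Gamma_eq_integral hz, Real.Gamma_eq_integral hz]
  unfold Complex.GammaIntegral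
  refine (MeasureTheory.norm_integral_le_integral_norm _).trans (le_of_eq ?_)
  refine MeasureTheory.setIntegral_congr_fun measurableSet_Ioi fun x hx => ?_
  have hx0 : (0:ℝ) < x := hx
  rw [norm_mul, Complex.norm_real, Real.norm_of_nonneg (Real.exp_pos _).le, Complex.norm_cpow_eq_rpow_re_of_pos hx0]
  simp

theorem gamma_le' {x : ℝ} (hx : 1 ≤ x) : Real.Gamma x ≤ Real.exp (2 * (x + 1) ^ (3 / 2 : ℝ)) := by
  rcases le_total x 2 with h2 | h2
  · have h1 : Real.Gamma x ≤ 1 := by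
      have hc := Real.convexOn_Gamma
      have h3 := hc.2 (mem_Ioi.2 (show (0 : ℝ) < 1 by norm_num)) (mem_Ioi.2 (show (0 : ℝ) < 2 by norm_num))
        (show (0 : ℝ) ≤ 2 - x by linarith) (show (0 : ℝ) ≤ x - 1 by linarith) (by ring)
      rw [Real.Gamma_one, Real.Gamma_two, smul_eq_mul, smul_eq_mul] at h3
      simp only [smul_eq_mul] at h3
      have e : (2 - x) * 1 + (x - 1) * 2 = x := by ring
      rw [e] at h3
      linarith
    refine h1.trans (Real.one_le_exp ?_)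
    have : 0 ≤ (x + 1) ^ (3 / 2 : ℝ) := Real.rpow_nonneg (by linarith) _
    linarith
  · have h0 : (x : ℝ) ≤ ⌈x⌉₊ := Nat.le_ceil x
    have h1 : Real.Gamma x ≤ Real.Gamma ((⌈x⌉₊ : ℝ) + 1) := by
      apply (Real.Gamma_strictMonoOn_Ici).monotoneOn
      · exact h2
      · show (2 : ℝ) ≤ _
        linarith
      · linarith
    rw [Real.Gamma_nat_eq_factorial] at h1
    have h2 : ((⌈x⌉₊.factorial : ℕ) : ℝ) ≤ (⌈x⌉₊ : ℝ) ^ ⌈x⌉₊ := by
      exact_mod_cast Nat.factorial_le_pow _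
    have hp : (0 : ℝ) < ⌈x⌉₊ := by linarith
    have h3 : (⌈x⌉₊ : ℝ) ^ ⌈x⌉₊ = Real.exp (Real.log ⌈x⌉₊ * ⌈x⌉₊) := by
      rw [← Real.rpow_natCast, Real.rpow_def_of_pos hp]
    have h4 : Real.log ⌈x⌉₊ * ⌈x⌉₊ ≤ 2 * (x + 1) ^ (3 / 2 : ℝ) := by
      have h5 : Real.log ⌈x⌉₊ ≤ (⌈x⌉₊ : ℝ) ^ (1 / 2 : ℝ) / (1 / 2) :=
        Real.log_le_rpow_div hp.le (by norm_num)
      have h6 : (⌈x⌉₊ : ℝ) ^ (3 / 2 : ℝ) = (⌈x⌉₊ : ℝ) ^ (1 / 2 : ℝ) * ⌈x⌉₊ := by
        have h7 : (3 / 2 : ℝ) = 1 / 2 + 1 := by norm_num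
        rw [h7, Real.rpow_add hp, Real.rpow_one]
      have h7 : (⌈x⌉₊ : ℝ) ≤ x + 1 := (Nat.ceil_lt_add_one (by linarith)).le
      have h8 : (⌈x⌉₊ : ℝ) ^ (3 / 2 : ℝ) ≤ (x + 1) ^ (3 / 2 : ℝ) :=
        Real.rpow_le_rpow hp.le h7 (by norm_num)
      nlinarith
    calc Real.Gamma x ≤ Real.exp (Real.log ⌈x⌉₊ * ⌈x⌉₊) := by rw [← h3]; exact h1.trans h2
      _ ≤ _ := Real.exp_le_exp.2 h4

/-- `s (1 - s) Λ(s)` with `s = 1/2 + w` -/
def gx (w : ℂ) : ℂ := (1 / 2 + w) * (1 / 2 - w) * completedRiemannZeta₀ (1 / 2 + w) - 1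

lemma gx_diff : Differentiable ℂ gx := by
  unfold gx
  have h1 : Differentiable ℂ (fun w : ℂ => completedRiemannZeta₀ (1 / 2 + w)) :=
    differentiable_completedZeta₀.comp (by fun_prop)
  fun_prop

lemma gx_even (w : ℂ) : gx (-w) = gx w := by
  unfold gx
  have h1 : (1 / 2 + -w : ℂ) = 1 - (1 / 2 + w) := by ring
  rw [h1, completedRiemannZeta₀_one_sub]
  ring

/-- the factor of zeta -/
def Af (s : ℂ) : ℂ := s * (1 - s) * Gammaℝ s

lemma gx_eq {s : ℂ} (h0 : 0 < s.re) (h1 : s ≠ 1) : gx (s - 1 / 2) = Af s * riemannZeta s := by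
  have hs0 : s ≠ 0 := by
    rintro rfl
    simp at h0
  have hG : Gammaℝ s ≠ 0 := Gammaℝ_ne_zero_of_re_pos h0
  have h1' : 1 - s ≠ 0 := sub_ne_zero.2 h1.symm
  have h2 : riemannZeta s = completedRiemannZeta s / Gammaℝ s := riemannZeta_def_of_ne_zero hs0
  unfold gx Af
  rw [h2, completedRiemannZeta_eq]
  have e1 : (1 / 2 + (s - 1 / 2) : ℂ) = s := by ring
  have e2 : (1 / 2 - (s - 1 / 2) : ℂ) = 1 - s := by ring
  rw [e1, e2]
  field_simp
  ring

lemma gx_eq' {s : ℂ} (h0 : 0 < s.re) : gx (s - 1 / 2) = -(s * Gammaℝ s * Zs s) := by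
  by_cases h1 : s = 1
  · subst h1
    unfold gx Zs
    rw [riemannZeta₁_one]
    have : Gammaℝ 1 = 1 := Gammaℝ_one
    rw [this]
    norm_num
  · rw [gx_eq h0 h1, ← Zs_eq h1]
    unfold Af
    ring

lemma Af_ne {s : ℂ} (h0 : 0 < s.re) (h1 : s ≠ 1) : Af s ≠ 0 := by
  have hs0 : s ≠ 0 := by
    rintro rfl
    simp at h0
  have hG : Gammaℝ s ≠ 0 := Gammaℝ_ne_zero_of_re_pos h0
  exact mul_ne_zero (mul_ne_zero hs0 (sub_ne_zero.2 h1.symm)) hG

lemma Gammaℝ_diffAt {s : ℂ} (h0 : 0 < s.re) : DifferentiableAt ℂ Gammaℝ s := by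
  unfold Gammaℝ
  refine DifferentiableAt.mul ?_ ?_
  · refine DifferentiableAt.const_cpow (by fun_prop) (Or.inl ?_)
    exact_mod_cast Real.pi_ne_zero
  · refine DifferentiableAt.comp (g := Complex.Gamma) s ?_ (by fun_prop)
    refine Complex.differentiableAt_Gamma _ fun m h => ?_
    have := congrArg Complex.re h
    simp at this
    have hm : (0:ℝ) ≤ m := Nat.cast_nonneg m
    linarith

lemma gx_deriv {s : ℂ} (h0 : 0 < s.re) (h1 : s ≠ 1) (hz : riemannZeta s = 0) :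
    deriv gx (s - 1 / 2) = Af s * deriv riemannZeta s := by
  have hA : DifferentiableAt ℂ Af s := by
    unfold Af
    exact DifferentiableAt.mul (by fun_prop) (Gammaℝ_diffAt h0)
  have h2 : HasDerivAt (fun z => Af z * riemannZeta z) (deriv Af s * riemannZeta s + Af s * deriv riemannZeta s) s :=
    hA.hasDerivAt.mul (differentiableAt_riemannZeta h1).hasDerivAt
  rw [hz, mul_zero, zero_add] at h2
  have h3 : HasDerivAt (fun z => gx (z - 1 / 2)) (deriv gx (s - 1 / 2)) s := by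
    exact HasDerivAt.comp_sub_const s (1 / 2) (gx_diff (s - 1 / 2)).hasDerivAt
  have h4 : (fun z => gx (z - 1 / 2)) =ᶠ[𝓝 s] fun z => Af z * riemannZeta z := by
    filter_upwards [(isOpen_lt continuous_const Complex.continuous_re).mem_nhds h0, isOpen_ne.mem_nhds h1] with z hz1 hz2
    exact gx_eq hz1 hz2
  exact (h3.congr_of_eventuallyEq h4.symm).unique h2

lemma gx_zero_iff {w : ℂ} (h : -(1 / 2) < w.re) : gx w = 0 ↔ 1 / 2 + w ∈ NT := by
  have hs : 0 < (1 / 2 + w : ℂ).re := by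
    rw [Complex.add_re]; norm_num; linarith
  have e : w = (1 / 2 + w) - 1 / 2 := by ring
  have h1 : gx w = -((1 / 2 + w) * Gammaℝ (1 / 2 + w) * Zs (1 / 2 + w)) := by
    conv_lhs => rw [e]
    exact gx_eq' hs
  rw [h1, neg_eq_zero, mul_eq_zero, mul_eq_zero, ← Zs_zero_iff (by linarith)]
  have hG : Gammaℝ (1 / 2 + w) ≠ 0 := Gammaℝ_ne_zero_of_re_pos hs
  have hs0 : (1 / 2 + w : ℂ) ≠ 0 := by
    intro h2
    rw [h2] at hs
    simp at hs
  tauto

lemma gx_zeros (hR : RHS) (w : ℂ) (h : gx w = 0) : w.re = 0 ∧ deriv gx w ≠ 0 := by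
  have key : ∀ w : ℂ, gx w = 0 → 0 ≤ w.re → w.re = 0 ∧ deriv gx w ≠ 0 := by
    intro w h hw
    have h1 := (gx_zero_iff (by linarith)).1 h
    obtain ⟨h2, h3⟩ := hR _ h1
    have h4 : (1 / 2 + w : ℂ).re = 1 / 2 + w.re := by rw [Complex.add_re]; norm_num
    have hs : 0 < (1 / 2 + w : ℂ).re := by rw [h4]; linarith
    have hne : (1 / 2 + w : ℂ) ≠ 1 := (NT_im_ne h1).2
    refine ⟨by rw [h4] at h2; linarith, ?_⟩
    have h5 := gx_deriv hs hne h1.1
    have e : (1 / 2 + w - 1 / 2 : ℂ) = w := by ring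
    rw [e] at h5
    rw [h5]
    exact mul_ne_zero (Af_ne hs hne) h3
  rcases le_total 0 w.re with hw | hw
  · exact key w h hw
  · have h1 := key (-w) (by rw [gx_even]; exact h) (by rw [Complex.neg_re]; linarith)
    rw [Complex.neg_re] at h1
    have h2 : w.re = 0 := by linarith [h1.1]
    exact key w h h2.ge

lemma gx_zero_ne (hR : RHS) : gx 0 ≠ 0 := by
  intro h
  have h1 := (gx_zeros hR 0 h).2
  apply h1
  have h2 : HasDerivAt (fun z => gx (-z)) (-deriv gx 0) 0 := by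
    have h2 : HasDerivAt (fun z : ℂ => -z) (-1) 0 := (hasDerivAt_id (0 : ℂ)).neg
    have h3 : HasDerivAt gx (deriv gx 0) (-0) := by rw [neg_zero]; exact (gx_diff 0).hasDerivAt
    have h4 : HasDerivAt (fun z => gx (-z)) (deriv gx 0 * -1) 0 := h3.comp (0 : ℂ) h2
    rwa [mul_neg_one] at h4
  have h3 : (fun z => gx (-z)) = gx := funext gx_even
  rw [h3] at h2
  have h4 := h2.unique (gx_diff 0).hasDerivAt
  have h5 : (2 : ℂ) * deriv gx 0 = 0 := by linear_combination -h4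
  simpa using h5

lemma gx_growth : ∃ K : ℝ, 0 ≤ K ∧ ∀ w, ‖gx w‖ ≤ Real.exp (K * (1 + ‖w‖) ^ (3 / 2 : ℝ)) := by
  refine ⟨200, by norm_num, ?_⟩
  have key : ∀ w : ℂ, 0 ≤ w.re → ‖gx w‖ ≤ Real.exp (200 * (1 + ‖w‖) ^ (3 / 2 : ℝ)) := by
    intro w hw
    set s : ℂ := 1 / 2 + w with hs
    have hre : s.re = 1 / 2 + w.re := by rw [hs, Complex.add_re]; norm_num
    have hs0 : 0 < s.re := by rw [hre]; linarith
    have e : w = s - 1 / 2 := by rw [hs]; ring
    have h1 : ‖gx w‖ = ‖s‖ * ‖Gammaℝ s‖ * ‖Zs s‖ := by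
      rw [e, gx_eq' hs0, norm_neg, norm_mul, norm_mul]
    set X : ℝ := 1 + ‖w‖ with hX
    have hX1 : 1 ≤ X := by rw [hX]; linarith [norm_nonneg w]
    have hsn : ‖s‖ ≤ X := by
      rw [hs]
      refine (norm_add_le _ _).trans ?_
      have : ‖(1 / 2 : ℂ)‖ = 1 / 2 := by simp
      rw [this, hX]; linarith
    have hX32 : X ≤ X ^ (3 / 2 : ℝ) := by
      calc X = X ^ (1 : ℝ) := (Real.rpow_one X).symm
        _ ≤ X ^ (3 / 2 : ℝ) := Real.rpow_le_rpow_of_exponent_le hX1 (by norm_num)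
    have hG : ‖Gammaℝ s‖ ≤ Real.exp (10 * X ^ (3 / 2 : ℝ)) := by
      rw [norm_Gammaℝ]
      have g1 : Real.pi ^ (-s.re / 2) ≤ 1 := by
        apply Real.rpow_le_one_of_one_le_of_nonpos (by linarith [Real.pi_gt_three]) (by linarith)
      have hre2 : (s / 2).re = s.re / 2 := by simp
      have g2 : ‖Complex.Gamma (s / 2)‖ ≤ Real.Gamma (s.re / 2) := by
        rw [← hre2]
        exact norm_Gamma_le (by rw [hre2]; positivity)
      have g3 : Real.Gamma (s.re / 2) ≤ Real.exp (10 * X ^ (3 / 2 : ℝ)) := by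
        rcases le_total (s.re / 2) 1 with h | h
        · have g4 := gamma_le (x := s.re / 2) (by positivity) h
          refine g4.trans ?_
          have g5 : 1 / (s.re / 2) ≤ 4 := by
            rw [div_le_iff₀ (by positivity)]
            rw [hre]; linarith
          have g6 := Real.add_one_le_exp (10 * X ^ (3 / 2 : ℝ))
          linarith
        · refine (gamma_le' h).trans (Real.exp_le_exp.2 ?_)
          have g7 : s.re / 2 + 1 ≤ 2 * X := by
            have := Complex.re_le_norm s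
            linarith
          have g8 : (s.re / 2 + 1) ^ (3 / 2 : ℝ) ≤ (2 * X) ^ (3 / 2 : ℝ) :=
            Real.rpow_le_rpow (by linarith) g7 (by norm_num)
          rw [Real.mul_rpow (by norm_num) (by linarith)] at g8
          have g9 : (2:ℝ) ^ (3 / 2 : ℝ) ≤ 4 := by
            calc (2:ℝ) ^ (3 / 2 : ℝ) ≤ 2 ^ (2:ℝ) := Real.rpow_le_rpow_of_exponent_le (by norm_num) (by norm_num)
              _ = 4 := by norm_num
          have g10 : 0 ≤ X ^ (3 / 2 : ℝ) := by positivity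
          nlinarith
      calc Real.pi ^ (-s.re / 2) * ‖Complex.Gamma (s / 2)‖ ≤ 1 * Real.exp (10 * X ^ (3 / 2 : ℝ)) := by
            gcongr
            exact g2.trans g3
        _ = _ := one_mul _
    have hZ : ‖Zs s‖ ≤ 20 * X ^ 2 := by
      refine (Zs_norm_le (by rw [hre]; linarith)).trans ?_
      have : ‖s‖ + 1 ≤ 2 * X := by linarith
      calc 5 * (‖s‖ + 1) ^ 2 ≤ 5 * (2 * X) ^ 2 := by gcongr
        _ = _ := by ring
    rw [h1]
    have hXe : X ≤ Real.exp (X ^ (3 / 2 : ℝ)) := by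
      have := Real.add_one_le_exp (X ^ (3 / 2 : ℝ))
      linarith
    have h20 : (20:ℝ) ≤ Real.exp (20 * X ^ (3 / 2 : ℝ)) := by
      have := Real.add_one_le_exp (20 * X ^ (3 / 2 : ℝ))
      linarith
    calc ‖s‖ * ‖Gammaℝ s‖ * ‖Zs s‖ ≤ X * Real.exp (10 * X ^ (3 / 2 : ℝ)) * (20 * X ^ 2) := by gcongr
      _ = 20 * X ^ 3 * Real.exp (10 * X ^ (3 / 2 : ℝ)) := by ring
      _ ≤ Real.exp (20 * X ^ (3 / 2 : ℝ)) * (Real.exp (X ^ (3 / 2 : ℝ))) ^ 3 * Real.exp (10 * X ^ (3 / 2 : ℝ)) := by gcongr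
      _ = Real.exp (33 * X ^ (3 / 2 : ℝ)) := by
          rw [← Real.exp_nat_mul, ← Real.exp_add, ← Real.exp_add]
          congr 1
          push_cast
          ring
      _ ≤ _ := by
          apply Real.exp_le_exp.2
          have : 0 ≤ X ^ (3 / 2 : ℝ) := by positivity
          linarith
  intro w
  rcases le_total 0 w.re with hw | hw
  · exact key w hw
  · have := key (-w) (by rw [Complex.neg_re]; linarith)
    rwa [gx_even, norm_neg] at this

end

end Pool.Agent.Helper37.WMC
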