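import Pool.Agent.Helper37.WMC.Point
import Pool.Graph.R_seed8.H370R2.Count

/-! Consecutive zeros around a given height. -/

set_option autoImplicit false

open Filter Topology Set Complex

namespace Pool.Agent.Helper37.WMC

open Pool.Agent.H295R2 Pool.Agent.Helper37.WMH

noncomputable section

lemma exists_dyadic : ∃ T₁ : ℝ, 10 ≤ T₁ ∧ ∀ T : ℝ, T₁ ≤ T → ∃ ρ ∈ NT, T < ρ.im ∧ ρ.im ≤ 2 * T := by
  obtain ⟨C, T0, hC, hT0, h⟩ := H370.nn_asymp H370.good_zeta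
  refine ⟨max T0 (Real.exp (2 * Real.pi * C + 1)), hT0.trans (le_max_left _ _), fun T hT => ?_⟩
  have hT1 : T0 ≤ T := (le_max_left _ _).trans hT
  have hlog : 2 * Real.pi * C < Real.log T := by
    have h2 := Real.log_le_log (Real.exp_pos _) ((le_max_right _ _).trans hT)
    rw [Real.log_exp] at h2
    linarith
  have hpos : 0 < T := by linarith
  have hb := h T hT1 T (2 * T) le_rfl (by linarith) (by linarith) le_rfl
  have hNN : 0 < (H370.NN riemannZeta T (2 * T) : ℝ) := by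
    have h1 := (abs_le.1 hb).1
    have h2 : C * T < T * Real.log T / (2 * Real.pi) := by
      rw [lt_div_iff₀ (by positivity)]
      nlinarith [Real.pi_pos]
    linarith
  have hne : (H370.zset riemannZeta T (2 * T)).Nonempty := by
    by_contra hcon
    rw [Set.not_nonempty_iff_eq_empty] at hcon
    unfold H370.NN at hNN
    rw [hcon] at hNN
    simp at hNN
  obtain ⟨s, hs0, hs1, hsT, hsT2, hs⟩ := hne
  exact ⟨s, ⟨hs, hs0, hs1⟩, hsT, hsT2⟩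

/-- the pairs of consecutive zeros -/
def Pr : Set (ℂ × ℂ) := {p | Cons p.1 p.2 ∧ 1 ≤ p.1.im ∧ p.2.im ≤ 4 * p.1.im}

lemma exists_pair : ∃ t₀ : ℝ, 20 ≤ t₀ ∧ ∀ t : ℝ, t₀ ≤ t → (∀ ρ ∈ NT, ρ.im ≠ t) →
    ∃ p ∈ Pr, p.1.im < t ∧ t < p.2.im := by
  classical
  obtain ⟨T₁, hT₁, h⟩ := exists_dyadic
  refine ⟨2 * T₁, by linarith, fun t ht hne => ?_⟩
  set S₁ : Finset ℂ := (ZT (2 * t)).filter (fun ρ => ρ.im < t) with hS₁
  set S₂ : Finset ℂ := (ZT (2 * t)).filter (fun ρ => t < ρ.im) with hS₂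
  obtain ⟨σ₁, hσ₁, hσ₁', hσ₁''⟩ := h (t / 2) (by linarith)
  obtain ⟨σ₂, hσ₂, hσ₂', hσ₂''⟩ := h t (by linarith)
  have m1 : σ₁ ∈ S₁ := by
    rw [hS₁, Finset.mem_filter, mem_ZT]
    refine ⟨⟨hσ₁, ?_⟩, lt_of_le_of_ne (by linarith) (hne σ₁ hσ₁)⟩
    rw [abs_of_pos (by linarith)]; linarith
  have m2 : σ₂ ∈ S₂ := by
    rw [hS₂, Finset.mem_filter, mem_ZT]
    refine ⟨⟨hσ₂, ?_⟩, hσ₂'⟩
    rw [abs_of_pos (by linarith)]; linarith
  obtain ⟨ρ₁, hρ₁, hmax⟩ := S₁.exists_max_image (fun ρ => ρ.im) ⟨σ₁, m1⟩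
  obtain ⟨ρ₂, hρ₂, hmin⟩ := S₂.exists_min_image (fun ρ => ρ.im) ⟨σ₂, m2⟩
  have e1 : σ₁.im ≤ ρ₁.im := hmax σ₁ m1
  have e2 : ρ₂.im ≤ σ₂.im := hmin σ₂ m2
  rw [hS₁, Finset.mem_filter, mem_ZT] at hρ₁
  rw [hS₂, Finset.mem_filter, mem_ZT] at hρ₂
  refine ⟨(ρ₁, ρ₂), ⟨⟨hρ₁.1.1, hρ₂.1.1, hρ₁.2.trans hρ₂.2, fun ρ hρ hb => ?_⟩, ?_, ?_⟩, hρ₁.2, hρ₂.2⟩
  · have h0 : ρ ∈ ZT (2 * t) := by
      rw [mem_ZT]
      refine ⟨hρ, ?_⟩
      rw [abs_of_pos (by linarith)]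
      have : ρ.im < ρ₂.im := hb.2
      linarith
    rcases lt_trichotomy ρ.im t with h1 | h1 | h1
    · have : ρ.im ≤ ρ₁.im := hmax ρ (Finset.mem_filter.2 ⟨h0, h1⟩)
      have h2 : ρ₁.im < ρ.im := hb.1
      linarith
    · exact hne ρ hρ h1
    · have : ρ₂.im ≤ ρ.im := hmin ρ (Finset.mem_filter.2 ⟨h0, h1⟩)
      have h2 : ρ.im < ρ₂.im := hb.2
      linarith
  · show 1 ≤ ρ₁.im
    linarith
  · show ρ₂.im ≤ 4 * ρ₁.im
    linarith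

lemma im_inj (hR : RHS) {ρ ρ' : ℂ} (h : ρ ∈ NT) (h' : ρ' ∈ NT) (e : ρ.im = ρ'.im) : ρ = ρ' := by
  apply Complex.ext
  · rw [(hR ρ h).1, (hR ρ' h').1]
  · exact e

lemma fst_inj (hR : RHS) : Set.InjOn Prod.fst Pr := by
  rintro ⟨a, b⟩ ⟨h1, -, -⟩ ⟨a', b'⟩ ⟨h2, -, -⟩ (e : a = a')
  subst e
  simp only at h1 h2
  have : b = b' := by
    apply im_inj hR h1.m2 h2.m2
    rcases lt_trichotomy b.im b'.im with h | h | h
    · exact absurd ⟨h1.lt, h⟩ (h2.no b h1.m2)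
    · exact h
    · exact absurd ⟨h2.lt, h⟩ (h1.no b' h2.m2)
  rw [this]

lemma snd_inj (hR : RHS) : Set.InjOn Prod.snd Pr := by
  rintro ⟨a, b⟩ ⟨h1, -, -⟩ ⟨a', b'⟩ ⟨h2, -, -⟩ (e : b = b')
  subst e
  simp only at h1 h2
  have : a = a' := by
    apply im_inj hR h1.m1 h2.m1
    rcases lt_trichotomy a.im a'.im with h | h | h
    · exact absurd ⟨h, h2.lt⟩ (h1.no a' h2.m1)
    · exact h
    · exact absurd ⟨h, h1.lt⟩ (h2.no a h1.m1)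
  rw [this]

lemma Pr_countable (hR : RHS) : Pr.Countable := by
  have h1 : (Prod.fst '' Pr).Countable := NT_countable.mono (by
    rintro _ ⟨p, hp, rfl⟩
    exact hp.1.m1)
  exact Set.countable_of_injective_of_countable_image (fst_inj hR) h1

end

end Pool.Agent.Helper37.WMC
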